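import Pool.Agent.H52.UL.Defs

/-!
# Project UL (MP_a3214d), row UL-16: the choice of the parameters for large `n`
-/

set_option autoImplicit false

open NumberField Module Polynomial Pool.Agent.H52.UB Pool.Agent.H48.UD

namespace Pool.Agent.H52.UL

theorem ul16_ev (a c c' : ℝ) (ha : 0 < a) (hc : c' < c) : ∃ n0 : ℕ, ∀ n : ℕ, n0 ≤ n →
    1 < Real.log n ∧ Real.log n ^ 2 + 1 ≤ Real.exp (a * Real.log n) ∧
      4 + c < (c - c') * Real.log n := by
  have h1 : ∀ᶠ x : ℝ in Filter.atTop, x ^ 2 + 1 ≤ Real.exp (a * x) := by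
    have h2 := (isLittleO_pow_exp_pos_mul_atTop (k := 2) ha).bound (show (0 : ℝ) < 1 / 2 by norm_num)
    have h3 : Filter.Tendsto (fun x : ℝ => Real.exp (a * x)) Filter.atTop Filter.atTop :=
      Real.tendsto_exp_atTop.comp (Filter.tendsto_id.const_mul_atTop ha)
    filter_upwards [h2, h3.eventually_ge_atTop 2, Filter.eventually_ge_atTop 0] with x hx hx2 hx0
    rw [Real.norm_of_nonneg (by positivity), Real.norm_of_nonneg (Real.exp_pos _).le] at hx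
    linarith
  have h4 : ∀ᶠ x : ℝ in Filter.atTop, 1 < x ∧ x ^ 2 + 1 ≤ Real.exp (a * x) ∧
      4 + c < (c - c') * x := by
    filter_upwards [h1, Filter.eventually_gt_atTop 1,
      Filter.eventually_gt_atTop ((4 + c) / (c - c'))] with x hx hx1 hx2
    refine ⟨hx1, hx, ?_⟩
    rw [div_lt_iff₀ (by linarith)] at hx2
    linarith
  have h5 : Filter.Tendsto (fun n : ℕ => Real.log (n : ℝ)) Filter.atTop Filter.atTop :=
    Real.tendsto_log_atTop.comp tendsto_natCast_atTop_atTop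
  exact Filter.eventually_atTop.1 (h5.eventually h4)

theorem asym (c : ℝ) (hc : 1 / Real.log 2 < c) : ∃ n0 : ℕ, ∀ n : ℕ, n0 ≤ n →
    ∃ s r0 r1 : ℕ, 1 ≤ s ∧ s ≤ n ∧ 1 ≤ r0 ∧ (n : ℝ) / s * Real.log n + 1 ≤ 2 ^ r0 ∧
      s ≤ 4 ^ r1 ∧ 2 * ((r0 : ℝ) + r1) * (n / (n - s + 1)) < c * Real.log n := by
  have hl2 : 0 < Real.log 2 := Real.log_pos (by norm_num)
  have hc0 : 0 < c := lt_trans (by positivity) hc
  set ε : ℝ := (c - 1 / Real.log 2) / 4 with hε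
  have hε0 : 0 < ε := by rw [hε]; linarith
  obtain ⟨n0, hn0⟩ := ul16_ev (Real.log 2 * ε) c (1 / Real.log 2 + 2 * ε) (by positivity)
    (by rw [hε]; linarith)
  refine ⟨max n0 1, fun n hn => ?_⟩
  obtain ⟨hL1, hL2, hL3⟩ := hn0 n (le_trans (le_max_left _ _) hn)
  have hn1 : 1 ≤ n := le_trans (le_max_right _ _) hn
  have hnpos : (0 : ℝ) < n := by exact_mod_cast hn1
  set L : ℝ := Real.log n with hL
  have hL0 : 0 < L := by linarith
  have hexp : Real.exp L = n := by rw [hL]; exact Real.exp_log hnpos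
  have hs1 : (n : ℝ) / L ≤ (⌈(n : ℝ) / L⌉₊ : ℝ) := Nat.le_ceil _
  have hs2 : (⌈(n : ℝ) / L⌉₊ : ℝ) < (n : ℝ) / L + 1 := Nat.ceil_lt_add_one (by positivity)
  have hs0 : 0 < ⌈(n : ℝ) / L⌉₊ := Nat.ceil_pos.2 (by positivity)
  set s : ℕ := ⌈(n : ℝ) / L⌉₊ with hs
  have hspos : (0 : ℝ) < s := by exact_mod_cast hs0
  have hr0 : ε * L ≤ (⌈ε * L⌉₊ : ℝ) := Nat.le_ceil _
  have hr0' : (⌈ε * L⌉₊ : ℝ) < ε * L + 1 := Nat.ceil_lt_add_one (by positivity)
  have hr1 : L / (2 * Real.log 2) ≤ (⌈L / (2 * Real.log 2)⌉₊ : ℝ) := Nat.le_ceil _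
  have hr1' : (⌈L / (2 * Real.log 2)⌉₊ : ℝ) < L / (2 * Real.log 2) + 1 :=
    Nat.ceil_lt_add_one (by positivity)
  have hsn : s ≤ n := by
    rw [hs]
    apply Nat.ceil_le.2
    rw [div_le_iff₀ hL0]
    nlinarith
  refine ⟨s, ⌈ε * L⌉₊, ⌈L / (2 * Real.log 2)⌉₊, hs0, hsn, Nat.ceil_pos.2 (by positivity), ?_, ?_, ?_⟩
  · have h1 : (n : ℝ) / s ≤ L := by
      rw [div_le_iff₀ hspos]
      rw [div_le_iff₀ hL0] at hs1
      linarith
    have h2 : (n : ℝ) / s * L + 1 ≤ L ^ 2 + 1 := by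
      have := mul_le_mul_of_nonneg_right h1 hL0.le
      nlinarith
    refine h2.trans (hL2.trans ?_)
    have h3 : ((2 : ℝ) ^ ⌈ε * L⌉₊) = Real.exp (Real.log 2 * (⌈ε * L⌉₊ : ℝ)) := by
      rw [← Real.rpow_natCast, Real.rpow_def_of_pos (by norm_num)]
    rw [h3]
    apply Real.exp_le_exp.2
    rw [mul_assoc]
    exact mul_le_mul_of_nonneg_left hr0 hl2.le
  · have h3 : ((4 : ℝ) ^ ⌈L / (2 * Real.log 2)⌉₊) =
        Real.exp (2 * Real.log 2 * (⌈L / (2 * Real.log 2)⌉₊ : ℝ)) := by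
      rw [← Real.rpow_natCast, Real.rpow_def_of_pos (by norm_num)]
      congr 2
      rw [show (4 : ℝ) = 2 ^ 2 by norm_num, Real.log_pow]
      norm_num
    have h4 : (n : ℝ) ≤ (4 : ℝ) ^ ⌈L / (2 * Real.log 2)⌉₊ := by
      rw [h3, ← hexp]
      apply Real.exp_le_exp.2
      rw [div_le_iff₀ (by positivity)] at hr1
      linarith
    have h5 : (s : ℝ) ≤ (4 : ℝ) ^ ⌈L / (2 * Real.log 2)⌉₊ :=
      le_trans (by exact_mod_cast hsn) h4
    exact_mod_cast h5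
  · have hden : (n : ℝ) * (L - 1) / L ≤ (n : ℝ) - s + 1 := by
      have h1 : (n : ℝ) * (L - 1) / L = n - n / L := by
        field_simp
      rw [h1]
      linarith
    have hdpos : 0 < (n : ℝ) * (L - 1) / L := by
      have : 0 < L - 1 := by linarith
      positivity
    have h2 : (n : ℝ) / ((n : ℝ) - s + 1) ≤ L / (L - 1) := by
      have h3 : (n : ℝ) / ((n : ℝ) - s + 1) ≤ n / ((n : ℝ) * (L - 1) / L) :=
        div_le_div_of_nonneg_left hnpos.le hdpos hden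
      have h4 : (n : ℝ) / ((n : ℝ) * (L - 1) / L) = L / (L - 1) := by
        have : L - 1 ≠ 0 := by linarith
        field_simp
      rwa [h4] at h3
    have h5 : 2 * ((⌈ε * L⌉₊ : ℝ) + (⌈L / (2 * Real.log 2)⌉₊ : ℝ)) ≤
        (1 / Real.log 2 + 2 * ε) * L + 4 := by
      have h6 : L / (2 * Real.log 2) = 1 / Real.log 2 * L / 2 := by
        field_simp
      have h66 : (⌈L / (2 * Real.log 2)⌉₊ : ℝ) < 1 / Real.log 2 * L / 2 + 1 := by
        rw [← h6]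
        exact hr1'
      linarith
    have h7 : 0 ≤ 2 * ((⌈ε * L⌉₊ : ℝ) + (⌈L / (2 * Real.log 2)⌉₊ : ℝ)) := by positivity
    have h8 : 0 ≤ L / (L - 1) := div_nonneg hL0.le (by linarith)
    calc 2 * ((⌈ε * L⌉₊ : ℝ) + (⌈L / (2 * Real.log 2)⌉₊ : ℝ)) * ((n : ℝ) / ((n : ℝ) - s + 1))
        ≤ 2 * ((⌈ε * L⌉₊ : ℝ) + (⌈L / (2 * Real.log 2)⌉₊ : ℝ)) * (L / (L - 1)) :=
          mul_le_mul_of_nonneg_left h2 h7
      _ ≤ ((1 / Real.log 2 + 2 * ε) * L + 4) * (L / (L - 1)) :=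
          mul_le_mul_of_nonneg_right h5 h8
      _ < c * L := by
          rw [← mul_div_assoc, div_lt_iff₀ (by linarith)]
          nlinarith

end Pool.Agent.H52.UL
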