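import Pool.Agent.H52.UL.Defs

/-!
# UL-13 : block structure of the jet matrix
-/

set_option autoImplicit false

open NumberField Module Polynomial Pool.Agent.H52.UB Pool.Agent.H48.UD

namespace Pool.Agent.H52.UL

/-- The coefficient of `X ^ e` in `∏ t < N, (X + a - (t mod κ))`. -/
noncomputable def ul13_u {R : Type*} [CommRing R] (κ N : ℕ) (a : R) (e : ℕ) : R :=
  (∏ t ∈ Finset.range N, (X + C (a - ((t % κ : ℕ) : R)))).coeff e

/-- coefficients of a product of polynomials in separate variables -/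
theorem ul13_coeff {R : Type*} [CommRing R] {r : ℕ} (Q : Fin r → R[X]) (e : Fin r → ℕ) :
    MvPolynomial.coeff (Finsupp.equivFunOnFinite.symm e)
      (∏ i, aeval (MvPolynomial.X i : MvPolynomial (Fin r) R) (Q i)) = ∏ i, (Q i).coeff (e i) := by
  classical
  obtain ⟨D, hD⟩ : ∃ D : ℕ, ∀ i, (Q i).natDegree < D ∧ e i < D := by
    refine ⟨(Finset.univ.sup fun i => (Q i).natDegree) + (Finset.univ.sup e) + 1, fun i => ?_⟩
    have h1 : (Q i).natDegree ≤ Finset.univ.sup fun i => (Q i).natDegree :=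
      Finset.le_sup (f := fun i => (Q i).natDegree) (Finset.mem_univ i)
    have h2 := Finset.le_sup (f := e) (Finset.mem_univ i)
    constructor <;> omega
  have h1 : ∀ i, aeval (MvPolynomial.X i : MvPolynomial (Fin r) R) (Q i) =
      ∑ k ∈ Finset.range D, MvPolynomial.monomial (Finsupp.single i k) ((Q i).coeff k) := by
    intro i
    rw [aeval_eq_sum_range' (hD i).1]
    refine Finset.sum_congr rfl fun k _ => ?_
    rw [MvPolynomial.X_pow_eq_monomial, MvPolynomial.smul_monomial, smul_eq_mul, mul_one]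
  simp_rw [h1]
  rw [Finset.prod_univ_sum, MvPolynomial.coeff_sum]
  have h2 : ∀ f : Fin r → ℕ, (∏ i, MvPolynomial.monomial (Finsupp.single i (f i))
      ((Q i).coeff (f i)) : MvPolynomial (Fin r) R) =
      MvPolynomial.monomial (Finsupp.equivFunOnFinite.symm f) (∏ i, (Q i).coeff (f i)) := by
    intro f
    have h3 : (∑ i, Finsupp.single i (f i)) = Finsupp.equivFunOnFinite.symm f := by
      ext i
      rw [Finsupp.finsetSum_apply]
      simp [Finsupp.single_apply]
    rw [← MvPolynomial.monomial_sum_prod, h3]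
  simp_rw [h2, MvPolynomial.coeff_monomial]
  rw [Finset.sum_eq_single e]
  · rw [if_pos rfl]
  · intro f _ hf
    rw [if_neg]
    intro h
    exact hf (Finsupp.equivFunOnFinite.symm.injective h)
  · intro h
    exfalso
    apply h
    rw [Fintype.mem_piFinset]
    intro i
    exact Finset.mem_range.2 (hD i).2

/-- the Taylor coefficients of the Newton polynomials -/
theorem ul13_tay {R : Type*} [CommRing R] {r : ℕ} (κ N : Fin r → ℕ) (x : Fin r → R)
    (e : Fin r → ℕ) :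
    tay x e (MvPolynomial.map (Int.castRingHom R) (phi κ N)) =
      ∏ i, ul13_u (κ i) (N i) (x i) (e i) := by
  unfold tay phi ul13_u
  rw [← ul13_coeff]
  congr 1
  rw [map_prod, map_prod]
  refine Finset.prod_congr rfl fun i _ => ?_
  rw [map_prod, map_prod, map_prod]
  refine Finset.prod_congr rfl fun t _ => ?_
  simp only [map_sub, map_add, MvPolynomial.map_X, MvPolynomial.map_C, MvPolynomial.aeval_X,
    aeval_X, aeval_C, MvPolynomial.algebraMap_eq, MvPolynomial.aeval_C, Int.coe_castRingHom,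
    Int.cast_natCast]
  ring

theorem ul13_fac {R : Type*} [CommRing R] (κ N l : ℕ) :
    (∏ t ∈ Finset.range N, (X + C ((l : R) - ((t % κ : ℕ) : R)))) =
      X ^ ((Finset.range N).filter fun t => t % κ = l).card *
        ∏ t ∈ (Finset.range N).filter (fun t => ¬ t % κ = l),
          (X + C ((l : R) - ((t % κ : ℕ) : R))) := by
  rw [← Finset.prod_filter_mul_prod_filter_not (Finset.range N) (fun t => t % κ = l)]
  congr 1
  rw [Finset.prod_congr rfl (g := fun _ => (X : R[X]))]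
  · rw [Finset.prod_const]
  · intro t ht
    rw [(Finset.mem_filter.1 ht).2, sub_self, map_zero, add_zero]

/-- vanishing below the order -/
theorem ul13_zero {R : Type*} [CommRing R] {κ N l e : ℕ} (hl : l < κ) (h : κ * e + l < N) :
    ul13_u κ N (l : R) e = 0 := by
  unfold ul13_u
  rw [ul13_fac, coeff_X_pow_mul']
  rw [if_neg]
  rw [not_le]
  have h1 : (Finset.range (e + 1)).card ≤ ((Finset.range N).filter fun t => t % κ = l).card := by
    apply Finset.card_le_card_of_injOn (fun i => κ * i + l)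
    · intro i hi
      have hi' : i < e + 1 := Finset.mem_range.1 hi
      have h2 : κ * i ≤ κ * e := Nat.mul_le_mul_left _ (by omega)
      refine Finset.mem_coe.2 (Finset.mem_filter.2 ⟨Finset.mem_range.2 ?_, ?_⟩)
      · show κ * i + l < N
        omega
      · show (κ * i + l) % κ = l
        rw [Nat.mul_add_mod, Nat.mod_eq_of_lt hl]
    · intro i _ j _ hij
      have : κ * i + l = κ * j + l := hij
      exact Nat.eq_of_mul_eq_mul_left (show 0 < κ by omega) (by omega)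
  rw [Finset.card_range] at h1
  omega

/-- the leading coefficient at the diagonal -/
theorem ul13_diag {F : Type*} [Field F] [CharZero F] {κ l e : ℕ} (hl : l < κ) :
    ul13_u κ (κ * e + l) (l : F) e ≠ 0 := by
  classical
  have hcard : ((Finset.range (κ * e + l)).filter fun t => t % κ = l).card = e := by
    have h1 : ((Finset.range (κ * e + l)).filter fun t => t % κ = l) =
        (Finset.range e).image (fun i => κ * i + l) := by
      ext t
      simp only [Finset.mem_filter, Finset.mem_range, Finset.mem_image]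
      constructor
      · rintro ⟨h1, h2⟩
        refine ⟨t / κ, ?_, ?_⟩
        · have h3 := Nat.div_add_mod t κ
          rw [h2] at h3
          have h4 : κ * (t / κ) < κ * e := by omega
          exact Nat.lt_of_mul_lt_mul_left h4
        · have h3 := Nat.div_add_mod t κ
          rw [h2] at h3
          exact h3
      · rintro ⟨i, hi, rfl⟩
        refine ⟨?_, ?_⟩
        · have : κ * i < κ * e := Nat.mul_lt_mul_of_pos_left hi (by omega)
          omega
        · rw [Nat.mul_add_mod, Nat.mod_eq_of_lt hl]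
    rw [h1, Finset.card_image_of_injective, Finset.card_range]
    intro i j hij
    have : κ * i + l = κ * j + l := hij
    exact Nat.eq_of_mul_eq_mul_left (show 0 < κ by omega) (by omega)
  unfold ul13_u
  rw [ul13_fac, hcard, coeff_X_pow_mul', if_pos le_rfl, Nat.sub_self, coeff_zero_prod]
  rw [Finset.prod_ne_zero_iff]
  intro t ht
  have ht' := (Finset.mem_filter.1 ht).2
  simp only [coeff_add, coeff_X_zero, coeff_C_zero, zero_add]
  intro h0
  rw [sub_eq_zero] at h0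
  exact ht' (Nat.cast_injective h0).symm

/-- kernel argument -/
theorem ul13_tri {F ι : Type*} [Field F] [Fintype ι] [DecidableEq ι] (A : Matrix ι ι F)
    (ht : ι → ℕ) (h1 : ∀ a b, A a b ≠ 0 → ht b ≤ ht a ∧ (ht b = ht a → b = a))
    (h2 : ∀ a, A a a ≠ 0) : A.det ≠ 0 := by
  classical
  intro h0
  obtain ⟨v, hv, hAv⟩ := Matrix.exists_mulVec_eq_zero_iff.2 h0
  obtain ⟨a0, ha0⟩ := Function.ne_iff.1 hv
  obtain ⟨b, hb, hmin⟩ := Finset.exists_min_image (Finset.univ.filter fun a => v a ≠ 0) ht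
    ⟨a0, Finset.mem_filter.2 ⟨Finset.mem_univ _, ha0⟩⟩
  have hb' := (Finset.mem_filter.1 hb).2
  have hrow := congrFun hAv b
  rw [Matrix.mulVec, dotProduct, Finset.sum_eq_single b] at hrow
  · rcases mul_eq_zero.1 hrow with h3 | h3
    · exact h2 b h3
    · exact hb' h3
  · intro c _ hc
    by_contra h3
    have h4 : A b c ≠ 0 := fun h => h3 (by rw [h, zero_mul])
    have h5 : v c ≠ 0 := fun h => h3 (by rw [h, mul_zero])
    obtain ⟨h6, h7⟩ := h1 b c h4
    have h8 := hmin c (Finset.mem_filter.2 ⟨Finset.mem_univ _, h5⟩)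
    exact hc (h7 (le_antisymm h6 h8))
  · intro h
    exact absurd (Finset.mem_univ b) h

theorem ul13_map_u {A B : Type*} [CommRing A] [CommRing B] (f : A →+* B) (κ N : ℕ) (a : A)
    (e : ℕ) : f (ul13_u κ N a e) = ul13_u κ N (f a) e := by
  unfold ul13_u
  rw [← coeff_map, Polynomial.map_prod]
  congr 1
  refine Finset.prod_congr rfl fun t _ => ?_
  rw [Polynomial.map_add, Polynomial.map_X, Polynomial.map_C, map_sub f, map_natCast f]

theorem ul13_jet {R : Type*} [CommRing R] {n r : ℕ} (κ : Fin r → ℕ) (Γ : Fin n → Fin r → ℕ)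
    (s : ℕ) (x : Fin n → Fin r → R) (ρ ρ' : Fin n × Ex r s) :
    jetMat κ Γ s x ρ ρ' = ∏ i, ul13_u (κ i) (κ i * (ρ'.2.1 i : ℕ) + Γ ρ'.1 i) (x ρ.1 i)
      (ρ.2.1 i : ℕ) := ul13_tay _ _ _ _

theorem map_bjd {A B : Type*} [CommRing A] [CommRing B] (f : A →+* B) {n r : ℕ} (κ : Fin r → ℕ)
    (Γ : Fin n → Fin r → ℕ) (r0 : ℕ) (lab : Fin n → ℕ) (t s : ℕ) (x : Fin n → Fin r → A) :
    f (bjd κ Γ r0 lab t s x) = bjd κ Γ r0 lab t s (fun j i => f (x j i)) := by
  classical
  unfold bjd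
  rw [RingHom.map_det]
  congr 1
  ext ρ ρ'
  simp only [RingHom.mapMatrix_apply, Matrix.map_apply, Matrix.submatrix_apply]
  rw [ul13_jet, ul13_jet, map_prod]
  simp only [ul13_map_u]

/-- comparison of `κ e + l` -/
theorem ul13_le {κ l e l' e' : ℕ} {F : Type*} [Field F] (hl : l < κ)
    (h : ul13_u κ (κ * e' + l') (l : F) e ≠ 0) : κ * e' + l' ≤ κ * e + l := by
  by_contra h1
  exact h (ul13_zero hl (by omega))

theorem ul13_eq {κ l e l' e' : ℕ} (hl : l < κ) (hl' : l' < κ) (h : κ * e' + l' = κ * e + l) :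
    e' = e ∧ l' = l := by
  have h1 : (κ * e' + l') / κ = (κ * e + l) / κ := by rw [h]
  have h2 : (κ * e' + l') % κ = (κ * e + l) % κ := by rw [h]
  rw [Nat.mul_add_div (by omega), Nat.mul_add_div (by omega), Nat.div_eq_of_lt hl,
    Nat.div_eq_of_lt hl'] at h1
  rw [Nat.mul_add_mod, Nat.mul_add_mod, Nat.mod_eq_of_lt hl, Nat.mod_eq_of_lt hl'] at h2
  exact ⟨by omega, h2⟩

/-- only the points of the block matter, and the block is invertible at the grid points -/
theorem bjd_grid {F : Type*} [Field F] [CharZero F] {n r : ℕ} (κ : Fin r → ℕ)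
    (Γ : Fin n → Fin r → ℕ) (hΓ : ∀ j i, Γ j i < κ i) (hinj : Function.Injective Γ) (r0 : ℕ)
    (lab : Fin n → ℕ) (t s : ℕ) (x : Fin n → Fin r → F)
    (hx : ∀ j i, lab j = t → x j i = Γ j i) : bjd κ Γ r0 lab t s x ≠ 0 := by
  classical
  unfold bjd
  apply ul13_tri _ (fun ρ => ∑ i, (κ i * (ρ.1.2.1 i : ℕ) + Γ ρ.1.1 i))
  · rintro ⟨a, ha, ha'⟩ ⟨b, hb, hb'⟩ hab
    simp only [Matrix.submatrix_apply] at hab
    rw [ul13_jet, Finset.prod_ne_zero_iff] at hab
    have hle : ∀ i ∈ Finset.univ, κ i * (b.2.1 i : ℕ) + Γ b.1 i ≤ κ i * (a.2.1 i : ℕ) + Γ a.1 i := by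
      intro i hi
      have h1 := hab i hi
      rw [hx a.1 i ha] at h1
      exact ul13_le (hΓ _ _) h1
    refine ⟨Finset.sum_le_sum hle, ?_⟩
    intro heq
    have h1 := (Finset.sum_eq_sum_iff_of_le hle).1 heq
    have h2 : ∀ i, (b.2.1 i : ℕ) = a.2.1 i ∧ Γ b.1 i = Γ a.1 i := fun i =>
      ul13_eq (hΓ _ _) (hΓ _ _) (h1 i (Finset.mem_univ i))
    apply Subtype.ext
    apply Prod.ext
    · exact hinj (funext fun i => (h2 i).2)
    · apply Subtype.ext
      funext i
      exact Fin.ext (h2 i).1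
  · rintro ⟨a, ha, ha'⟩
    simp only [Matrix.submatrix_apply]
    rw [ul13_jet, Finset.prod_ne_zero_iff]
    intro i _
    rw [hx a.1 i ha]
    exact ul13_diag (hΓ _ _)

/-- the embedding of the indices of a block: the big exponents are `e0` -/
theorem ul13_emb {r : ℕ} (r0 s s' : ℕ) (e0 : Ex r s)
    (hs' : s' = s - ∑ i : Fin r, if (i : ℕ) < r0 then (e0.1 i : ℕ) else 0) :
    ∃ em : {e : Ex r s' //
        ∀ i : Fin r, (i : ℕ) < r0 → e.1 i = 0} → Ex r s,
      Function.Injective em ∧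
      (∀ e, ∀ i : Fin r, ((em e).1 i : ℕ) = if (i : ℕ) < r0 then (e0.1 i : ℕ) else (e.1.1 i : ℕ)) ∧
      ∀ e' : Ex r s, (∀ i : Fin r, (i : ℕ) < r0 → e'.1 i = e0.1 i) → ∃ e, em e = e' := by
  classical
  subst hs'
  set b0 := ∑ i : Fin r, if (i : ℕ) < r0 then (e0.1 i : ℕ) else 0 with hb0
  have hb0s : b0 ≤ s := by
    refine le_trans (Finset.sum_le_sum fun i _ => ?_) e0.2
    split_ifs
    · exact le_rfl
    · exact Nat.zero_le _
  have hsum : ∀ e : {e : Ex r (s - b0) // ∀ i : Fin r, (i : ℕ) < r0 → e.1 i = 0},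
      ∑ i : Fin r, (if (i : ℕ) < r0 then (e0.1 i : ℕ) else (e.1.1 i : ℕ)) ≤ s := by
    intro e
    have h1 : ∑ i : Fin r, (if (i : ℕ) < r0 then (e0.1 i : ℕ) else (e.1.1 i : ℕ)) ≤
        b0 + ∑ i : Fin r, (e.1.1 i : ℕ) := by
      show _ ≤ (∑ i : Fin r, if (i : ℕ) < r0 then (e0.1 i : ℕ) else 0) + _
      rw [← Finset.sum_add_distrib]
      refine Finset.sum_le_sum fun i _ => ?_
      split_ifs <;> omega
    have h2 := e.1.2
    omega
  have hlt : ∀ (e : {e : Ex r (s - b0) // ∀ i : Fin r, (i : ℕ) < r0 → e.1 i = 0}) (i : Fin r),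
      (if (i : ℕ) < r0 then (e0.1 i : ℕ) else (e.1.1 i : ℕ)) < s + 1 := by
    intro e i
    have h1 : (if (i : ℕ) < r0 then (e0.1 i : ℕ) else (e.1.1 i : ℕ)) ≤
        ∑ i : Fin r, (if (i : ℕ) < r0 then (e0.1 i : ℕ) else (e.1.1 i : ℕ)) :=
      Finset.single_le_sum (f := fun i : Fin r =>
        (if (i : ℕ) < r0 then (e0.1 i : ℕ) else (e.1.1 i : ℕ))) (fun _ _ => Nat.zero_le _)
        (Finset.mem_univ i)
    have h2 := hsum e
    omega
  refine ⟨fun e => ⟨fun i => ⟨_, hlt e i⟩, hsum e⟩, ?_, fun e i => rfl, ?_⟩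
  · intro e e' h
    apply Subtype.ext
    apply Subtype.ext
    funext i
    by_cases hi : (i : ℕ) < r0
    · rw [e.2 i hi, e'.2 i hi]
    · have h1 := congrFun (congrArg Subtype.val h) i
      have h2 := congrArg Fin.val h1
      simp only [if_neg hi] at h2
      exact Fin.ext h2
  · intro e' he'
    have hs' : ∑ i : Fin r, (if (i : ℕ) < r0 then 0 else (e'.1 i : ℕ)) ≤ s - b0 := by
      have h1 : b0 + ∑ i : Fin r, (if (i : ℕ) < r0 then 0 else (e'.1 i : ℕ)) =
          ∑ i : Fin r, (e'.1 i : ℕ) := by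
        show (∑ i : Fin r, if (i : ℕ) < r0 then (e0.1 i : ℕ) else 0) + _ = _
        rw [← Finset.sum_add_distrib]
        refine Finset.sum_congr rfl fun i _ => ?_
        by_cases hi : (i : ℕ) < r0
        · rw [if_pos hi, if_pos hi, he' i hi, add_zero]
        · rw [if_neg hi, if_neg hi, zero_add]
      have h2 := e'.2
      omega
    have hlt' : ∀ i : Fin r, (if (i : ℕ) < r0 then 0 else (e'.1 i : ℕ)) < s - b0 + 1 := by
      intro i
      have h1 : (if (i : ℕ) < r0 then 0 else (e'.1 i : ℕ)) ≤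
          ∑ i : Fin r, (if (i : ℕ) < r0 then 0 else (e'.1 i : ℕ)) :=
        Finset.single_le_sum (f := fun i : Fin r =>
          (if (i : ℕ) < r0 then 0 else (e'.1 i : ℕ))) (fun _ _ => Nat.zero_le _)
          (Finset.mem_univ i)
      omega
    refine ⟨⟨⟨fun i => ⟨_, hlt' i⟩, hs'⟩, ?_⟩, ?_⟩
    · intro i hi
      apply Fin.ext
      simp only [if_pos hi]
      rfl
    · apply Subtype.ext
      funext i
      apply Fin.ext
      by_cases hi : (i : ℕ) < r0
      · simp only [if_pos hi]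
        rw [he' i hi]
      · simp only [if_neg hi]

/-- If the coordinates `< r0` are the labels of the blocks and all blocks are invertible, then the
whole matrix is invertible. -/
theorem jd_ne_of_blocks {F : Type*} [Field F] [CharZero F] {n r : ℕ} (κ : Fin r → ℕ)
    (Γ : Fin n → Fin r → ℕ) (hΓ : ∀ j i, Γ j i < κ i) (r0 : ℕ) (lab : Fin n → ℕ)
    (hlab : ∀ j l, lab j = lab l ↔ ∀ i : Fin r, (i : ℕ) < r0 → Γ j i = Γ l i) (s : ℕ)
    (x : Fin n → Fin r → F) (hx : ∀ j (i : Fin r), (i : ℕ) < r0 → x j i = Γ j i)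
    (h : ∀ s' ≤ s, ∀ j, bjd κ Γ r0 lab (lab j) s' x ≠ 0) : jd κ Γ s x ≠ 0 := by
  classical
  intro h0
  unfold jd at h0
  obtain ⟨v, hv, hAv⟩ := Matrix.exists_mulVec_eq_zero_iff.2 h0
  obtain ⟨a0, ha0⟩ := Function.ne_iff.1 hv
  set big : Fin n × Ex r s → ℕ := fun ρ =>
    ∑ i : Fin r, if (i : ℕ) < r0 then κ i * (ρ.2.1 i : ℕ) + Γ ρ.1 i else 0 with hbig
  obtain ⟨ρ0, hρ0, hmin⟩ := Finset.exists_min_image (Finset.univ.filter fun a => v a ≠ 0) big
    ⟨a0, Finset.mem_filter.2 ⟨Finset.mem_univ _, ha0⟩⟩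
  have hv0 := (Finset.mem_filter.1 hρ0).2
  obtain ⟨l0, e0⟩ := ρ0
  obtain ⟨s', hs'⟩ : ∃ s', s' = s - ∑ i : Fin r, if (i : ℕ) < r0 then (e0.1 i : ℕ) else 0 :=
    ⟨_, rfl⟩
  obtain ⟨em, hem, hem1, hem2⟩ := ul13_emb r0 s s' e0 hs'
  apply h s' (by rw [hs']; exact Nat.sub_le _ _) l0
  unfold bjd
  -- the embedding of the indices
  set J := {ρ : Fin n × Ex r s' // lab ρ.1 = lab l0 ∧ ∀ i : Fin r, (i : ℕ) < r0 → ρ.2.1 i = 0}
    with hJ
  set E : J → Fin n × Ex r s := fun ρ => (ρ.1.1, em ⟨ρ.1.2, ρ.2.2⟩) with hE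
  have hEinj : Function.Injective E := by
    rintro ⟨⟨a, e⟩, ha⟩ ⟨⟨b, e'⟩, hb⟩ hab
    have h1 := congrArg Prod.fst hab
    have h2 := hem (congrArg Prod.snd hab)
    simp only [hE] at h1 h2
    have h3 := congrArg Subtype.val h2
    simp only at h3
    subst h1
    subst h3
    rfl
  have hEv : ∀ (ρ : J) (i : Fin r), ((E ρ).2.1 i : ℕ) =
      if (i : ℕ) < r0 then (e0.1 i : ℕ) else (ρ.1.2.1 i : ℕ) := fun ρ i => hem1 _ i
  have hΓ0 : ∀ (ρ : J) (i : Fin r), (i : ℕ) < r0 → Γ ρ.1.1 i = Γ l0 i := fun ρ i hi =>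
    (hlab _ _).1 ρ.2.1 i hi
  have hx0 : ∀ (ρ : J) (i : Fin r), (i : ℕ) < r0 → x ρ.1.1 i = ((Γ l0 i : ℕ) : F) := by
    intro ρ i hi
    rw [hx _ i hi, hΓ0 ρ i hi]
  -- the constants
  set c1 : F := ∏ i : Fin r, if (i : ℕ) < r0 then
    ul13_u (κ i) (κ i * (e0.1 i : ℕ) + Γ l0 i) ((Γ l0 i : ℕ) : F) (e0.1 i : ℕ) else 1 with hc1
  set c2 : F := ∏ i : Fin r, if (i : ℕ) < r0 then
    ul13_u (κ i) (κ i * 0 + Γ l0 i) ((Γ l0 i : ℕ) : F) 0 else 1 with hc2
  have hc1' : c1 ≠ 0 := by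
    rw [hc1, Finset.prod_ne_zero_iff]
    intro i _
    split_ifs
    · exact ul13_diag (hΓ _ _)
    · exact one_ne_zero
  have key : ∀ ρ ρ' : J, c2 * jetMat κ Γ s x (E ρ) (E ρ') = c1 * jetMat κ Γ s' x ρ.1 ρ'.1 := by
    intro ρ ρ'
    rw [ul13_jet, ul13_jet, hc1, hc2, ← Finset.prod_mul_distrib, ← Finset.prod_mul_distrib]
    refine Finset.prod_congr rfl fun i _ => ?_
    rw [hEv, hEv]
    by_cases hi : (i : ℕ) < r0
    · have h1 : (ρ.1.2.1 i : ℕ) = 0 := by rw [ρ.2.2 i hi]; rfl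
      have h2 : (ρ'.1.2.1 i : ℕ) = 0 := by rw [ρ'.2.2 i hi]; rfl
      simp only [if_pos hi]
      rw [h1, h2, hΓ0 ρ' i hi, hx0 ρ i hi, mul_comm]
    · simp only [if_neg hi, one_mul]
      rfl
  -- the kernel vector
  rw [← Matrix.exists_mulVec_eq_zero_iff]
  refine ⟨fun ρ => v (E ρ), ?_, ?_⟩
  · obtain ⟨e1, he1⟩ := hem2 e0 (fun i _ => rfl)
    rw [Function.ne_iff]
    refine ⟨⟨(l0, e1.1), rfl, e1.2⟩, ?_⟩
    show v (l0, em ⟨e1.1, e1.2⟩) ≠ 0
    rw [show (⟨e1.1, e1.2⟩ : {e : Ex r s' // ∀ i : Fin r, (i : ℕ) < r0 → e.1 i = 0}) = e1 from rfl,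
      he1]
    exact hv0
  · funext ρ
    rw [Matrix.mulVec, dotProduct]
    have hrow := congrFun hAv (E ρ)
    rw [Matrix.mulVec, dotProduct] at hrow
    have hsum : ∑ ρ' : J, jetMat κ Γ s x (E ρ) (E ρ') * v (E ρ') =
        ∑ ρ', jetMat κ Γ s x (E ρ) ρ' * v ρ' := by
      apply Fintype.sum_of_injective E hEinj
      · intro ρ' hρ'
        by_contra h3
        apply hρ'
        have h4 : jetMat κ Γ s x (E ρ) ρ' ≠ 0 := fun h => h3 (by rw [h, zero_mul])
        have h5 : v ρ' ≠ 0 := fun h => h3 (by rw [h, mul_zero])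
        rw [ul13_jet, Finset.prod_ne_zero_iff] at h4
        have hle : ∀ i ∈ (Finset.univ : Finset (Fin r)),
            (if (i : ℕ) < r0 then κ i * (ρ'.2.1 i : ℕ) + Γ ρ'.1 i else 0) ≤ (if (i : ℕ) < r0 then κ i * (e0.1 i : ℕ) + Γ l0 i else 0) := by
          intro i hi
          split_ifs with hir
          · have h6 := h4 i hi
            rw [hEv, if_pos hir] at h6
            change ul13_u (κ i) _ (x ρ.1.1 i) _ ≠ 0 at h6
            rw [hx0 ρ i hir] at h6
            exact ul13_le (hΓ _ _) h6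
          · exact le_rfl
        have h6 : big ρ' ≤ big (l0, e0) := Finset.sum_le_sum hle
        have h7 := hmin ρ' (Finset.mem_filter.2 ⟨Finset.mem_univ _, h5⟩)
        have h8 := (Finset.sum_eq_sum_iff_of_le hle).1 (le_antisymm h6 h7)
        have h9 : ∀ i : Fin r, (i : ℕ) < r0 → (ρ'.2.1 i : ℕ) = e0.1 i ∧ Γ ρ'.1 i = Γ l0 i := by
          intro i hi
          have := h8 i (Finset.mem_univ i)
          rw [if_pos hi, if_pos hi] at this
          exact ul13_eq (hΓ _ _) (hΓ _ _) this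
        obtain ⟨e1, he1⟩ := hem2 ρ'.2 (fun i hi => Fin.ext (h9 i hi).1)
        refine ⟨⟨(ρ'.1, e1.1), (hlab _ _).2 fun i hi => (h9 i hi).2, e1.2⟩, ?_⟩
        show (ρ'.1, em ⟨e1.1, e1.2⟩) = ρ'
        rw [show (⟨e1.1, e1.2⟩ : {e : Ex r s' // ∀ i : Fin r, (i : ℕ) < r0 → e.1 i = 0}) = e1
          from rfl, he1]
      · intro ρ'
        rfl
    have h1 : c1 * ∑ ρ' : J, jetMat κ Γ s' x ρ.1 ρ'.1 * v (E ρ') = 0 := by
      rw [Finset.mul_sum]
      have : ∀ ρ' : J, c1 * (jetMat κ Γ s' x ρ.1 ρ'.1 * v (E ρ')) =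
          c2 * (jetMat κ Γ s x (E ρ) (E ρ') * v (E ρ')) := by
        intro ρ'
        rw [← mul_assoc, ← mul_assoc, key]
      rw [Finset.sum_congr rfl fun ρ' _ => this ρ', ← Finset.mul_sum, hsum, hrow]
      simp
    rcases mul_eq_zero.1 h1 with h2 | h2
    · exact absurd h2 hc1'
    · exact h2

end Pool.Agent.H52.UL
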