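import Pool.Agent.H52.UL.Defs

/-!
# Project UL, row 5: the Hilbert function
-/

set_option autoImplicit false

open NumberField Module Polynomial Pool.Agent.H52.UB Pool.Agent.H48.UD

namespace Pool.Agent.H52.UL

section Hilb

variable {F : Type*} [Field F] {r : ℕ} (w : Fin r → ℕ) (hw : ∀ i, 1 ≤ w i)
  (Y : Set (Fin r → F))

include hw

theorem ul5_subset (a : ℕ) :
    {b : Fin r → ℕ | wd w b ≤ a} ⊆
      (Fintype.piFinset (fun _ : Fin r => Finset.range (a + 1)) : Finset (Fin r → ℕ)) := by
  intro b hb
  rw [Finset.mem_coe, Fintype.mem_piFinset]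
  intro i
  rw [Finset.mem_range, Nat.lt_succ_iff]
  calc b i ≤ w i * b i := Nat.le_mul_of_pos_left _ (hw i)
    _ ≤ ∑ j, w j * b j :=
      Finset.single_le_sum (f := fun j => w j * b j) (fun j _ => Nat.zero_le _) (Finset.mem_univ i)
    _ ≤ a := hb

theorem hl_fin (a : ℕ) : {b : Fin r → ℕ | wd w b ≤ a}.Finite :=
  (Finset.finite_toSet _).subset (ul5_subset w hw a)

theorem ul5_finite (a : ℕ) : FiniteDimensional F (Submodule.span F
    ((fun b : Fin r → ℕ => fun y : Y => mon (y : Fin r → F) b) '' {b | wd w b ≤ a})) :=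
  FiniteDimensional.span_of_finite F ((hl_fin w hw a).image _)

theorem hl_mono : Monotone (hl w Y) := by
  intro a a' h
  have := ul5_finite w hw Y a'
  unfold hl rk
  apply Submodule.finrank_mono
  apply Submodule.span_mono
  apply Set.image_mono
  intro b hb
  exact le_trans hb h

theorem hl_le (a : ℕ) : hl w Y a ≤ (a + 1) ^ r := by
  classical
  have h1 : Submodule.span F
      ((fun b : Fin r → ℕ => fun y : Y => mon (y : Fin r → F) b) '' {b | wd w b ≤ a}) ≤
      Submodule.span F (((Fintype.piFinset (fun _ : Fin r => Finset.range (a + 1))).image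
        (fun b : Fin r → ℕ => fun y : Y => mon (y : Fin r → F) b) : Finset (Y → F)) :
          Set (Y → F)) := by
    apply Submodule.span_mono
    rw [Finset.coe_image]
    exact Set.image_mono (ul5_subset w hw a)
  have h2 : FiniteDimensional F (Submodule.span F
      (((Fintype.piFinset (fun _ : Fin r => Finset.range (a + 1))).image
        (fun b : Fin r → ℕ => fun y : Y => mon (y : Fin r → F) b) : Finset (Y → F)) :
          Set (Y → F))) := FiniteDimensional.span_of_finite F (Finset.finite_toSet _)
  unfold hl rk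
  refine le_trans (Submodule.finrank_mono h1) (le_trans (finrank_span_finset_le_card _) ?_)
  refine le_trans Finset.card_image_le ?_
  rw [Fintype.card_piFinset]
  simp

omit hw in
theorem ul5_mul {a W : ℕ} (hW : ∀ i, w i ≤ W) (g : Y → F)
    (hg : g ∈ Submodule.span F
      ((fun b : Fin r → ℕ => fun y : Y => mon (y : Fin r → F) b) '' {b | wd w b ≤ a}))
    (i : Fin r) (c : F) :
    (fun y : Y => ((y : Fin r → F) i - c) * g y) ∈ Submodule.span F
      ((fun b : Fin r → ℕ => fun y : Y => mon (y : Fin r → F) b) '' {b | wd w b ≤ a + W}) := by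
  classical
  induction hg using Submodule.span_induction with
  | mem g hg =>
    obtain ⟨b, hb, rfl⟩ := hg
    have h1 : (fun y : Y => ((y : Fin r → F) i - c) * mon (y : Fin r → F) b) =
        (fun y : Y => mon (y : Fin r → F) (b + Pi.single i 1)) -
          c • (fun y : Y => mon (y : Fin r → F) b) := by
      funext y
      have h2 : mon (y : Fin r → F) (b + Pi.single i 1) =
          (y : Fin r → F) i * mon (y : Fin r → F) b := by
        unfold mon
        simp only [Pi.add_apply, pow_add, Finset.prod_mul_distrib]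
        rw [mul_comm]
        congr 1
        rw [Finset.prod_eq_single i]
        · simp
        · intro j _ hj
          rw [Pi.single_eq_of_ne hj, pow_zero]
        · intro h
          exact absurd (Finset.mem_univ i) h
      simp only [Pi.sub_apply, Pi.smul_apply, smul_eq_mul, h2]
      ring
    beta_reduce
    rw [h1]
    refine Submodule.sub_mem _ (Submodule.subset_span ⟨_, ?_, rfl⟩)
      (Submodule.smul_mem _ _ (Submodule.subset_span ⟨_, ?_, rfl⟩))
    · have h3 : wd w (b + Pi.single i 1) = wd w b + w i := by
        unfold wd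
        simp only [Pi.add_apply, mul_add, Finset.sum_add_distrib]
        congr 1
        rw [Finset.sum_eq_single i]
        · simp
        · intro j _ hj
          rw [Pi.single_eq_of_ne hj, mul_zero]
        · intro h
          exact absurd (Finset.mem_univ i) h
      change wd w (b + Pi.single i 1) ≤ a + W
      rw [h3]
      exact add_le_add hb (hW i)
    · exact le_trans hb (Nat.le_add_right _ _)
  | zero =>
    have h3 : (fun y : Y => ((y : Fin r → F) i - c) * (0 : Y → F) y) = 0 := by
      funext y
      simp only [Pi.zero_apply, mul_zero]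
    rw [h3]
    exact Submodule.zero_mem _
  | add g g' _ _ h h' =>
    have h3 : (fun y : Y => ((y : Fin r → F) i - c) * (g + g') y) =
        (fun y : Y => ((y : Fin r → F) i - c) * g y) +
          (fun y : Y => ((y : Fin r → F) i - c) * g' y) := by
      funext y
      simp only [Pi.add_apply]
      ring
    rw [h3]
    exact Submodule.add_mem _ h h'
  | smul t g _ h =>
    have h3 : (fun y : Y => ((y : Fin r → F) i - c) * (t • g) y) =
        t • (fun y : Y => ((y : Fin r → F) i - c) * g y) := by
      funext y
      simp only [Pi.smul_apply, smul_eq_mul]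
      ring
    rw [h3]
    exact Submodule.smul_mem _ _ h

omit hw in
/-- a product of linear forms which is not zero at `x` and vanishes on `Z` -/
theorem ul5_sep {W : ℕ} (hW : ∀ i, w i ≤ W) (x : Fin r → F) (Z : Finset (Fin r → F))
    (hx : x ∉ Z) : ∃ g ∈ Submodule.span F
      ((fun b : Fin r → ℕ => fun y : Y => mon (y : Fin r → F) b) '' {b | wd w b ≤ W * Z.card}),
      (∀ y : Y, (y : Fin r → F) = x → g y ≠ 0) ∧ ∀ y : Y, (y : Fin r → F) ∈ Z → g y = 0 := by
  classical
  induction Z using Finset.induction_on with
  | empty =>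
    refine ⟨fun y : Y => mon (y : Fin r → F) 0, Submodule.subset_span ⟨0, ?_, rfl⟩, ?_, ?_⟩
    · simp [wd]
    · intro y _
      simp [mon]
    · intro y hy
      exact absurd hy (Finset.notMem_empty _)
  | insert z Z hz ih =>
    rw [Finset.mem_insert, not_or] at hx
    obtain ⟨g, hg, h1, h2⟩ := ih hx.2
    obtain ⟨i, hi⟩ := Function.ne_iff.mp hx.1
    refine ⟨fun y : Y => ((y : Fin r → F) i - z i) * g y, ?_, ?_, ?_⟩
    · rw [Finset.card_insert_of_notMem hz]
      exact ul5_mul w Y hW g hg i (z i)
    · intro y hy
      refine mul_ne_zero ?_ (h1 y hy)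
      rw [hy]
      exact sub_ne_zero.mpr hi
    · intro y hy
      beta_reduce
      rcases Finset.mem_insert.mp hy with h | h
      · rw [h, sub_self, zero_mul]
      · rw [h2 y h, mul_zero]

theorem le_hl (W : ℕ) (hW : ∀ i, w i ≤ W) (Z : Finset (Fin r → F)) (hZ : (Z : Set _) ⊆ Y)
    (a : ℕ) : min Z.card (a + 1) ≤ hl w Y (W * a) := by
  classical
  obtain ⟨Z', hZ'Z, hZ'⟩ := Finset.exists_subset_card_eq (min_le_left Z.card (a + 1))
  have hcard : Z'.card ≤ a + 1 := hZ' ▸ min_le_right _ _
  rw [← hZ']
  have hfin := ul5_finite w hw Y (W * a)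
  have hex : ∀ z : Z', ∃ g : Submodule.span F
      ((fun b : Fin r → ℕ => fun y : Y => mon (y : Fin r → F) b) '' {b | wd w b ≤ W * a}),
      (∀ y : Y, (y : Fin r → F) = z → (g : Y → F) y ≠ 0) ∧
        ∀ y : Y, (y : Fin r → F) ∈ Z'.erase z → (g : Y → F) y = 0 := by
    intro z
    obtain ⟨g, hg, h1, h2⟩ := ul5_sep w Y hW (z : Fin r → F) (Z'.erase z)
      (Finset.notMem_erase _ _)
    refine ⟨⟨g, ?_⟩, h1, h2⟩
    refine Submodule.span_mono (Set.image_mono ?_) hg
    intro b hb
    refine le_trans hb (Nat.mul_le_mul_left _ ?_)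
    rw [Finset.card_erase_of_mem z.2]
    omega
  choose g h1 h2 using hex
  have hli : LinearIndependent F g := by
    rw [Fintype.linearIndependent_iff]
    intro c hc z
    have h3 := congrArg (fun f : Submodule.span F
      ((fun b : Fin r → ℕ => fun y : Y => mon (y : Fin r → F) b) '' {b | wd w b ≤ W * a}) =>
        (f : Y → F) ⟨z, hZ (hZ'Z z.2)⟩) hc
    simp only [Submodule.coe_sum, Submodule.coe_smul, Finset.sum_apply, Pi.smul_apply,
      smul_eq_mul, Submodule.coe_zero, Pi.zero_apply] at h3
    rw [Finset.sum_eq_single z] at h3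
    · exact (mul_eq_zero.mp h3).resolve_right (h1 z _ rfl)
    · intro z' _ hne
      rw [h2 z' _ ?_, mul_zero]
      rw [Finset.mem_erase]
      exact ⟨fun h => hne (Subtype.ext h).symm, z.2⟩
    · intro h
      exact absurd (Finset.mem_univ z) h
  have h4 := hli.fintype_card_le_finrank
  rw [Fintype.card_coe] at h4
  exact h4

end Hilb

end Pool.Agent.H52.UL
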