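import Pool.Agent.H52.UL.Tay
import Pool.Agent.H52.UL.Interp
import Pool.Agent.H48.UD.Adapt

/-!
# Project UL (MP_a3214d), row UL-4: divisibility of the determinant at one prime (helper57)
-/

set_option autoImplicit false

open NumberField Module Polynomial Pool.Agent.H52.UB Pool.Agent.H48.UD

namespace Pool.Agent.H52.UL

/-- `val_dvd` with a different precision `k i` for every coordinate -/
theorem ul4_val {R : Type*} [CommRing R] {r : ℕ} (k : Fin r → ℕ) (p : R) (x y : Fin r → R) (u : R)
    (hu : ∀ i, p ^ k i ∣ u * (y i - x i)) (g : MvPolynomial (Fin r) R) (s : ℕ)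
    (hg : ∀ e : Fin r → ℕ, ∑ i, k i * e i < s → tay x e g = 0) :
    ∃ N : ℕ, ∀ N' : ℕ, N ≤ N' → p ^ s ∣ u ^ N' * MvPolynomial.eval y g := by
  set G : MvPolynomial (Fin r) R := MvPolynomial.aeval
    (fun i => MvPolynomial.X i + MvPolynomial.C (x i) : Fin r → MvPolynomial (Fin r) R) g with hG
  refine ⟨G.totalDegree, fun N' hN' => ?_⟩
  rw [← ul1_eval x y g, ← hG, MvPolynomial.eval_eq', Finset.mul_sum]
  apply Finset.dvd_sum
  intro m hm
  have h1 : ∑ i, m i ≤ N' := by
    have h2 := MvPolynomial.le_totalDegree hm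
    have h3 : m.sum (fun _ e => e) = ∑ i, m i := Finsupp.sum_fintype _ _ (fun _ => rfl)
    rw [h3] at h2
    exact h2.trans hN'
  have h2 : s ≤ ∑ i, k i * m i := by
    by_contra hlt
    rw [not_le] at hlt
    have h3 := hg (fun i => m i) hlt
    rw [MvPolynomial.mem_support_iff] at hm
    apply hm
    have h4 : Finsupp.equivFunOnFinite.symm (fun i => m i) = m :=
      Finsupp.equivFunOnFinite.symm_apply_apply m
    unfold tay at h3
    rw [h4] at h3
    exact h3
  have h3 : u ^ N' * (MvPolynomial.coeff m G * ∏ i, (y i - x i) ^ m i) =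
      u ^ (N' - ∑ i, m i) * MvPolynomial.coeff m G * ∏ i, (u * (y i - x i)) ^ m i := by
    have h4 : ∏ i, (u * (y i - x i)) ^ m i = u ^ (∑ i, m i) * ∏ i, (y i - x i) ^ m i := by
      simp_rw [mul_pow]
      rw [Finset.prod_mul_distrib, Finset.prod_pow_eq_pow_sum]
    have h5 : u ^ N' = u ^ (N' - ∑ i, m i) * u ^ (∑ i, m i) := by
      rw [← pow_add, Nat.sub_add_cancel h1]
    rw [h4, h5]
    ring
  rw [h3]
  apply Dvd.dvd.mul_left
  have h4 : p ^ (∑ i, k i * m i) ∣ ∏ i, (u * (y i - x i)) ^ m i := by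
    rw [← Finset.prod_pow_eq_pow_sum]
    refine Finset.prod_dvd_prod_of_dvd _ _ fun i _ => ?_
    rw [pow_mul]
    exact pow_dvd_pow_of_dvd (hu i) _
  exact (pow_dvd_pow p h2).trans h4

/-- a polynomial of weighted degree at most `a` is in the span counted by `hl` -/
theorem ul4_mem {A F : Type*} [CommRing A] [Field F] (ψ : A →+* F) {r : ℕ} (w : Fin r → ℕ)
    (Y : Set (Fin r → F)) (a : ℕ) (g : MvPolynomial (Fin r) A)
    (hg : ∀ b ∈ g.support, wd w b ≤ a) :
    (fun y : Y => MvPolynomial.eval (y : Fin r → F) (MvPolynomial.map ψ g)) ∈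
      Submodule.span F ((fun (b : Fin r → ℕ) => fun y : Y => mon (y : Fin r → F) b) ''
        {b | wd w b ≤ a}) := by
  have h : (fun y : Y => MvPolynomial.eval (y : Fin r → F) (MvPolynomial.map ψ g)) =
      ∑ b ∈ g.support, ψ (MvPolynomial.coeff b g) • (fun y : Y => mon (y : Fin r → F) b) := by
    funext y
    rw [MvPolynomial.eval_map, MvPolynomial.eval₂_eq']
    simp only [Finset.sum_apply, Pi.smul_apply, smul_eq_mul, mon]
  rw [h]
  refine Submodule.sum_mem _ fun b hb => Submodule.smul_mem _ _ (Submodule.subset_span ?_)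
  exact ⟨b, hg b hb, rfl⟩

theorem ul4_fin {r : ℕ} (w : Fin r → ℕ) (hw : ∀ i, 1 ≤ w i) (a : ℕ) :
    {b : Fin r → ℕ | wd w b ≤ a}.Finite := by
  apply (Set.Finite.pi (t := fun _ : Fin r => Set.Iic a) fun _ => Set.finite_Iic a).subset
  intro b hb i _
  rw [Set.mem_Iic]
  calc b i ≤ w i * b i := Nat.le_mul_of_pos_left _ (hw i)
    _ ≤ ∑ i, w i * b i := Finset.single_le_sum (f := fun i => w i * b i)
        (fun _ _ => Nat.zero_le _) (Finset.mem_univ i)
    _ ≤ a := hb

/-- the general form: `D s` clears the denominators of the interpolation of order `s` by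
polynomials of weighted degree at most `L s` -/
theorem ul4_gen {A : Type*} [CommRing A] [IsDomain A] {F : Type*} [Field F] (ψ : A →+* F)
    (hψ : Function.Injective ψ) (P : Ideal A) [P.IsPrime] (p : A) (hp : p ≠ 0) {n r : ℕ}
    (w : Fin r → ℕ) (hw : ∀ i, 1 ≤ w i) (k : Fin r → ℕ) (x0 : Fin n → Fin r → A) (T : ℕ)
    (L : ℕ → ℕ) (hL : Monotone L) (D : ℕ → A) (hD : ∀ s ≤ T, D s ∉ P)
    (hI : ∀ s ≤ T, ∀ g : MvPolynomial (Fin r) A, ∃ g' : MvPolynomial (Fin r) A,
      (∀ b ∈ g'.support, wd w b ≤ L s) ∧ ∀ (j : Fin n) (e : Fin r → ℕ), ∑ i, k i * e i ≤ s →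
        tay (x0 j) e (MvPolynomial.C (D s) * g - g') = 0)
    {h : ℕ} (b : Fin h → Fin r → ℕ) (y : Fin h → Fin r → A)
    (hy : ∀ l, ∃ j, ∃ u : A, u ∉ P ∧ ∀ i, p ^ k i ∣ u * (y l i - x0 j i)) (Y : Set (Fin r → F))
    (hY : ∀ l, (fun i => ψ (y l i)) ∈ Y) :
    ∃ s : A, s ∉ P ∧ p ^ (∑ u ∈ Finset.range (T + 1), (h - hl w Y (L u))) ∣
      s * (Matrix.of fun i l => mon (y l) (b i)).det := by
  classical
  choose! g' hg'1 hg'2 using hI
  choose jj uu huu hy' using hy
  -- the cofactors
  set Pi : A := ∏ s ∈ Finset.range (T + 1), D s with hPi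
  have hPiP : Pi ∉ P := by
    rw [hPi]
    intro hmem
    rw [Ideal.IsPrime.prod_mem_iff] at hmem
    obtain ⟨s, hs, hs'⟩ := hmem
    exact hD s (Nat.lt_succ_iff.mp (Finset.mem_range.mp hs)) hs'
  set cof : ℕ → A := fun s => ∏ s' ∈ (Finset.range (T + 1)).erase s, D s' with hcof
  have hcofD : ∀ s ≤ T, cof s * D s = Pi := by
    intro s hs
    rw [hPi, hcof, mul_comm]
    exact Finset.mul_prod_erase _ _ (Finset.mem_range.mpr (Nat.lt_succ_iff.mpr hs))
  set G : Fin h → MvPolynomial (Fin r) A := fun i =>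
    MvPolynomial.monomial (Finsupp.equivFunOnFinite.symm (b i)) 1 with hG
  -- the approximations
  set Gt : Fin h → ℕ → MvPolynomial (Fin r) A := fun i s =>
    if s = 0 then 0 else if s ≤ T + 1 then MvPolynomial.C (cof (s - 1)) * g' (s - 1) (G i)
      else MvPolynomial.C Pi * G i with hGt
  have hGt0 : ∀ i, Gt i 0 = 0 := fun i => by simp [hGt]
  have hGtT : ∀ i, Gt i (T + 2) = MvPolynomial.C Pi * G i := fun i => by
    rw [hGt]
    simp
  have hGtm : ∀ i s, s ≤ T → Gt i (s + 1) = MvPolynomial.C (cof s) * g' s (G i) := by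
    intro i s hs
    rw [hGt]
    simp only [Nat.add_eq_zero_iff, one_ne_zero, and_false, if_false, Nat.add_sub_cancel]
    rw [if_pos (by omega)]
  -- order of vanishing of the remainders
  have hrem : ∀ i s, s ≤ T + 2 → ∀ (j : Fin n) (e : Fin r → ℕ), ∑ i, k i * e i < s →
      tay (x0 j) e (MvPolynomial.C Pi * G i - Gt i s) = 0 := by
    intro i s hs j e he
    rcases Nat.eq_zero_or_pos s with h0 | hpos
    · omega
    obtain ⟨t, rfl⟩ : ∃ t, s = t + 1 := ⟨s - 1, by omega⟩
    rcases Nat.lt_or_ge T t with hlt | hle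
    · have : t + 1 = T + 2 := by omega
      rw [this, hGtT, sub_self]
      unfold tay
      rw [map_zero, MvPolynomial.coeff_zero]
    · rw [hGtm i t hle]
      have : MvPolynomial.C Pi * G i - MvPolynomial.C (cof t) * g' t (G i) =
          MvPolynomial.C (cof t) * (MvPolynomial.C (D t) * G i - g' t (G i)) := by
        rw [mul_sub, ← mul_assoc, ← map_mul, hcofD t hle]
      rw [this, tay_mul_C, hg'2 t hle (G i) j e (by omega), mul_zero]
  set E : Fin h → ℕ → MvPolynomial (Fin r) A := fun i s => Gt i (s + 1) - Gt i s with hE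
  have hEsum : ∀ i, ∑ s ∈ Finset.range (T + 2), E i s = MvPolynomial.C Pi * G i := by
    intro i
    rw [hE]
    simp only
    rw [Finset.sum_range_sub, hGtT, hGt0, sub_zero]
  have hEtay : ∀ i s, s ≤ T + 1 → ∀ (j : Fin n) (e : Fin r → ℕ), ∑ i, k i * e i < s →
      tay (x0 j) e (E i s) = 0 := by
    intro i s hs j e he
    have h1 := hrem i s (by omega) j e he
    have h2 := hrem i (s + 1) (by omega) j e (by omega)
    have h3 : MvPolynomial.C Pi * G i - Gt i s = E i s + (MvPolynomial.C Pi * G i - Gt i (s + 1)) := by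
      rw [hE]
      ring
    rw [h3, tay_add, h2, add_zero] at h1
    exact h1
  have hEsupp : ∀ i s, s ≤ T → ∀ c : Fin r →₀ ℕ, c ∈ (E i s).support → wd w c ≤ L s := by
    intro i s hs b hb
    have hC : ∀ t ≤ T, ∀ c : Fin r →₀ ℕ,
        c ∈ (MvPolynomial.C (cof t) * g' t (G i)).support → wd w c ≤ L t := by
      intro t ht b hb
      apply hg'1 t ht (G i) b
      rw [MvPolynomial.mem_support_iff] at hb ⊢
      rw [MvPolynomial.coeff_C_mul] at hb
      exact right_ne_zero_of_mul hb
    rw [hE] at hb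
    have hb' := Finset.mem_union.mp (MvPolynomial.support_sub _ _ _ hb)
    rcases hb' with h1 | h1
    · rw [hGtm i s hs] at h1
      exact hC s hs b h1
    · rcases Nat.eq_zero_or_pos s with h0 | hpos
      · rw [h0, hGt0] at h1
        simp at h1
      · obtain ⟨t, rfl⟩ : ∃ t, s = t + 1 := ⟨s - 1, by omega⟩
        rw [hGtm i t (by omega)] at h1
        exact le_trans (hC t (by omega) b h1) (hL (Nat.le_succ t))
  -- the values
  have hval : ∀ i s l, ∃ N : ℕ, s ≤ T + 1 → ∀ N' : ℕ, N ≤ N' →
      p ^ s ∣ uu l ^ N' * MvPolynomial.eval (y l) (E i s) := by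
    intro i s l
    rcases Nat.lt_or_ge (T + 1) s with hlt | hle
    · exact ⟨0, fun h => absurd h (by omega)⟩
    · obtain ⟨N, hN⟩ := ul4_val k p (x0 (jj l)) (y l) (uu l) (hy' l) (E i s) s
        (fun e he => hEtay i s hle (jj l) e he)
      exact ⟨N, fun _ => hN⟩
  choose NN hNN using hval
  set N : ℕ := ∑ i, ∑ s ∈ Finset.range (T + 2), ∑ l, NN i s l with hN
  have hNle : ∀ i s l, s ≤ T + 1 → NN i s l ≤ N := by
    intro i s l hs
    calc NN i s l ≤ ∑ l, NN i s l :=
          Finset.single_le_sum (f := fun l => NN i s l) (fun _ _ => Nat.zero_le _)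
            (Finset.mem_univ l)
      _ ≤ ∑ s ∈ Finset.range (T + 2), ∑ l, NN i s l :=
          Finset.single_le_sum (f := fun s => ∑ l, NN i s l) (fun _ _ => Nat.zero_le _)
            (Finset.mem_range.mpr (by omega))
      _ ≤ N := Finset.single_le_sum (f := fun i => ∑ s ∈ Finset.range (T + 2), ∑ l, NN i s l)
            (fun _ _ => Nat.zero_le _) (Finset.mem_univ i)
  have hdvd : ∀ i s l, s ≤ T + 1 → ∃ ε : A, uu l ^ N * MvPolynomial.eval (y l) (E i s) =
      p ^ s * ε := fun i s l hs => hNN i s l hs N (hNle i s l hs)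
  choose! ε hε using hdvd
  have hevG : ∀ i l, MvPolynomial.eval (y l) (G i) = mon (y l) (b i) := by
    intro i l
    rw [hG]
    simp only [MvPolynomial.eval_monomial, one_mul, mon]
    rw [Finsupp.prod_fintype _ _ (fun _ => pow_zero _)]
    rfl
  have hrow : ∀ i l, Pi * (uu l ^ N * mon (y l) (b i)) =
      ∑ s ∈ Finset.range (T + 2), p ^ s * ε i s l := by
    intro i l
    have h1 := congrArg (MvPolynomial.eval (y l)) (hEsum i)
    rw [map_mul, MvPolynomial.eval_C, hevG, map_sum] at h1
    calc Pi * (uu l ^ N * mon (y l) (b i)) = uu l ^ N * (Pi * mon (y l) (b i)) := by ring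
      _ = ∑ s ∈ Finset.range (T + 2), uu l ^ N * MvPolynomial.eval (y l) (E i s) := by
          rw [← h1, Finset.mul_sum]
      _ = _ := Finset.sum_congr rfl fun s hs =>
          hε i s l (Nat.lt_succ_iff.mp (Finset.mem_range.mp hs))
  refine ⟨Pi ^ h * ∏ l, uu l ^ N, ?_, ?_⟩
  · intro hmem
    rcases (inferInstance : P.IsPrime).mem_or_mem hmem with h1 | h1
    · exact hPiP ((inferInstance : P.IsPrime).mem_of_pow_mem _ h1)
    · rw [Ideal.IsPrime.prod_mem_iff] at h1
      obtain ⟨l, _, h2⟩ := h1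
      exact huu l ((inferInstance : P.IsPrime).mem_of_pow_mem _ h2)
  -- the determinant
  have hdet : (Pi ^ h * ∏ l, uu l ^ N) * (Matrix.of fun i l => mon (y l) (b i)).det =
      (Matrix.of fun (i l : Fin h) => ∑ s ∈ Finset.range (T + 2), p ^ s * ε i s l).det := by
    have h1 : (Matrix.of fun (i l : Fin h) => ∑ s ∈ Finset.range (T + 2), p ^ s * ε i s l) =
        Matrix.of fun i l => Pi * (Matrix.of fun i l => uu l ^ N *
          (Matrix.of fun i l => mon (y l) (b i)) i l) i l := by
      ext i l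
      simp only [Matrix.of_apply]
      exact (hrow i l).symm
    rw [h1, Matrix.det_mul_column (fun _ => Pi), Matrix.det_mul_row (fun l => uu l ^ N)]
    simp only [Finset.prod_const, Finset.card_univ, Fintype.card_fin]
    ring
  rw [hdet]
  have hexp : (Matrix.of fun (i l : Fin h) => ∑ s ∈ Finset.range (T + 2), p ^ s * ε i s l).det =
      ∑ σ ∈ Fintype.piFinset (fun _ : Fin h => Finset.range (T + 2)),
        p ^ (∑ i, σ i) * (Matrix.of fun i l => ε i (σ i) l).det := by
    have h1 := MultilinearMap.map_sum_finset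
      (Matrix.detRowAlternating (n := Fin h) (R := A)).toMultilinearMap
      (fun (i : Fin h) (s : ℕ) => fun l => p ^ s * ε i s l)
      (fun _ : Fin h => Finset.range (T + 2))
    have h2 : (Matrix.of fun (i l : Fin h) => ∑ s ∈ Finset.range (T + 2), p ^ s * ε i s l) =
        fun i => ∑ s ∈ Finset.range (T + 2), fun l => p ^ s * ε i s l := by
      ext i l
      simp only [Matrix.of_apply, Finset.sum_apply]
    rw [h2]
    refine h1.trans (Finset.sum_congr rfl fun σ _ => ?_)
    have h3 := Matrix.det_mul_column (fun i => p ^ σ i) (Matrix.of fun i l => ε i (σ i) l)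
    rw [Finset.prod_pow_eq_pow_sum] at h3
    exact h3
  rw [hexp]
  refine Finset.dvd_sum fun σ hσ => ?_
  by_cases hz : (Matrix.of fun i l => ε i (σ i) l).det = 0
  · rw [hz, mul_zero]
    exact dvd_zero _
  refine Dvd.dvd.mul_right (pow_dvd_pow p ?_) _
  have hσT : ∀ i, σ i ≤ T + 1 := fun i =>
    Nat.lt_succ_iff.mp (Finset.mem_range.mp (Fintype.mem_piFinset.mp hσ i))
  -- the rows are independent functions on `Y`
  have hind : LinearIndependent F (fun i => fun z : Y =>
      MvPolynomial.eval (z : Fin r → F) (MvPolynomial.map ψ (E i (σ i)))) := by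
    apply indep_of_det Y (fun i (z : Fin r → F) =>
      MvPolynomial.eval z (MvPolynomial.map ψ (E i (σ i)))) (fun l i => ψ (y l i)) hY
    have h1 : (Matrix.of fun (i l : Fin h) =>
        MvPolynomial.eval (fun c => ψ (y l c)) (MvPolynomial.map ψ (E i (σ i)))) =
        ψ.mapMatrix (Matrix.of fun i l => MvPolynomial.eval (y l) (E i (σ i))) := by
      ext i l
      simp only [Matrix.of_apply, RingHom.mapMatrix_apply, Matrix.map_apply]
      rw [MvPolynomial.eval_map, MvPolynomial.eval₂_comp]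
      rfl
    rw [h1, ← RingHom.map_det]
    intro h0
    rw [map_eq_zero_iff ψ hψ] at h0
    apply hz
    have h2 : (∏ l, uu l ^ N) * (Matrix.of fun i l => MvPolynomial.eval (y l) (E i (σ i))).det =
        p ^ (∑ i, σ i) * (Matrix.of fun i l => ε i (σ i) l).det := by
      rw [← Finset.prod_pow_eq_pow_sum, ← Matrix.det_mul_column (fun i => p ^ σ i),
        ← Matrix.det_mul_row (fun l => uu l ^ N)]
      congr 1
      ext i l
      simp only [Matrix.of_apply]
      exact hε i (σ i) l (hσT i)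
    rw [h0, mul_zero] at h2
    rcases mul_eq_zero.mp h2.symm with h3 | h3
    · exact absurd h3 (pow_ne_zero _ hp)
    · exact h3
  have hcard : ∀ u ≤ T, (Finset.univ.filter fun i => σ i ≤ u).card ≤ hl w Y (L u) := by
    intro u hu
    have hfin := ul4_fin w hw (L u)
    have : FiniteDimensional F (Submodule.span F ((fun (b : Fin r → ℕ) => fun y : Y =>
        mon (y : Fin r → F) b) '' {b | wd w b ≤ L u})) :=
      FiniteDimensional.span_of_finite F (hfin.image _)
    have h1 : LinearIndependent F (fun i : {i // σ i ≤ u} => fun z : Y =>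
        MvPolynomial.eval (z : Fin r → F) (MvPolynomial.map ψ (E i.1 (σ i.1)))) :=
      hind.comp (fun i : {i // σ i ≤ u} => i.1) Subtype.val_injective
    have h2 : ∀ i : {i // σ i ≤ u}, (fun z : Y =>
        MvPolynomial.eval (z : Fin r → F) (MvPolynomial.map ψ (E i.1 (σ i.1)))) ∈
        Submodule.span F ((fun (b : Fin r → ℕ) => fun y : Y => mon (y : Fin r → F) b) ''
          {b | wd w b ≤ L u}) := by
      intro i
      apply ul4_mem ψ w Y (L u)
      intro c hc
      exact le_trans (hEsupp i.1 (σ i.1) (le_trans i.2 hu) c hc) (hL i.2)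
    have h3 : LinearIndependent F (fun i : {i // σ i ≤ u} => (⟨_, h2 i⟩ :
        Submodule.span F ((fun (b : Fin r → ℕ) => fun y : Y => mon (y : Fin r → F) b) ''
          {b | wd w b ≤ L u}))) := by
      apply LinearIndependent.of_comp (Submodule.subtype _)
      exact h1
    have h4 := h3.fintype_card_le_finrank
    rw [Fintype.card_subtype] at h4
    exact h4
  -- counting
  calc ∑ u ∈ Finset.range (T + 1), (h - hl w Y (L u))
      ≤ ∑ u ∈ Finset.range (T + 1), (Finset.univ.filter fun i => u < σ i).card := by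
        refine Finset.sum_le_sum fun u hu => ?_
        have h1 := hcard u (Nat.lt_succ_iff.mp (Finset.mem_range.mp hu))
        have h2 : (Finset.univ.filter fun i => σ i ≤ u).card +
            (Finset.univ.filter fun i => u < σ i).card = h := by
          have h3 := Finset.card_filter_add_card_filter_not (s := (Finset.univ : Finset (Fin h)))
            (fun i => σ i ≤ u)
          simp only [not_le, Finset.card_univ, Fintype.card_fin] at h3
          exact h3
        omega
    _ = ∑ i, (Finset.range (T + 1) |>.filter fun u => u < σ i).card := by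
        simp only [Finset.card_filter]
        rw [Finset.sum_comm]
    _ ≤ ∑ i, σ i := by
        refine Finset.sum_le_sum fun i _ => ?_
        calc (Finset.range (T + 1) |>.filter fun u => u < σ i).card
            ≤ (Finset.range (σ i)).card := by
              apply Finset.card_le_card
              intro u hu
              rw [Finset.mem_filter] at hu
              exact Finset.mem_range.mpr hu.2
          _ = σ i := Finset.card_range _

theorem loc_det {A : Type*} [CommRing A] [IsDomain A] {F : Type*} [Field F] (ψ : A →+* F)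
    (hψ : Function.Injective ψ) (P : Ideal A) [P.IsPrime] (p : A) (hp : p ≠ 0) {n r : ℕ}
    (w κ : Fin r → ℕ) (hw : ∀ i, 1 ≤ w i) (K : ℕ) (hK : ∀ i, w i * κ i ≤ K)
    (Γ : Fin n → Fin r → ℕ) (hΓ : ∀ j i, Γ j i < κ i) (x0 : Fin n → Fin r → A) (T : ℕ)
    (hD : ∀ s ≤ T, jd κ Γ s x0 ∉ P) {h : ℕ} (b : Fin h → Fin r → ℕ) (y : Fin h → Fin r → A)
    (hy : ∀ l, ∃ j, ∃ u : A, u ∉ P ∧ ∀ i, p ∣ u * (y l i - x0 j i)) (Y : Set (Fin r → F))
    (hY : ∀ l, (fun i => ψ (y l i)) ∈ Y) :
    ∃ s : A, s ∉ P ∧ p ^ (∑ u ∈ Finset.range (T + 1), (h - hl w Y (K * u + wd w κ))) ∣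
      s * (Matrix.of fun i l => mon (y l) (b i)).det := by
  apply ul4_gen ψ hψ P p hp w hw (fun _ => 1) x0 T (fun u => K * u + wd w κ)
    (fun a b hab => Nat.add_le_add_right (Nat.mul_le_mul_left K hab) _)
    (fun s => jd κ Γ s x0) hD ?_ b y ?_ Y hY
  · intro s _ g
    obtain ⟨g', h1, h2⟩ := interp w κ K hK Γ hΓ x0 s g
    refine ⟨g', h1, fun j e he => h2 j e ?_⟩
    simpa using he
  · intro l
    obtain ⟨j, u, hu, h1⟩ := hy l
    exact ⟨j, u, hu, fun i => by simpa using h1 i⟩

end Pool.Agent.H52.UL
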