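import Pool.Agent.H52.UL.Defs

/-! Project UL (MP_a3214d), row UL-6: the numerical inequality at the end -/

set_option autoImplicit false

open NumberField Module Polynomial Pool.Agent.H52.UB Pool.Agent.H48.UD

namespace Pool.Agent.H52.UL

/-- sums over blocks of `K` consecutive numbers -/
theorem ul6_block (K : ℕ) (hK : 1 ≤ K) (g : ℕ → ℕ) (m : ℕ) :
    ∑ v ∈ Finset.range (K * m), g (v / K) = K * ∑ u ∈ Finset.range m, g u := by
  induction m with
  | zero => simp
  | succ m ih =>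
    rw [Nat.mul_succ, Finset.sum_range_add, ih, Finset.sum_range_succ, Nat.mul_add]
    congr 1
    have h1 : ∀ i ∈ Finset.range K, g ((K * m + i) / K) = g m := by
      intro i hi
      have hi' := Finset.mem_range.mp hi
      have : (K * m + i) / K = m := by
        rw [Nat.mul_add_div (by omega), Nat.div_eq_of_lt hi']; rfl
      rw [this]
    rw [Finset.sum_congr rfl h1]
    simp

theorem numeric (K d0 W : ℕ) (c : ℝ) (hK : 1 ≤ K) (hc : (K : ℝ) < c) (B : ℕ → ℕ) :
    ∃ a T C : ℕ, ∀ (h : ℕ → ℕ) (N : ℕ), Monotone h → (∀ u, h u ≤ B u) →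
      (∀ u, min N (u + 1) ≤ h (W * u)) →
      c * ((∑ u ∈ Finset.range (T + 1), (h a - h (K * u + d0)) : ℕ) : ℝ) ≤
        ((∑ u ∈ Finset.range a, (h a - h u) : ℕ) : ℝ) + 1 → N ≤ C := by
  have hK0 : (0 : ℝ) < K := by exact_mod_cast hK
  obtain ⟨q, hq⟩ : ∃ q : ℝ, q = c / K - 1 := ⟨_, rfl⟩
  have hq0 : 0 < q := by
    have : 1 < c / K := by rw [lt_div_iff₀ hK0]; linarith
    rw [hq]; linarith
  obtain ⟨C1, hC1⟩ : ∃ C1 : ℝ, C1 = (d0 + 1) / q := ⟨_, rfl⟩
  have hC10 : 0 < C1 := by rw [hC1]; positivity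
  obtain ⟨f, hf⟩ : ∃ f : ℕ, 2 * C1 < f + 1 := ⟨⌊2 * C1⌋₊, Nat.lt_floor_add_one _⟩
  obtain ⟨v1, hv1⟩ : ∃ v1, v1 = d0 + f := ⟨_, rfl⟩
  obtain ⟨C, hC⟩ : ∃ C, C = 2 * B v1 := ⟨_, rfl⟩
  obtain ⟨a, ha⟩ : ∃ a, a = max (W * C) (v1 + 1) := ⟨_, rfl⟩
  have haW : W * C ≤ a := by rw [ha]; exact le_max_left _ _
  have hav : v1 + 1 ≤ a := by rw [ha]; exact le_max_right _ _
  refine ⟨a, (a - 1 - d0) / K, C, ?_⟩
  intro h N hmono hB hmin hmain
  by_cases h0 : h a = 0
  · have h1 := hmin 0
    have h2 : h (W * 0) ≤ h a := hmono (by simp)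
    have h3 : min N (0 + 1) ≤ 0 := h1.trans (h2.trans h0.le)
    have : N = 0 := by
      rcases Nat.lt_or_ge N 1 with h4 | h4
      · omega
      · rw [Nat.zero_add, min_eq_right h4] at h3; omega
    omega
  have h1a : (1 : ℝ) ≤ h a := by exact_mod_cast Nat.one_le_iff_ne_zero.mpr h0
  obtain ⟨T, hT⟩ : ∃ T, T = (a - 1 - d0) / K := ⟨_, rfl⟩
  rw [← hT] at hmain
  obtain ⟨S, hS⟩ : ∃ S, S = ∑ u ∈ Finset.range (T + 1), (h a - h (K * u + d0)) := ⟨_, rfl⟩
  obtain ⟨S', hS'⟩ : ∃ S', S' = ∑ i ∈ Finset.range (a - d0), (h a - h (d0 + i)) := ⟨_, rfl⟩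
  -- (i)
  have hi : S' ≤ K * S := by
    rw [hS, ← ul6_block K hK (fun u => h a - h (K * u + d0)), hS']
    have h2 : a - d0 ≤ K * (T + 1) := by
      have : a - 1 - d0 < K * (T + 1) := by
        rw [hT]; exact Nat.lt_mul_div_succ _ (by omega)
      omega
    calc ∑ i ∈ Finset.range (a - d0), (h a - h (d0 + i))
        ≤ ∑ i ∈ Finset.range (a - d0), (h a - h (K * (i / K) + d0)) := by
          apply Finset.sum_le_sum
          intro i _
          have h3 : h (K * (i / K) + d0) ≤ h (d0 + i) := by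
            apply hmono
            have := Nat.mul_div_le i K
            omega
          omega
      _ ≤ ∑ i ∈ Finset.range (K * (T + 1)), (h a - h (K * (i / K) + d0)) := by
          apply Finset.sum_le_sum_of_subset
          intro x hx
          rw [Finset.mem_range] at hx ⊢
          omega
  -- (ii)
  have hii : ∑ u ∈ Finset.range a, (h a - h u) ≤ d0 * h a + S' := by
    have h2 : a = d0 + (a - d0) := by omega
    have h3 : ∑ u ∈ Finset.range a, (h a - h u) =
        ∑ u ∈ Finset.range d0, (h a - h u) + S' := by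
      rw [hS', ← Finset.sum_range_add (fun u => h a - h u) d0 (a - d0), ← h2]
    rw [h3]
    apply Nat.add_le_add_right
    calc ∑ u ∈ Finset.range d0, (h a - h u) ≤ ∑ u ∈ Finset.range d0, h a :=
          Finset.sum_le_sum fun u _ => Nat.sub_le _ _
      _ = d0 * h a := by simp
  -- (iii)
  have hiR : (S' : ℝ) ≤ K * S := by exact_mod_cast hi
  have hiiR : ((∑ u ∈ Finset.range a, (h a - h u) : ℕ) : ℝ) ≤ d0 * h a + S' := by
    exact_mod_cast hii
  rw [← hS] at hmain
  have hS'0 : (0 : ℝ) ≤ S' := Nat.cast_nonneg _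
  have hiv : (S' : ℝ) ≤ C1 * h a := by
    have h2 : c / K * S' ≤ c * S := by
      have h3 : c / K * S' ≤ c / K * (K * S) := by
        apply mul_le_mul_of_nonneg_left hiR
        have : (0 : ℝ) < c := by linarith
        positivity
      have h4 : c / K * (K * S) = c * S := by field_simp
      linarith
    have h5 : q * S' ≤ (d0 + 1) * h a := by
      have : q * S' = c / K * S' - S' := by rw [hq]; ring
      have h6 : ((d0 : ℝ) + 1) * h a = d0 * h a + h a := by ring
      linarith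
    rw [hC1, div_mul_eq_mul_div, le_div_iff₀ hq0]
    linarith
  -- (v)
  have hv : (f + 1) * (h a - h v1) ≤ S' := by
    rw [hS']
    calc (f + 1) * (h a - h v1) = ∑ i ∈ Finset.range (f + 1), (h a - h v1) := by simp
      _ ≤ ∑ i ∈ Finset.range (f + 1), (h a - h (d0 + i)) := by
          apply Finset.sum_le_sum
          intro i hi
          have hi' := Finset.mem_range.mp hi
          have : h (d0 + i) ≤ h v1 := hmono (by omega)
          omega
      _ ≤ ∑ i ∈ Finset.range (a - d0), (h a - h (d0 + i)) := by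
          apply Finset.sum_le_sum_of_subset
          intro x hx
          rw [Finset.mem_range] at hx ⊢
          omega
  have hle : h v1 ≤ h a := hmono (by omega)
  have hvR : ((f : ℝ) + 1) * (h a - h v1) ≤ S' := by
    have h2 : (((f + 1) * (h a - h v1) : ℕ) : ℝ) ≤ S' := by exact_mod_cast hv
    rwa [Nat.cast_mul, Nat.cast_sub hle, Nat.cast_add, Nat.cast_one] at h2
  have hd : (0 : ℝ) ≤ (h a : ℝ) - h v1 := by
    have : (h v1 : ℝ) ≤ h a := by exact_mod_cast hle
    linarith
  have hfin : h a ≤ 2 * h v1 := by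
    have h2 : 2 * C1 * ((h a : ℝ) - h v1) ≤ (f + 1) * (h a - h v1) :=
      mul_le_mul_of_nonneg_right hf.le hd
    have h3 : C1 * (2 * ((h a : ℝ) - h v1)) ≤ C1 * h a := by linarith
    have h4 : 2 * ((h a : ℝ) - h v1) ≤ h a := le_of_mul_le_mul_left h3 hC10
    have h5 : (h a : ℝ) ≤ 2 * h v1 := by linarith
    exact_mod_cast h5
  have hC' : h a ≤ C := by
    have := hB v1
    omega
  have h6 := hmin C
  have h7 : h (W * C) ≤ h a := hmono haW
  have h8 : min N (C + 1) ≤ C := h6.trans (h7.trans hC')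
  rcases Nat.lt_or_ge C N with h9 | h9
  · rw [min_eq_right (by omega)] at h8; omega
  · exact h9

end Pool.Agent.H52.UL
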