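import Pool.Agent.H52.UL.Defs
import Pool.Agent.H52.UL.LocDet
import Pool.Agent.H52.UL.Hilb
import Pool.Agent.H52.UL.Numeric
import Pool.Agent.H48.UD.Adapt
import Pool.Agent.H48.UD.Glob

/-! UL-7 : a class has bounded size -/

set_option autoImplicit false

open NumberField Module Polynomial Pool.Agent.H52.UB Pool.Agent.H48.UD

namespace Pool.Agent.H52.UL

/-- the determinant of a matrix with bounded rows -/
theorem ul7_det {M : ℕ} (A : Matrix (Fin M) (Fin M) ℂ) (D : Fin M → ℕ) (H : ℝ) (hH : 0 ≤ H)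
    (hA : ∀ i l, ‖A i l‖ ≤ H ^ D i) : ‖A.det‖ ≤ (M.factorial : ℝ) * H ^ ∑ i, D i := by
  classical
  rw [Matrix.det_apply]
  refine (norm_sum_le _ _).trans ?_
  have h : ∀ σ ∈ (Finset.univ : Finset (Equiv.Perm (Fin M))),
      ‖Equiv.Perm.sign σ • ∏ i, A (σ i) i‖ ≤ H ^ ∑ i, D i := by
    intro σ _
    have h1 : ‖Equiv.Perm.sign σ • ∏ i, A (σ i) i‖ = ∏ i, ‖A (σ i) i‖ := by
      rw [← norm_prod]
      rcases Int.units_eq_one_or (Equiv.Perm.sign σ) with h | h
      · rw [h, one_smul]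
      · rw [h, Units.neg_smul, one_smul, norm_neg]
    rw [h1]
    calc ∏ i, ‖A (σ i) i‖ ≤ ∏ i, H ^ D (σ i) :=
          Finset.prod_le_prod (fun i _ => norm_nonneg _) fun i _ => hA _ _
      _ = ∏ i, H ^ D i := Equiv.prod_comp σ fun i => H ^ D i
      _ = H ^ ∑ i, D i := Finset.prod_pow_eq_pow_sum _ _ _
  refine (Finset.sum_le_sum h).trans ?_
  rw [Finset.sum_const, Finset.card_univ, Fintype.card_perm, Fintype.card_fin, nsmul_eq_mul]

theorem ul7_map_mon {A B : Type*} [CommRing A] [CommRing B] (f : A →+* B) {r : ℕ}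
    (x : Fin r → A) (b : Fin r → ℕ) : f (mon x b) = mon (fun i => f (x i)) b := by
  unfold mon
  rw [map_prod]
  exact Finset.prod_congr rfl fun i _ => map_pow _ _ _

theorem box (k : Type) [Field k] [NumberField k] {n r : ℕ} (w κ : Fin r → ℕ) (K : ℕ)
    (hK1 : 1 ≤ K) (hw : ∀ i, 1 ≤ w i) (hK : ∀ i, w i * κ i ≤ K) (Γ : Fin n → Fin r → ℕ)
    (hΓ : ∀ j i, Γ j i < κ i) (c : ℝ) (hc : (K : ℝ) < c) :
    ∃ (S C : ℕ) (H0 : ℝ), 1 ≤ H0 ∧ ∀ H : ℝ, H0 ≤ H → ∀ p : ℕ, p.Prime → H ^ c ≤ p →
      ∀ (Z : Set (Fin r → Zb k)) (x0 : Fin n → Fin r → Zb k),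
      (∀ s ≤ S, Cop k p (jd κ Γ s x0)) →
      (∀ y ∈ Z, ∀ (φ : AlgebraicClosure k →+* ℂ) (i : Fin r),
        ‖φ (y i : AlgebraicClosure k)‖ ≤ H ^ w i) →
      (∀ y ∈ Z, ∀ P : Ideal (Zb k), P.IsMaximal → (p : Zb k) ∈ P →
        ∃ (j : Fin n) (u : Zb k), u ∉ P ∧ ∀ i, (p : Zb k) ∣ u * (y i - x0 j i)) →
      Z.Finite ∧ Z.ncard ≤ C := by
  classical
  obtain ⟨W, hW⟩ : ∃ W : ℕ, ∀ i, w i ≤ W :=
    ⟨Finset.univ.sup w, fun i => Finset.le_sup (Finset.mem_univ i)⟩
  obtain ⟨a, T, C, hnum⟩ := numeric K (wd w κ) W c hK1 hc (fun u => (u + 1) ^ r)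
  refine ⟨T, C, max 2 (((a + 1) ^ r).factorial : ℝ), le_trans (by norm_num) (le_max_left _ _),
    fun H hH p hp hHp Z x0 hcop hsz hcl => ?_⟩
  have hH2 : (2 : ℝ) ≤ H := (le_max_left _ _).trans hH
  have hHf : (((a + 1) ^ r).factorial : ℝ) ≤ H := (le_max_right _ _).trans hH
  have hH0 : (0 : ℝ) < H := by linarith
  have hH1 : (1 : ℝ) < H := by linarith
  set ψ : Zb k →+* AlgebraicClosure k := algebraMap (Zb k) (AlgebraicClosure k) with hψ
  have hinj : Function.Injective ψ := Subtype.val_injective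
  have hinj' : Function.Injective (fun (z : Fin r → Zb k) (i : Fin r) => ψ (z i)) := by
    intro z z' h
    funext i
    exact hinj (congrFun h i)
  have hp0 : (p : Zb k) ≠ 0 := by
    intro h
    have h1 : ((p : ℕ) : AlgebraicClosure k) = 0 := by
      have := congrArg ψ h
      rwa [map_natCast, map_zero] at this
    exact hp.ne_zero (by exact_mod_cast h1)
  -- every finite subset has at most `C` elements
  have key : ∀ Z' : Finset (Fin r → Zb k), (Z' : Set (Fin r → Zb k)) ⊆ Z → Z'.card ≤ C := by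
    intro Z' hZ'
    let Yf : Finset (Fin r → AlgebraicClosure k) := Z'.image fun z i => ψ (z i)
    let Y : Set (Fin r → AlgebraicClosure k) := (Yf : Set _)
    have hYcard : Yf.card = Z'.card := Finset.card_image_of_injective _ hinj'
    set M := hl w Y a with hM
    obtain ⟨b, hbli, hbsum⟩ := exists_adapted Y
      (fun (b : Fin r → ℕ) (y : Fin r → AlgebraicClosure k) => mon y b) (wd w)
      (fun a => hl_fin w hw a) M a le_rfl
    obtain ⟨y, hyY, hydet⟩ := exists_det_ne Y (fun (i : Fin M) (y : Fin r → AlgebraicClosure k) =>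
      mon y (b i)) hbli
    have hz : ∀ l, ∃ z ∈ Z', (fun i => ψ (z i)) = y l := by
      intro l
      have := hyY l
      exact Finset.mem_image.mp (Finset.mem_coe.mp this)
    choose z hzZ hzy using hz
    set Dt : Zb k := (Matrix.of fun i l => mon (z l) (b i)).det with hDt
    have hDt0 : Dt ≠ 0 := by
      intro h0
      apply hydet
      have h1 : (Matrix.of fun (i : Fin M) (l : Fin M) => mon (y l) (b i)) =
          ψ.mapMatrix (Matrix.of fun i l => mon (z l) (b i)) := by
        ext i l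
        rw [RingHom.mapMatrix_apply, Matrix.map_apply, Matrix.of_apply, Matrix.of_apply,
          ul7_map_mon, hzy l]
      rw [h1, ← RingHom.map_det, ← hDt, h0, map_zero]
    set Φ := ∑ u ∈ Finset.range (T + 1), (M - hl w Y (K * u + wd w κ)) with hΦ
    have hdvd : (p : Zb k) ^ Φ ∣ Dt := by
      refine glob _ _ _ fun P hP hpP => ?_
      have : P.IsPrime := hP.isPrime
      exact loc_det ψ hinj P (p : Zb k) hp0 w κ hw K hK Γ hΓ x0 T
        (fun s hs => hcop s hs P hP hpP) b z
        (fun l => hcl (z l) (hZ' (hzZ l)) P hP hpP) Y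
        (fun l => by rw [hzy l]; exact hyY l)
    obtain ⟨q, hq⟩ := hdvd
    have hq0 : q ≠ 0 := by
      rintro rfl
      rw [mul_zero] at hq
      exact hDt0 hq
    obtain ⟨φ, hφ⟩ := conj_ge k q hq0
    -- the archimedean estimate
    have hup : ‖φ (Dt : AlgebraicClosure k)‖ ≤ (M.factorial : ℝ) * H ^ ∑ i, wd w (b i) := by
      have h1 : φ (Dt : AlgebraicClosure k) =
          (Matrix.of fun (i : Fin M) (l : Fin M) =>
            mon (fun i' => φ (z l i' : AlgebraicClosure k)) (b i)).det := by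
        have h2 : φ (Dt : AlgebraicClosure k) = (φ.comp ψ) Dt := rfl
        rw [h2, hDt, RingHom.map_det]
        congr 1
        ext i l
        rw [RingHom.mapMatrix_apply, Matrix.map_apply, Matrix.of_apply, Matrix.of_apply,
          ul7_map_mon]
        rfl
      rw [h1]
      refine ul7_det _ (fun i => wd w (b i)) H hH0.le fun i l => ?_
      rw [Matrix.of_apply]
      unfold mon wd
      rw [norm_prod]
      calc ∏ i', ‖φ (z l i' : AlgebraicClosure k) ^ b i i'‖
          ≤ ∏ i', (H ^ w i') ^ b i i' := by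
            refine Finset.prod_le_prod (fun _ _ => norm_nonneg _) fun i' _ => ?_
            rw [norm_pow]
            exact pow_le_pow_left₀ (norm_nonneg _) (hsz (z l) (hZ' (hzZ l)) φ i') _
        _ = H ^ ∑ i', w i' * b i i' := by
            rw [← Finset.prod_pow_eq_pow_sum]
            exact Finset.prod_congr rfl fun i' _ => (pow_mul _ _ _).symm
    have hlow : (p : ℝ) ^ Φ ≤ ‖φ (Dt : AlgebraicClosure k)‖ := by
      have h1 : φ (Dt : AlgebraicClosure k) = (p : ℂ) ^ Φ * φ (q : AlgebraicClosure k) := by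
        have h2 : (Dt : AlgebraicClosure k) = ((p : ℕ) : AlgebraicClosure k) ^ Φ *
            (q : AlgebraicClosure k) := by
          have h3 := congrArg ψ hq
          rw [map_mul, map_pow, map_natCast] at h3
          exact h3
        rw [h2, map_mul, map_pow, map_natCast]
      rw [h1, norm_mul, norm_pow, Complex.norm_natCast]
      exact le_mul_of_one_le_right (by positivity) hφ
    set Sg := ∑ u ∈ Finset.range a, (M - hl w Y u) with hSg
    have hMf : (M.factorial : ℝ) ≤ H := by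
      refine le_trans ?_ hHf
      have h1 : M ≤ (a + 1) ^ r := hl_le w hw Y a
      exact_mod_cast Nat.factorial_le h1
    have hineq : c * (Φ : ℝ) ≤ (Sg : ℝ) + 1 := by
      have h1 : H ^ (c * (Φ : ℝ)) ≤ H ^ ((Sg : ℝ) + 1) := by
        calc H ^ (c * (Φ : ℝ)) = (H ^ c) ^ Φ := by
              rw [Real.rpow_mul hH0.le, Real.rpow_natCast]
          _ ≤ (p : ℝ) ^ Φ := pow_le_pow_left₀ (Real.rpow_nonneg hH0.le _) hHp _
          _ ≤ (M.factorial : ℝ) * H ^ ∑ i, wd w (b i) := hlow.trans hup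
          _ ≤ H * H ^ Sg := by
              refine mul_le_mul hMf ?_ (by positivity) hH0.le
              exact pow_le_pow_right₀ hH1.le hbsum
          _ = H ^ ((Sg : ℝ) + 1) := by
              rw [Real.rpow_add hH0, Real.rpow_natCast, Real.rpow_one, mul_comm]
      exact (Real.rpow_le_rpow_left_iff hH1).mp h1
    have hfin := hnum (hl w Y) Yf.card (hl_mono w hw Y) (fun u => hl_le w hw Y u)
      (fun u => le_hl w hw Y W hW Yf subset_rfl u) hineq
    rw [hYcard] at hfin
    exact hfin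
  have hfin : Z.Finite := by
    by_contra hinf
    obtain ⟨Z', hZ', hcard⟩ := Set.Infinite.exists_subset_card_eq hinf (C + 1)
    have := key Z' hZ'
    omega
  refine ⟨hfin, ?_⟩
  rw [Set.ncard_eq_toFinset_card _ hfin]
  exact key _ (by rw [Set.Finite.coe_toFinset])

end Pool.Agent.H52.UL
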