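import Pool.Agent.H52.UL.Tay
import Pool.Agent.H48.UD.Pt

/-!
# Project UL (MP_a3214d), row UL-8: integer polynomials in the conjugates
-/

set_option autoImplicit false

open NumberField Module Polynomial Pool.Agent.H52.UB Pool.Agent.H48.UD

namespace Pool.Agent.H52.UL

theorem ul8_ring {A B τ : Type*} [CommRing A] [CommRing B] (f : A →+* B) (G : MvPolynomial τ ℤ)
    (x : τ → A) : f (MvPolynomial.aeval x G) = MvPolynomial.aeval (fun i => f (x i)) G := by
  rw [MvPolynomial.map_aeval, MvPolynomial.aeval_def, MvPolynomial.coe_eval₂Hom]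
  congr 1
  exact RingHom.ext_int _ _

theorem ul8_deg_map {A B τ : Type*} [CommSemiring A] [CommSemiring B] (f : A →+* B)
    (G : MvPolynomial τ A) : (MvPolynomial.map f G).totalDegree ≤ G.totalDegree := by
  classical
  unfold MvPolynomial.totalDegree
  exact Finset.sup_mono (MvPolynomial.support_map_subset f G)

/-- `L i` affine linear -/
theorem lp_poly {F V ι : Type*} [Field F] [AddCommGroup V] [Module F V] (G : MvPolynomial ι ℤ)
    (L : ι → V → F) (hL : ∀ (i : ι) (x y : V), ∃ b : F, ∀ t : F, L i (x + t • y) = L i x + t * b) :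
    LP G.totalDegree (fun v => MvPolynomial.aeval (fun i => L i v) G) := by
  intro x y
  choose b hb using fun i => hL i x y
  refine ⟨MvPolynomial.aeval (fun i => (C (L i x) + C (b i) * X : F[X])) G, ?_, ?_⟩
  · have h1 : (MvPolynomial.aeval (fun i => (C (L i x) + C (b i) * X : F[X])) G : F[X]) =
        MvPolynomial.aeval (fun i => (C (L i x) + C (b i) * X : F[X]))
          (MvPolynomial.map (algebraMap ℤ F) G) :=
      (MvPolynomial.aeval_map_algebraMap F _ G).symm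
    rw [h1]
    have h2 : (MvPolynomial.map (algebraMap ℤ F) G).totalDegree ≤ G.totalDegree :=
      ul8_deg_map (algebraMap ℤ F) G
    have h3 := MvPolynomial.aeval_natDegree_le (MvPolynomial.map (algebraMap ℤ F) G) h2
      (fun i => (C (L i x) + C (b i) * X : F[X])) (n := 1) (fun i => by
        rw [add_comm]
        exact Polynomial.natDegree_linear_le)
    rwa [mul_one] at h3
  · intro t
    have h1 := ul8_ring (Polynomial.evalRingHom t) G (fun i => (C (L i x) + C (b i) * X : F[X]))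
    rw [Polynomial.coe_evalRingHom] at h1
    have h2 : (fun i => L i (x + t • y)) =
        fun i => Polynomial.eval t (C (L i x) + C (b i) * X : F[X]) := by
      funext i
      rw [hb i t, Polynomial.eval_add, Polynomial.eval_mul, Polynomial.eval_C, Polynomial.eval_C,
        Polynomial.eval_X, mul_comm t]
    change MvPolynomial.aeval (fun i => L i (x + t • y)) G = _
    rw [h2]
    exact h1.symm

theorem ul8_norm {τ : Type*} (G : MvPolynomial τ ℤ) (y : τ → ℂ) (B : ℝ) (hB : 1 ≤ B)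
    (hy : ∀ i, ‖y i‖ ≤ B) :
    ‖MvPolynomial.aeval y G‖ ≤ (∑ m ∈ G.support, |((MvPolynomial.coeff m G : ℤ) : ℝ)|) *
      B ^ G.totalDegree := by
  rw [MvPolynomial.aeval_def, MvPolynomial.eval₂_eq, Finset.sum_mul]
  refine (norm_sum_le _ _).trans (Finset.sum_le_sum fun m hm => ?_)
  rw [norm_mul, norm_prod]
  have h1 : ‖algebraMap ℤ ℂ (MvPolynomial.coeff m G)‖ = |((MvPolynomial.coeff m G : ℤ) : ℝ)| := by
    rw [eq_intCast, Complex.norm_intCast]
  rw [h1]
  refine mul_le_mul_of_nonneg_left ?_ (abs_nonneg _)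
  calc ∏ i ∈ m.support, ‖y i ^ m i‖ ≤ ∏ i ∈ m.support, B ^ m i := by
        refine Finset.prod_le_prod (fun i _ => norm_nonneg _) fun i _ => ?_
        rw [norm_pow]
        exact pow_le_pow_left₀ (norm_nonneg _) (hy i) _
    _ = B ^ (∑ i ∈ m.support, m i) := Finset.prod_pow_eq_pow_sum _ _ _
    _ ≤ B ^ G.totalDegree := pow_le_pow_right₀ hB (MvPolynomial.le_totalDegree hm)

/-- the generic point -/
noncomputable def ul8_gen (n r : ℕ) (j : Fin n) (i : Fin r) : MvPolynomial (Fin n × Fin r) ℤ :=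
  MvPolynomial.X (j, i)

/-- the generic bad number -/
noncomputable def ul8_bad {n q : ℕ} (κ : Fin (q + 1) → ℕ) (Γ : Fin n → Fin (q + 1) → ℕ) (S : ℕ) :
    MvPolynomial (Fin n × Fin (q + 1)) ℤ :=
  dsc (ul8_gen n (q + 1)) * ∏ s ∈ Finset.range (S + 1), jd κ Γ s (ul8_gen n (q + 1)) ^ 2

theorem ul8_bad_aeval {A : Type*} [CommRing A] {n q : ℕ} (κ : Fin (q + 1) → ℕ)
    (Γ : Fin n → Fin (q + 1) → ℕ) (S : ℕ) (x : Fin n → Fin (q + 1) → A) :
    MvPolynomial.aeval (fun ρ : Fin n × Fin (q + 1) => x ρ.1 ρ.2) (ul8_bad κ Γ S) =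
      dsc x * ∏ s ∈ Finset.range (S + 1), jd κ Γ s x ^ 2 := by
  set f : MvPolynomial (Fin n × Fin (q + 1)) ℤ →+* A :=
    (MvPolynomial.aeval (R := ℤ) (fun ρ : Fin n × Fin (q + 1) => x ρ.1 ρ.2)).toRingHom with hf
  have h0 : (fun (j : Fin n) (i : Fin (q + 1)) => f (ul8_gen n (q + 1) j i)) = x := by
    funext j i
    simp [hf, ul8_gen]
  have h1 : f (dsc (ul8_gen n (q + 1))) = dsc x := by
    rw [ud5_map_dsc, h0]
  have h2 : ∀ s, f (jd κ Γ s (ul8_gen n (q + 1))) = jd κ Γ s x := by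
    intro s
    rw [map_jd, h0]
  change f (ul8_bad κ Γ S) = _
  unfold ul8_bad
  rw [map_mul, h1, map_prod]
  congr 1
  refine Finset.prod_congr rfl fun s _ => ?_
  rw [map_pow, h2]

theorem ul8_map {A B : Type*} [CommRing A] [CommRing B] (f : A →+* B) {n q : ℕ}
    (κ : Fin (q + 1) → ℕ) (Γ : Fin n → Fin (q + 1) → ℕ) (S : ℕ) (x : Fin n → Fin (q + 1) → A) :
    f (dsc x * ∏ s ∈ Finset.range (S + 1), jd κ Γ s x ^ 2) =
      dsc (fun j i => f (x j i)) *
        ∏ s ∈ Finset.range (S + 1), jd κ Γ s (fun j i => f (x j i)) ^ 2 := by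
  rw [map_mul, ud5_map_dsc, map_prod]
  congr 1
  refine Finset.prod_congr rfl fun s _ => ?_
  rw [map_pow, map_jd]

theorem ul8_perm {A : Type*} [CommRing A] {n q : ℕ} (κ : Fin (q + 1) → ℕ)
    (Γ : Fin n → Fin (q + 1) → ℕ) (S : ℕ) (x : Fin n → Fin (q + 1) → A)
    (π : Equiv.Perm (Fin n)) :
    dsc (fun j => x (π j)) * ∏ s ∈ Finset.range (S + 1), jd κ Γ s (fun j => x (π j)) ^ 2 =
      dsc x * ∏ s ∈ Finset.range (S + 1), jd κ Γ s x ^ 2 := by
  rw [ud5_dsc_perm]
  congr 1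
  refine Finset.prod_congr rfl fun s _ => ?_
  rcases jd_perm κ Γ s x π with h | h
  · rw [h]
  · rw [h, neg_sq]

/-- the bad number of a point -/
theorem bad_spec2 (k : Type) [Field k] [NumberField k] {n q : ℕ} (κ : Fin (q + 1) → ℕ)
    (Γ : Fin n → Fin (q + 1) → ℕ) (S W : ℕ) : ∃ w' : ℝ, ∀ H : ℝ, 2 ≤ H →
    ∀ x : Fin n → Fin (q + 1) → Zb k, IsPt k x → Sz k (H ^ W) x →
      (∀ s ≤ S, jd κ Γ s x ≠ 0) →
      dsc x * ∏ s ∈ Finset.range (S + 1), jd κ Γ s x ^ 2 ≠ 0 ∧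
      (minpoly ℤ (dsc x * ∏ s ∈ Finset.range (S + 1), jd κ Γ s x ^ 2)).natDegree ≤ finrank ℚ k ∧
      ∀ φ : AlgebraicClosure k →+* ℂ,
        ‖φ ((dsc x * ∏ s ∈ Finset.range (S + 1), jd κ Γ s x ^ 2 : Zb k) :
          AlgebraicClosure k)‖ ≤ H ^ w' := by
  set c0 : ℝ := ∑ m ∈ (ul8_bad κ Γ S).support, |((MvPolynomial.coeff m (ul8_bad κ Γ S) : ℤ) : ℝ)|
    with hc0
  set D : ℕ := (ul8_bad κ Γ S).totalDegree with hD
  obtain ⟨N, hN⟩ : ∃ N : ℕ, c0 ≤ 2 ^ N := by
    obtain ⟨N, hN⟩ := pow_unbounded_of_one_lt c0 (by norm_num : (1 : ℝ) < 2)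
    exact ⟨N, hN.le⟩
  refine ⟨((N + W * D : ℕ) : ℝ), ?_⟩
  intro H hH x hx hsz hjd
  have hH0 : (0 : ℝ) ≤ H := by linarith
  have hH1 : (1 : ℝ) ≤ H := by linarith
  refine ⟨?_, ?_, ?_⟩
  · refine mul_ne_zero ?_ (Finset.prod_ne_zero_iff.2 fun s hs => pow_ne_zero _ (hjd s ?_))
    · unfold dsc
      refine Finset.prod_ne_zero_iff.2 fun j _ => Finset.prod_ne_zero_iff.2 fun l hl => ?_
      rw [sub_ne_zero]
      intro h
      exact (Finset.ne_of_mem_erase hl) (hx.sep h.symm)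
    · exact Nat.lt_succ_iff.1 (Finset.mem_range.1 hs)
  · have h1 : ∃ c : 𝓞 k, algebraMap k (AlgebraicClosure k) (c : k) =
        ((dsc x * ∏ s ∈ Finset.range (S + 1), jd κ Γ s x ^ 2 : Zb k) : AlgebraicClosure k) := by
      refine fixed_int k _ fun σ => ?_
      obtain ⟨π, hπ⟩ := ud5_sym k hx σ
      set F := (σ : AlgebraicClosure k →+* AlgebraicClosure k).comp (algebraMap (Zb k)
        (AlgebraicClosure k)) with hF
      have h2 : F (dsc x * ∏ s ∈ Finset.range (S + 1), jd κ Γ s x ^ 2) =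
          algebraMap (Zb k) (AlgebraicClosure k)
            (dsc x * ∏ s ∈ Finset.range (S + 1), jd κ Γ s x ^ 2) := by
        rw [ul8_map F, hπ, ul8_map (algebraMap (Zb k) (AlgebraicClosure k))]
        exact ul8_perm κ Γ S (fun (j : Fin n) (i : Fin (q + 1)) =>
          algebraMap (Zb k) (AlgebraicClosure k) (x j i)) π
      exact h2
    obtain ⟨c, hc⟩ := h1
    exact ud5_natDegree k hc
  · intro φ
    set F := φ.comp (algebraMap (Zb k) (AlgebraicClosure k)) with hF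
    have h1 : φ ((dsc x * ∏ s ∈ Finset.range (S + 1), jd κ Γ s x ^ 2 : Zb k) :
        AlgebraicClosure k) =
        MvPolynomial.aeval (fun ρ : Fin n × Fin (q + 1) => F (x ρ.1 ρ.2)) (ul8_bad κ Γ S) := by
      rw [ul8_bad_aeval κ Γ S (fun j i => F (x j i)), ← ul8_map F]
      rfl
    have h2 := ul8_norm (ul8_bad κ Γ S) (fun ρ : Fin n × Fin (q + 1) => F (x ρ.1 ρ.2)) (H ^ W)
      (one_le_pow₀ hH1) (fun ρ => hsz φ ρ.1 ρ.2)
    rw [h1, Real.rpow_natCast, pow_add, pow_mul]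
    refine h2.trans (mul_le_mul ?_ le_rfl (by positivity) (by positivity))
    exact hN.trans (pow_le_pow_left₀ (by norm_num) hH N)

end Pool.Agent.H52.UL
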