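import Pool.Agent.H52.UL.Defs
import Pool.Agent.H52.UB.SameField

/-!
# UL-10: one conjugate determines the field
-/

set_option autoImplicit false

open NumberField Module Polynomial Pool.Agent.H52.UB Pool.Agent.H48.UD

namespace Pool.Agent.H52.UL

theorem same_field1 {k : Type} [Field k] [NumberField k] {n : ℕ}
    {M M' : IntermediateField k (AlgebraicClosure k)} (hd : finrank k M = n)
    (hd' : finrank k M' = n) (e : (M →ₐ[k] AlgebraicClosure k) ≃ Fin n)
    (e' : (M' →ₐ[k] AlgebraicClosure k) ≃ Fin n) (x : M) (x' : M')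
    (hx : Function.Injective fun j => e.symm j x) (hx' : Function.Injective fun j => e'.symm j x')
    (j j' : Fin n) (h : e.symm j x = e'.symm j' x') : Nonempty (M ≃ₐ[k] M') := by
  have hn : 1 ≤ n := Nat.one_le_of_lt j.isLt
  have hinj : Function.Injective
      (fun (j : Fin n) (_ : Fin (0 + 1)) => e.symm j x) := fun a b hab =>
    hx (congrFun hab 0)
  have hinj' : Function.Injective
      (fun (j : Fin n) (_ : Fin (0 + 1)) => e'.symm j x') := fun a b hab =>
    hx' (congrFun hab 0)
  have h1 := ub20_range hn hd e (fun _ : Fin (0 + 1) => x) hinj (e.symm j)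
  have h2 := ub20_range hn hd' e' (fun _ : Fin (0 + 1) => x') hinj' (e'.symm j')
  rw [h, ← h2] at h1
  exact ⟨((AlgEquiv.ofInjectiveField (e.symm j)).trans
    (IntermediateField.equivOfEq h1)).trans
      (AlgEquiv.ofInjectiveField (e'.symm j')).symm⟩

end Pool.Agent.H52.UL
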