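import Pool.Agent.H52.UL.Defs

/-!
# Project UL (MP_a3214d), row UL-1: Taylor coefficients (helper84)
-/

set_option autoImplicit false

open NumberField Module Polynomial Pool.Agent.H52.UB Pool.Agent.H48.UD

namespace Pool.Agent.H52.UL

section Tay

variable {R : Type*} [CommRing R] {r : ℕ}

theorem tay_add (x : Fin r → R) (e : Fin r → ℕ) (g g' : MvPolynomial (Fin r) R) :
    tay x e (g + g') = tay x e g + tay x e g' := by
  unfold tay
  rw [map_add, MvPolynomial.coeff_add]

theorem tay_mul_C (x : Fin r → R) (e : Fin r → ℕ) (c : R) (g : MvPolynomial (Fin r) R) :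
    tay x e (MvPolynomial.C c * g) = c * tay x e g := by
  unfold tay
  rw [map_mul, MvPolynomial.aeval_C, MvPolynomial.algebraMap_eq, MvPolynomial.coeff_C_mul]

theorem ul1_map_aeval {A B : Type*} [CommRing A] [CommRing B] (f : A →+* B) (x : Fin r → A)
    (g : MvPolynomial (Fin r) A) :
    MvPolynomial.map f (MvPolynomial.aeval
      (fun i => MvPolynomial.X i + MvPolynomial.C (x i) : Fin r → MvPolynomial (Fin r) A) g) =
    MvPolynomial.aeval
      (fun i => MvPolynomial.X i + MvPolynomial.C (f (x i)) : Fin r → MvPolynomial (Fin r) B)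
      (MvPolynomial.map f g) := by
  induction g using MvPolynomial.induction_on with
  | C a =>
    rw [MvPolynomial.aeval_C, MvPolynomial.algebraMap_eq, MvPolynomial.map_C,
      MvPolynomial.aeval_C, MvPolynomial.algebraMap_eq]
  | add p q hp hq => rw [map_add, map_add, map_add, map_add, hp, hq]
  | mul_X p i hp =>
    rw [map_mul, map_mul, map_mul, map_mul, hp, MvPolynomial.aeval_X, map_add, MvPolynomial.map_X,
      MvPolynomial.map_C, MvPolynomial.aeval_X]

theorem map_tay {A B : Type*} [CommRing A] [CommRing B] (f : A →+* B) (x : Fin r → A)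
    (e : Fin r → ℕ) (g : MvPolynomial (Fin r) A) :
    f (tay x e g) = tay (fun i => f (x i)) e (MvPolynomial.map f g) := by
  unfold tay
  rw [← ul1_map_aeval, MvPolynomial.coeff_map]

theorem map_jd {A B : Type*} [CommRing A] [CommRing B] (f : A →+* B) {n : ℕ} (κ : Fin r → ℕ)
    (Γ : Fin n → Fin r → ℕ) (s : ℕ) (x : Fin n → Fin r → A) :
    f (jd κ Γ s x) = jd κ Γ s (fun j i => f (x j i)) := by
  unfold jd
  rw [RingHom.map_det]
  congr 1
  ext ρ ρ'
  rw [RingHom.mapMatrix_apply, Matrix.map_apply]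
  unfold jetMat
  rw [map_tay, MvPolynomial.map_map]
  have h : f.comp (Int.castRingHom A) = Int.castRingHom B := RingHom.ext_int _ _
  rw [h]

/-- a permutation of the points changes at most the sign -/
theorem jd_perm {n : ℕ} (κ : Fin r → ℕ) (Γ : Fin n → Fin r → ℕ) (s : ℕ) (x : Fin n → Fin r → R)
    (π : Equiv.Perm (Fin n)) :
    jd κ Γ s (fun j => x (π j)) = jd κ Γ s x ∨ jd κ Γ s (fun j => x (π j)) = -jd κ Γ s x := by
  have h1 : jetMat κ Γ s (fun j => x (π j)) =
      (jetMat κ Γ s x).submatrix (Equiv.prodCongr π (Equiv.refl (Ex r s))) id := rfl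
  have h2 : jd κ Γ s (fun j => x (π j)) =
      Equiv.Perm.sign (Equiv.prodCongr π (Equiv.refl (Ex r s))) * jd κ Γ s x := by
    unfold jd
    rw [h1, Matrix.det_permute]
  rw [h2]
  rcases Int.units_eq_one_or (Equiv.Perm.sign (Equiv.prodCongr π (Equiv.refl (Ex r s)))) with h | h
  · left
    rw [h]
    simp only [Units.val_one, Int.cast_one, one_mul]
  · right
    rw [h]
    simp only [Units.val_neg, Units.val_one, Int.cast_neg, Int.cast_one, neg_mul, one_mul]

theorem ul1_eval (x y : Fin r → R) (g : MvPolynomial (Fin r) R) :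
    MvPolynomial.eval (fun i => y i - x i) (MvPolynomial.aeval
      (fun i => MvPolynomial.X i + MvPolynomial.C (x i) : Fin r → MvPolynomial (Fin r) R) g) =
    MvPolynomial.eval y g := by
  induction g using MvPolynomial.induction_on with
  | C a =>
    rw [MvPolynomial.aeval_C, MvPolynomial.algebraMap_eq, MvPolynomial.eval_C,
      MvPolynomial.eval_C]
  | add p q hp hq => rw [map_add, map_add, map_add, hp, hq]
  | mul_X p i hp =>
    rw [map_mul, map_mul, map_mul, hp, MvPolynomial.aeval_X, map_add, MvPolynomial.eval_X,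
      MvPolynomial.eval_C, MvPolynomial.eval_X, sub_add_cancel]

/-- a polynomial which vanishes at `x` to order `s` takes values divisible by `p ^ s` at the
points congruent to `x` -/
theorem val_dvd (p : R) (x y : Fin r → R) (u : R) (hu : ∀ i, p ∣ u * (y i - x i))
    (g : MvPolynomial (Fin r) R) (s : ℕ)
    (hg : ∀ e : Fin r → ℕ, ∑ i, e i < s → tay x e g = 0) :
    ∃ N : ℕ, ∀ N' : ℕ, N ≤ N' → p ^ s ∣ u ^ N' * MvPolynomial.eval y g := by
  set G : MvPolynomial (Fin r) R := MvPolynomial.aeval
    (fun i => MvPolynomial.X i + MvPolynomial.C (x i) : Fin r → MvPolynomial (Fin r) R) g with hG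
  refine ⟨G.totalDegree, fun N' hN' => ?_⟩
  rw [← ul1_eval x y g, ← hG, MvPolynomial.eval_eq', Finset.mul_sum]
  apply Finset.dvd_sum
  intro m hm
  have h1 : ∑ i, m i ≤ N' := by
    have h2 := MvPolynomial.le_totalDegree hm
    have h3 : m.sum (fun _ e => e) = ∑ i, m i := Finsupp.sum_fintype _ _ (fun _ => rfl)
    rw [h3] at h2
    exact h2.trans hN'
  have h2 : s ≤ ∑ i, m i := by
    by_contra hlt
    rw [not_le] at hlt
    have h3 := hg (fun i => m i) hlt
    rw [MvPolynomial.mem_support_iff] at hm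
    apply hm
    have h4 : Finsupp.equivFunOnFinite.symm (fun i => m i) = m :=
      Finsupp.equivFunOnFinite.symm_apply_apply m
    unfold tay at h3
    rw [h4] at h3
    exact h3
  have h3 : u ^ N' * (MvPolynomial.coeff m G * ∏ i, (y i - x i) ^ m i) =
      u ^ (N' - ∑ i, m i) * MvPolynomial.coeff m G * ∏ i, (u * (y i - x i)) ^ m i := by
    have h4 : ∏ i, (u * (y i - x i)) ^ m i = u ^ (∑ i, m i) * ∏ i, (y i - x i) ^ m i := by
      simp_rw [mul_pow]
      rw [Finset.prod_mul_distrib, Finset.prod_pow_eq_pow_sum]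
    have h5 : u ^ N' = u ^ (N' - ∑ i, m i) * u ^ (∑ i, m i) := by
      rw [← pow_add, Nat.sub_add_cancel h1]
    rw [h4, h5]
    ring
  rw [h3]
  apply Dvd.dvd.mul_left
  have h4 : p ^ (∑ i, m i) ∣ ∏ i, (u * (y i - x i)) ^ m i := by
    rw [← Finset.prod_pow_eq_pow_sum]
    exact Finset.prod_dvd_prod_of_dvd _ _ fun i _ => pow_dvd_pow_of_dvd (hu i) _
  exact (pow_dvd_pow p h2).trans h4

end Tay

end Pool.Agent.H52.UL
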