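import Pool.Agent.H52.UL.Box
import Pool.Agent.H52.UL.IntPoly
import Pool.Agent.H52.UL.Same
import Pool.Agent.H52.UL.Tay
import Pool.Agent.H48.UD.Close
import Pool.Agent.H48.UD.Glob
import Pool.Agent.H48.UD.First
import Pool.Agent.H48.UD.Pt

/-!
# UL-11: the counting step
-/

set_option autoImplicit false

open NumberField Module Polynomial Pool.Agent.H52.UB Pool.Agent.H48.UD

namespace Pool.Agent.H52.UL

theorem ul11_cover {α ι : Type*} (V : Set α) (R : Finset ι) (f : ι → Set α)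
    (hV : ∀ x ∈ V, ∃ r ∈ R, x ∈ f r) (B : ℝ)
    (hf : ∀ r ∈ R, (f r).Finite ∧ ((f r).ncard : ℝ) ≤ B) :
    V.Finite ∧ (V.ncard : ℝ) ≤ R.card * B := by
  classical
  have hsub : V ⊆ ⋃ r ∈ R, f r := by
    intro x hx
    obtain ⟨r, hr, h⟩ := hV x hx
    exact Set.mem_biUnion (Finset.mem_coe.2 hr) h
  have hfin : (⋃ r ∈ R, f r).Finite := Set.Finite.biUnion R.finite_toSet fun r hr => (hf r hr).1
  refine ⟨hfin.subset hsub, ?_⟩
  have h1 : V.ncard ≤ (⋃ r ∈ R, f r).ncard := Set.ncard_le_ncard hsub hfin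
  have h2 : (⋃ r ∈ R, f r).ncard ≤ ∑ r ∈ R, (f r).ncard := by
    clear hV hsub h1 hfin
    induction R using Finset.induction_on with
    | empty => simp
    | insert a s ha ih =>
      rw [Finset.set_biUnion_insert, Finset.sum_insert ha]
      refine (Set.ncard_union_le _ _).trans ?_
      exact Nat.add_le_add_left (ih fun r hr => hf r (Finset.mem_insert_of_mem hr)) _
  calc (V.ncard : ℝ) ≤ ((∑ r ∈ R, (f r).ncard : ℕ) : ℝ) := by exact_mod_cast h1.trans h2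
    _ = ∑ r ∈ R, ((f r).ncard : ℝ) := by push_cast; rfl
    _ ≤ ∑ _r ∈ R, B := Finset.sum_le_sum fun r hr => (hf r hr).2
    _ = R.card * B := by rw [Finset.sum_const, nsmul_eq_mul]

theorem ul11_cop_prod (k : Type) [Field k] {p : ℕ} {ι : Type*} (s : Finset ι) (f : ι → Zb k)
    (h : Cop k p (∏ i ∈ s, f i ^ 2)) (i : ι) (hi : i ∈ s) : Cop k p (f i) := by
  classical
  intro P hP hp hz
  refine h P hP hp ?_
  rw [← Finset.mul_prod_erase s _ hi, pow_two]
  exact P.mul_mem_right _ (P.mul_mem_right _ hz)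

section

variable (k : Type) [Field k] [NumberField k] {n q : ℕ}

/-- the good points of size `H` -/
def ul11_V (w κ : Fin (q + 1) → ℕ) (Γ : Fin n → Fin (q + 1) → ℕ) (S : ℕ) (H : ℝ) :
    Set (Fin n → Fin (q + 1) → Zb k) :=
  {x | IsPt k x ∧ (∀ (φ : AlgebraicClosure k →+* ℂ) (j : Fin n) (i : Fin (q + 1)),
    ‖φ (x j i : AlgebraicClosure k)‖ ≤ H ^ w i) ∧ ∀ s ≤ S, jd κ Γ s x ≠ 0}

open Classical in
/-- the coefficients of a point -/
noncomputable def ul11_cv (x : Fin n → Fin (q + 1) → Zb k) (ρ : Fin (q + 1) × Fin n) : 𝓞 k :=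
  if h : IsPt k x then (cf_int k h ρ).choose else 0

theorem ul11_cv_spec {x : Fin n → Fin (q + 1) → Zb k} (hx : IsPt k x)
    (ρ : Fin (q + 1) × Fin n) :
    algebraMap k (AlgebraicClosure k) (ul11_cv k x ρ : k) =
      ((cf x ρ : Zb k) : AlgebraicClosure k) := by
  unfold ul11_cv
  rw [dif_pos hx]
  exact (cf_int k hx ρ).choose_spec

theorem ul11_dvd (p : ℕ) (a b : 𝓞 k) (z w : Zb k)
    (ha : algebraMap k (AlgebraicClosure k) (a : k) = (z : AlgebraicClosure k))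
    (hb : algebraMap k (AlgebraicClosure k) (b : k) = (w : AlgebraicClosure k))
    (h : (p : 𝓞 k) ∣ a - b) : (p : Zb k) ∣ z - w := by
  obtain ⟨c, hc⟩ := h
  have hci : IsIntegral ℤ (algebraMap k (AlgebraicClosure k) (c : k)) :=
    (RingOfIntegers.isIntegral_coe c).map (algebraMap k (AlgebraicClosure k)).toIntAlgHom
  refine ⟨⟨algebraMap k (AlgebraicClosure k) (c : k), hci⟩, ?_⟩
  apply Subtype.ext
  have h1 : ((a : k) - (b : k)) = (p : k) * (c : k) := by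
    have := congrArg (fun t : 𝓞 k => (t : k)) hc
    simpa using this
  have h2 := congrArg (algebraMap k (AlgebraicClosure k)) h1
  rw [map_sub, map_mul, ha, hb, map_natCast] at h2
  push_cast
  exact h2

/-- the number of the good points in a class -/
theorem ul11_class {w κ : Fin (q + 1) → ℕ} {Γ : Fin n → Fin (q + 1) → ℕ} {S Cb : ℕ} {H : ℝ}
    {p : ℕ}
    (hbox : ∀ (Z : Set (Fin (q + 1) → Zb k)) (x0 : Fin n → Fin (q + 1) → Zb k),
      (∀ s ≤ S, Cop k p (jd κ Γ s x0)) →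
      (∀ y ∈ Z, ∀ (φ : AlgebraicClosure k →+* ℂ) (i : Fin (q + 1)),
        ‖φ (y i : AlgebraicClosure k)‖ ≤ H ^ w i) →
      (∀ y ∈ Z, ∀ P : Ideal (Zb k), P.IsMaximal → (p : Zb k) ∈ P →
        ∃ (j : Fin n) (u : Zb k), u ∉ P ∧ ∀ i, (p : Zb k) ∣ u * (y i - x0 j i)) →
      Z.Finite ∧ Z.ncard ≤ Cb)
    (V : Set (Fin n → Fin (q + 1) → Zb k)) (hV : V ⊆ ul11_V k w κ Γ S H)
    (x0 : Fin n → Fin (q + 1) → Zb k) (hx0 : x0 ∈ ul11_V k w κ Γ S H)
    (hd0 : Cop k p (dsc x0)) (hj0 : ∀ s ≤ S, Cop k p (jd κ Γ s x0))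
    (hd : ∀ x ∈ V, Cop k p (dsc x))
    (hc : ∀ x ∈ V, ∀ ρ, (p : 𝓞 k) ∣ ul11_cv k x ρ - ul11_cv k x0 ρ) :
    V.Finite ∧ (V.ncard : ℝ) ≤ (Cb : ℝ) ^ n := by
  classical
  set Z : Set (Fin (q + 1) → Zb k) := {y | ∃ x ∈ V, ∃ j, y = x j} with hZ
  obtain ⟨hZf, hZc⟩ := hbox Z x0 hj0 (by
      rintro y ⟨x, hx, j, rfl⟩ φ i
      exact (hV hx).2.1 φ j i) (by
      rintro y ⟨x, hx, j, rfl⟩ P hP hp
      have := hP.isPrime
      obtain ⟨π, s, hs, h⟩ := close P (p : Zb k) hp x x0 (fun ρ =>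
        ul11_dvd k p (ul11_cv k x ρ) (ul11_cv k x0 ρ) _ _ (ul11_cv_spec k (hV hx).1 ρ)
          (ul11_cv_spec k hx0.1 ρ) (hc x hx ρ)) (hd x hx P hP hp) (hd0 P hP hp)
      exact ⟨π j, s, hs, fun i => h j i⟩)
  have hsub : V ⊆ ((Fintype.piFinset fun _ : Fin n => hZf.toFinset :
      Finset (Fin n → Fin (q + 1) → Zb k)) : Set (Fin n → Fin (q + 1) → Zb k)) := by
    intro x hx
    rw [Finset.mem_coe, Fintype.mem_piFinset]
    intro j
    rw [Set.Finite.mem_toFinset]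
    exact ⟨x, hx, j, rfl⟩
  refine ⟨(Finset.finite_toSet _).subset hsub, ?_⟩
  have h1 := Set.ncard_le_ncard hsub (Finset.finite_toSet _)
  rw [Set.ncard_coe_finset, Fintype.card_piFinset_const, ← Set.ncard_eq_toFinset_card Z hZf] at h1
  calc (V.ncard : ℝ) ≤ ((Z.ncard ^ n : ℕ) : ℝ) := by exact_mod_cast h1
    _ ≤ (Cb : ℝ) ^ n := by
        push_cast
        exact pow_le_pow_left₀ (Nat.cast_nonneg _) (by exact_mod_cast hZc) n

/-- the number of the good points -/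
theorem ul11_points (w κ : Fin (q + 1) → ℕ) (K : ℕ) (hK1 : 1 ≤ K) (hw : ∀ i, 1 ≤ w i)
    (hK : ∀ i, w i * κ i ≤ K) (Γ : Fin n → Fin (q + 1) → ℕ) (hΓ : ∀ j i, Γ j i < κ i)
    (c : ℝ) (hc : (K : ℝ) < c) :
    ∃ (S : ℕ) (C H0 : ℝ), 0 ≤ C ∧ 2 ≤ H0 ∧ ∀ H : ℝ, H0 ≤ H →
      (ul11_V k w κ Γ S H).Finite ∧ ((ul11_V k w κ Γ S H).ncard : ℝ) ≤
        C * H ^ (c * (finrank ℚ k * ((q + 1) * n))) := by
  classical
  set m := finrank ℚ k with hm
  obtain ⟨S, Cb, H00, hH00, hbox⟩ := box k w κ K hK1 hw hK Γ hΓ c hc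
  obtain ⟨w', hbad⟩ := bad_spec2 k κ Γ S (∑ i, w i)
  obtain ⟨K0, hgood⟩ := good_prime k m w'
  obtain ⟨Cp, hCp, hprimes⟩ := exists_primes K0
  refine ⟨S, K0 * (Cp ^ (m * ((q + 1) * n)) * (Cb : ℝ) ^ n), max 2 H00, by positivity,
    le_max_left _ _, ?_⟩
  intro H hH
  have hH2 : 2 ≤ H := (le_max_left _ _).trans hH
  have hH1 : 1 ≤ H := by linarith
  have hHp : 0 < H := by linarith
  have hHH : H00 ≤ H := (le_max_right _ _).trans hH
  have hc1 : 1 ≤ c := by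
    have : (1 : ℝ) ≤ K := by exact_mod_cast hK1
    linarith
  have hle0 : H ≤ H ^ c := by
    calc H = H ^ (1 : ℝ) := (Real.rpow_one H).symm
      _ ≤ H ^ c := Real.rpow_le_rpow_of_exponent_le hH1 hc1
  obtain ⟨S0, hS0c, hS0⟩ := hprimes (H ^ c) (hH1.trans hle0)
  have hsz : ∀ x ∈ ul11_V k w κ Γ S H, Sz k (H ^ (∑ i, w i)) x := by
    intro x hx φ j i
    refine (hx.2.1 φ j i).trans ?_
    exact pow_le_pow_right₀ hH1 (Finset.single_le_sum (fun i _ => Nat.zero_le (w i))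
      (Finset.mem_univ i))
  obtain ⟨h1, h2⟩ := ul11_cover (ul11_V k w κ Γ S H) S0
    (fun p => {x | x ∈ ul11_V k w κ Γ S H ∧
      Cop k p (dsc x * ∏ s ∈ Finset.range (S + 1), jd κ Γ s x ^ 2)})
    (fun x hx => by
      obtain ⟨hz, hdeg, hsize⟩ := hbad H hH2 x hx.1 (hsz x hx) hx.2.2
      obtain ⟨p0, hp0, hcop0⟩ := hgood H hH2 S0 (by omega)
        (fun p hp => ⟨(hS0 p hp).1, hle0.trans (hS0 p hp).2.1⟩) _ hz hdeg hsize
      exact ⟨p0, hp0, hx, hcop0⟩)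
    ((Cp * H ^ c) ^ (m * ((q + 1) * n)) * (Cb : ℝ) ^ n) (fun p hp => by
      obtain ⟨hpp, hpl, hpu⟩ := hS0 p hp
      set V2 : Set (Fin n → Fin (q + 1) → Zb k) :=
        {x | x ∈ ul11_V k w κ Γ S H ∧
          Cop k p (dsc x * ∏ s ∈ Finset.range (S + 1), jd κ Γ s x ^ 2)} with hV2
      obtain ⟨R, hRV, hRc, hR⟩ := class_card k p hpp.pos (Fin (q + 1) × Fin n)
        ((fun x => ul11_cv k x) '' V2)
      obtain ⟨h3, h4⟩ := ul11_cover V2 R
        (fun r => {x | x ∈ V2 ∧ ∀ ρ, (p : 𝓞 k) ∣ ul11_cv k x ρ - r ρ})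
        (fun x hx => by
          obtain ⟨r, hr, h⟩ := hR (ul11_cv k x) ⟨x, hx, rfl⟩
          exact ⟨r, hr, hx, h⟩) ((Cb : ℝ) ^ n) (fun r hr => by
          obtain ⟨x0, hx0, rfl⟩ := hRV (Finset.mem_coe.2 hr)
          refine ul11_class k (hbox H hHH p hpp hpl) _ (fun x hx => hx.1.1) x0 hx0.1
            (cop_of_mul k hx0.2).1 (fun s hs => ?_) (fun x hx => (cop_of_mul k hx.1.2).1)
            (fun x hx ρ => hx.2 ρ)
          exact ul11_cop_prod k _ _ (cop_of_mul k hx0.2).2 s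
            (Finset.mem_range.2 (Nat.lt_succ_of_le hs)))
      refine ⟨h3, h4.trans (mul_le_mul_of_nonneg_right ?_ (by positivity))⟩
      calc (R.card : ℝ) ≤ ((p ^ (m * Fintype.card (Fin (q + 1) × Fin n)) : ℕ) : ℝ) := by
            exact_mod_cast hRc
        _ = (p : ℝ) ^ (m * ((q + 1) * n)) := by
            rw [Fintype.card_prod, Fintype.card_fin, Fintype.card_fin]
            push_cast
            rfl
        _ ≤ (Cp * H ^ c) ^ (m * ((q + 1) * n)) := by gcongr)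
  refine ⟨h1, h2.trans (le_of_eq ?_)⟩
  have h8 : (Cp * H ^ c) ^ (m * ((q + 1) * n)) =
      Cp ^ (m * ((q + 1) * n)) * H ^ (c * (m * ((q + 1) * n)) : ℝ) := by
    rw [mul_pow, ← Real.rpow_natCast (H ^ c), ← Real.rpow_mul hHp.le]
    push_cast
    rfl
  rw [hS0c, h8]
  ring

/-- the point of a field -/
noncomputable def ul11_pt {M : IntermediateField k (AlgebraicClosure k)}
    (e : (M →ₐ[k] AlgebraicClosure k) ≃ Fin n) (x : Fin (q + 1) → 𝓞 M) :
    Fin n → Fin (q + 1) → Zb k :=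
  fun j i => ⟨e.symm j (x i : M), map_isIntegral_int (e.symm j : M →+* AlgebraicClosure k)
    (RingOfIntegers.isIntegral_coe (x i))⟩

omit [NumberField k] in
theorem ul11_pt_inj (hn : 1 ≤ n) {M : IntermediateField k (AlgebraicClosure k)}
    (e : (M →ₐ[k] AlgebraicClosure k) ≃ Fin n) :
    Function.Injective (ul11_pt k (q := q) e) := by
  intro x x' h
  funext i
  have h1 := congrArg (fun t => ((t ⟨0, hn⟩ i : Zb k) : AlgebraicClosure k)) h
  exact RingOfIntegers.coe_injective ((e.symm ⟨0, hn⟩ : M →+* AlgebraicClosure k).injective h1)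

omit [NumberField k] in
theorem ul11_isPt {M : IntermediateField k (AlgebraicClosure k)}
    (e : (M →ₐ[k] AlgebraicClosure k) ≃ Fin n) (x : Fin (q + 1) → 𝓞 M)
    (hx : Function.Injective fun j => e.symm j (x 0 : M)) : IsPt k (ul11_pt k e x) := by
  refine ⟨fun σ => ?_, ?_⟩
  · refine ⟨(e.symm.trans (AlgEquiv.arrowCongr AlgEquiv.refl σ)).trans e, fun j i => ?_⟩
    change σ (e.symm j (x i : M)) = e.symm _ (x i : M)
    simp
  · intro j j' h
    exact hx (congrArg Subtype.val h)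

omit [NumberField k] in
theorem ul11_size {M : IntermediateField k (AlgebraicClosure k)} [NumberField M]
    (e : (M →ₐ[k] AlgebraicClosure k) ≃ Fin n) (x : Fin (q + 1) → 𝓞 M) (i : Fin (q + 1))
    (φ : AlgebraicClosure k →+* ℂ) (j : Fin n) :
    ‖φ (ul11_pt k e x j i : AlgebraicClosure k)‖ ≤ house (x i : M) := by
  change ‖(φ.comp (e.symm j : M →+* AlgebraicClosure k)) (x i : M)‖ ≤ _
  exact norm_embedding_le_house (x i : M) _

omit [NumberField k] in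
theorem ul11_pt_ne {M : IntermediateField k (AlgebraicClosure k)}
    (e : (M →ₐ[k] AlgebraicClosure k) ≃ Fin n) (x : Fin (q + 1) → 𝓞 M)
    (κ : Fin (q + 1) → ℕ) (Γ : Fin n → Fin (q + 1) → ℕ) (s : ℕ)
    (h : jd κ Γ s (fun j i => e.symm j (x i : M)) ≠ 0) : jd κ Γ s (ul11_pt k e x) ≠ 0 := by
  intro h0
  apply h
  have h1 := map_jd (algebraMap (Zb k) (AlgebraicClosure k)) κ Γ s (ul11_pt k e x)
  rw [h0, map_zero] at h1
  exact h1.symm

end

theorem count_ul (k : Type) [Field k] [NumberField k] {n q : ℕ} (hn : 1 ≤ n)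
    (w κ : Fin (q + 1) → ℕ) (K : ℕ) (hK1 : 1 ≤ K) (hw : ∀ i, 1 ≤ w i)
    (hK : ∀ i, w i * κ i ≤ K) (Γ : Fin n → Fin (q + 1) → ℕ) (hΓ : ∀ j i, Γ j i < κ i)
    (c : ℝ) (hc : (K : ℝ) < c) (η : ℝ) (hη : 0 ≤ η) (δ : ℝ) :
    ∃ S : ℕ, (∃ C0 c1 : ℝ, 1 ≤ C0 ∧ 0 < c1 ∧
      ∀ (M : IntermediateField k (AlgebraicClosure k)) [NumberField M], finrank k M = n →
      ∀ X : ℝ, 1 ≤ X → |(discr M : ℝ)| ≤ X →
      ∃ (e : (M →ₐ[k] AlgebraicClosure k) ≃ Fin n) (T : Finset (Fin (q + 1) → 𝓞 M)),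
        c1 * X ^ δ ≤ T.card ∧ ∀ x ∈ T,
        (∀ i, house (x i : M) ≤ C0 * X ^ (w i * η / finrank ℚ k)) ∧
        (Function.Injective fun j => e.symm j (x 0 : M)) ∧
        ∀ s ≤ S, jd κ Γ s (fun j i => e.symm j (x i : M)) ≠ 0) →
    ∃ C : ℝ, ∀ B : ℝ, 1 ≤ B → Finite (ExtCls k n B) ∧
      (extCount k n B : ℝ) ≤ C * B ^ (c * (q + 1) * n * η - δ) := by
  classical
  obtain ⟨S, C, H0, hC, hH0, hpts⟩ := ul11_points k w κ K hK1 hw hK Γ hΓ c hc
  refine ⟨S, ?_⟩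
  rintro ⟨C0, c1, hC0, hc1, hpt⟩
  set m := finrank ℚ k with hm
  have hm1 : 1 ≤ m := finrank_pos
  set Δ : ℝ := |(discr k : ℝ)| with hΔ
  have hΔ1 : 1 ≤ Δ := by
    have h1 : (1 : ℤ) ≤ |discr k| := Int.one_le_abs (discr_ne_zero k)
    have h2 : ((1 : ℤ) : ℝ) ≤ ((|discr k| : ℤ) : ℝ) := by exact_mod_cast h1
    rw [Int.cast_abs, Int.cast_one] at h2
    exact h2
  set E1 : ℝ := c * (m * ((q + 1) * n)) with hE1
  set E : ℝ := c * (q + 1) * n * η - δ with hE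
  refine ⟨C * (H0 * C0) ^ E1 / c1 * (Δ ^ n) ^ E, ?_⟩
  intro B hB
  set X : ℝ := B * Δ ^ n with hX
  have hX1 : 1 ≤ X := one_le_mul_of_one_le_of_one_le hB (one_le_pow₀ hΔ1)
  have hX0 : 0 < X := by linarith
  have hB0 : 0 < B := by linarith
  have hXm : 1 ≤ X ^ (η / m) := Real.one_le_rpow hX1 (by positivity)
  set H : ℝ := H0 * C0 * X ^ (η / m) with hH
  have hHC : 1 ≤ H0 * C0 := one_le_mul_of_one_le_of_one_le (by linarith) hC0
  have hHH : H0 ≤ H := by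
    have h1 : H0 ≤ H0 * C0 := le_mul_of_one_le_right (by linarith) hC0
    exact h1.trans (le_mul_of_one_le_right (by linarith) hXm)
  obtain ⟨hVf, hVc⟩ := hpts H hHH
  have hw2 : ∀ i, C0 * X ^ (w i * η / m) ≤ H ^ w i := by
    intro i
    rw [hH, mul_pow]
    have h1 : (X ^ (η / m)) ^ w i = X ^ (w i * η / m) := by
      rw [← Real.rpow_natCast, ← Real.rpow_mul hX0.le]
      congr 1
      ring
    rw [h1]
    refine mul_le_mul_of_nonneg_right ?_ (by positivity)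
    have h2 : C0 ≤ H0 * C0 := le_mul_of_one_le_left (by linarith) (by linarith)
    exact h2.trans (le_self_pow₀ hHC (by have := hw i; omega))
  -- the points of a class of fields
  have hdat : ∀ c : ExtCls k n B, ∃ T : Finset (Fin n → Fin (q + 1) → Zb k),
      c1 * X ^ δ ≤ T.card ∧ (∀ x ∈ T, x ∈ ul11_V k w κ Γ S H) ∧
      ∀ x ∈ T, ∃ (e : (c.out.1 →ₐ[k] AlgebraicClosure k) ≃ Fin n) (x0 : c.out.1),
        (Function.Injective fun j => e.symm j x0) ∧
        ∀ j, (x j 0 : AlgebraicClosure k) = e.symm j x0 := by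
    intro c
    obtain ⟨hd, hnf, hdisc⟩ := c.out.2
    obtain ⟨e, T, hT, hx⟩ := hpt c.out.1 hd X hX1 (by simpa using hdisc)
    refine ⟨T.image (ul11_pt k e), ?_, ?_, ?_⟩
    · rw [Finset.card_image_of_injective _ (ul11_pt_inj k hn e)]
      exact hT
    · intro y hy
      obtain ⟨x, hxT, rfl⟩ := Finset.mem_image.1 hy
      obtain ⟨h1, h2, h3⟩ := hx x hxT
      exact ⟨ul11_isPt k e x h2, fun φ j i => (ul11_size k e x i φ j).trans
        ((h1 i).trans (hw2 i)), fun s hs => ul11_pt_ne k e x κ Γ s (h3 s hs)⟩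
    · intro y hy
      obtain ⟨x, hxT, rfl⟩ := Finset.mem_image.1 hy
      exact ⟨e, (x 0 : c.out.1), (hx x hxT).2.1, fun j => rfl⟩
  choose T hTc hTV hTe using hdat
  have hdisj : ∀ c c' : ExtCls k n B, c ≠ c' → Disjoint (T c) (T c') := by
    intro c c' hcc
    rw [Finset.disjoint_left]
    intro x hx hx'
    apply hcc
    obtain ⟨e, x0, hi, he⟩ := hTe c x hx
    obtain ⟨e', x0', hi', he'⟩ := hTe c' x hx'
    have h6 := same_field1 c.out.2.1 c'.out.2.1 e e' x0 x0' hi hi' ⟨0, hn⟩ ⟨0, hn⟩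
      ((he ⟨0, hn⟩).symm.trans (he' ⟨0, hn⟩))
    have h7 := Quot.sound (r := fun L L' : {M : IntermediateField k (AlgebraicClosure k) //
      Module.finrank k M = n ∧ ∃ h : NumberField M,
        ((|@NumberField.discr M _ h| : ℤ) : ℝ) ≤ B * ((|NumberField.discr k| : ℤ) : ℝ) ^ n}
      => Nonempty (L.1 ≃ₐ[k] L'.1)) h6
    rwa [Quot.out_eq, Quot.out_eq] at h7
  have hpos : 0 < c1 * X ^ δ := by positivity
  have hne : ∀ c : ExtCls k n B, (T c).Nonempty := by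
    intro c
    rw [← Finset.card_pos]
    have := hTc c
    have h1 : (0 : ℝ) < (T c).card := by linarith
    exact_mod_cast h1
  choose pt hpt' using hne
  have hfinV : Finite (ul11_V k w κ Γ S H) := hVf.to_subtype
  have hfin : Finite (ExtCls k n B) := by
    refine Finite.of_injective (fun c => (⟨pt c, hTV c _ (hpt' c)⟩ : ul11_V k w κ Γ S H)) ?_
    intro c c' h
    by_contra hcc
    have h1 : pt c = pt c' := congrArg Subtype.val h
    exact Finset.disjoint_left.1 (hdisj c c' hcc) (hpt' c) (h1 ▸ hpt' c')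
  refine ⟨hfin, ?_⟩
  have hft : Fintype (ExtCls k n B) := Fintype.ofFinite _
  have hcount : (extCount k n B : ℝ) * (c1 * X ^ δ) ≤ ((ul11_V k w κ Γ S H).ncard : ℝ) := by
    have h1 : (Finset.univ.biUnion T).card = ∑ c, (T c).card :=
      Finset.card_biUnion fun c _ c' _ h => hdisj c c' h
    have h2 : (Finset.univ.biUnion T).card ≤ (ul11_V k w κ Γ S H).ncard := by
      rw [← Set.ncard_coe_finset]
      refine Set.ncard_le_ncard ?_ hVf
      intro x hx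
      obtain ⟨c, -, hc⟩ := Finset.mem_biUnion.1 (Finset.mem_coe.1 hx)
      exact hTV c x hc
    have h3 : (extCount k n B : ℝ) * (c1 * X ^ δ) ≤ ∑ c : ExtCls k n B, ((T c).card : ℝ) := by
      have h4 : extCount k n B = Fintype.card (ExtCls k n B) := Nat.card_eq_fintype_card
      rw [h4]
      calc (Fintype.card (ExtCls k n B) : ℝ) * (c1 * X ^ δ) =
          ∑ _c : ExtCls k n B, (c1 * X ^ δ) := by
            rw [Finset.sum_const, nsmul_eq_mul, Finset.card_univ]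
        _ ≤ _ := Finset.sum_le_sum fun c _ => hTc c
    refine h3.trans ?_
    rw [h1] at h2
    exact_mod_cast h2
  have h5 : (extCount k n B : ℝ) * (c1 * X ^ δ) ≤ C * H ^ E1 := hcount.trans hVc
  have h6 : H ^ E1 = (H0 * C0) ^ E1 * X ^ (c * (q + 1) * n * η) := by
    rw [hH, Real.mul_rpow (by linarith) (by positivity), ← Real.rpow_mul hX0.le]
    congr 2
    rw [hE1]
    have : (m : ℝ) ≠ 0 := by positivity
    field_simp
  rw [← le_div_iff₀ hpos] at h5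
  refine h5.trans (le_of_eq ?_)
  rw [h6, hE]
  have h7 : X ^ (c * (q + 1) * n * η) = X ^ (c * (q + 1) * n * η - δ) * X ^ δ := by
    rw [← Real.rpow_add hX0]
    congr 1
    ring
  have h8 : X ^ (c * (q + 1) * n * η - δ) =
      B ^ (c * (q + 1) * n * η - δ) * (Δ ^ n) ^ (c * (q + 1) * n * η - δ) := by
    rw [hX, Real.mul_rpow (by linarith) (by positivity)]
  rw [h7, h8]
  have h9 : X ^ δ ≠ 0 := (Real.rpow_pos_of_pos hX0 δ).ne'
  field_simp

end Pool.Agent.H52.UL
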