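import Pool.Agent.H48.UD.Defs

/-!
# Project UL (MP_a3214d): definitions

The number of all extensions of degree `n` of a number field with bounded discriminant, with
exponent `O(log n)`. Taylor coefficients, the jet matrix of `n` points, Hilbert functions with
weights.
-/

set_option autoImplicit false

open NumberField Module Polynomial Pool.Agent.H52.UB Pool.Agent.H48.UD

namespace Pool.Agent.H52.UL

/-- the Taylor coefficient of `g` at `x` with exponent `e` -/
noncomputable def tay {R : Type*} [CommRing R] {r : ℕ} (x : Fin r → R) (e : Fin r → ℕ)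
    (g : MvPolynomial (Fin r) R) : R :=
  MvPolynomial.coeff (Finsupp.equivFunOnFinite.symm e)
    (MvPolynomial.aeval (fun i => MvPolynomial.X i + MvPolynomial.C (x i)) g)

/-- the Newton polynomial `∏ i, ∏ t < N i, (z_i - (t mod κ_i))` -/
noncomputable def phi {r : ℕ} (κ N : Fin r → ℕ) : MvPolynomial (Fin r) ℤ :=
  ∏ i, ∏ t ∈ Finset.range (N i), (MvPolynomial.X i - MvPolynomial.C ((t % κ i : ℕ) : ℤ))

/-- exponents of total degree at most `s` -/
abbrev Ex (r s : ℕ) : Type := {e : Fin r → Fin (s + 1) // ∑ i, (e i : ℕ) ≤ s}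

/-- the matrix of the Taylor coefficients of order at most `s` at the `n` points `x j` of the
polynomials `phi κ (κ e + Γ l)` -/
noncomputable def jetMat {R : Type*} [CommRing R] {n r : ℕ} (κ : Fin r → ℕ)
    (Γ : Fin n → Fin r → ℕ) (s : ℕ) (x : Fin n → Fin r → R) :
    Matrix (Fin n × Ex r s) (Fin n × Ex r s) R :=
  fun ρ ρ' => tay (x ρ.1) (fun i => (ρ.2.1 i : ℕ))
    (MvPolynomial.map (Int.castRingHom R)
      (phi κ (fun i => κ i * (ρ'.2.1 i : ℕ) + Γ ρ'.1 i)))

/-- its determinant -/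
noncomputable def jd {R : Type*} [CommRing R] {n r : ℕ} (κ : Fin r → ℕ)
    (Γ : Fin n → Fin r → ℕ) (s : ℕ) (x : Fin n → Fin r → R) : R :=
  (jetMat κ Γ s x).det

/-- the weighted degree -/
def wd {r : ℕ} (w b : Fin r → ℕ) : ℕ := ∑ i, w i * b i

/-- the Hilbert function of a set `Y` with the weights `w` -/
noncomputable def hl {F : Type*} [Field F] {r : ℕ} (w : Fin r → ℕ) (Y : Set (Fin r → F))
    (a : ℕ) : ℕ :=
  rk Y (fun (b : Fin r → ℕ) (y : Fin r → F) => mon y b) (wd w) a

/-- the block of the jet matrix belonging to the label `t` and to exponents supported on the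
coordinates `≥ r0` -/
noncomputable def bjd {R : Type*} [CommRing R] {n r : ℕ} (κ : Fin r → ℕ)
    (Γ : Fin n → Fin r → ℕ) (r0 : ℕ) (lab : Fin n → ℕ) (t s : ℕ) (x : Fin n → Fin r → R) : R := by
  classical
  exact ((jetMat κ Γ s x).submatrix
    (fun ρ : {ρ : Fin n × Ex r s // lab ρ.1 = t ∧ ∀ i : Fin r, (i : ℕ) < r0 → ρ.2.1 i = 0} =>
      ρ.1)
    (fun ρ : {ρ : Fin n × Ex r s // lab ρ.1 = t ∧ ∀ i : Fin r, (i : ℕ) < r0 → ρ.2.1 i = 0} =>
      ρ.1)).det

end Pool.Agent.H52.UL
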