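import Pool.Agent.H52.UL.Defs

/-!
# Project UL, row UL-2: the jet matrix at the grid points is invertible

The polynomial `∏ t < N, (X - (t mod κ))` vanishes at `l'` to an order which exceeds `e'` if
`κ e' + l' < N` and equals `e'` if `κ e' + l' = N`. So the jet matrix at the grid points is
triangular for the order of the indices `κ e + Γ l`.
-/

set_option autoImplicit false

open NumberField Module Polynomial Pool.Agent.H52.UB Pool.Agent.H48.UD

namespace Pool.Agent.H52.UL

/-- the coefficients of a product of polynomials in separate variables -/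
theorem ul2_coeff_prod {R : Type*} [CommRing R] {r : ℕ} (Q : Fin r → R[X]) (e : Fin r → ℕ) :
    MvPolynomial.coeff (Finsupp.equivFunOnFinite.symm e)
      (∏ i, Polynomial.aeval (MvPolynomial.X i : MvPolynomial (Fin r) R) (Q i)) =
    ∏ i, (Q i).coeff (e i) := by
  classical
  set M : ℕ := 1 + ∑ i, ((Q i).natDegree + e i) with hM
  have hle : ∀ i, (Q i).natDegree + e i < M := by
    intro i
    have h : (Q i).natDegree + e i ≤ ∑ i, ((Q i).natDegree + e i) :=
      Finset.single_le_sum (f := fun i => (Q i).natDegree + e i)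
        (fun _ _ => Nat.zero_le _) (Finset.mem_univ i)
    omega
  have h1 : ∀ i, Polynomial.aeval (MvPolynomial.X i : MvPolynomial (Fin r) R) (Q i) =
      ∑ k ∈ Finset.range M, MvPolynomial.C ((Q i).coeff k) * MvPolynomial.X i ^ k := by
    intro i
    rw [Polynomial.aeval_eq_sum_range' (lt_of_le_of_lt (Nat.le_add_right _ (e i)) (hle i))]
    refine Finset.sum_congr rfl fun k _ => ?_
    rw [MvPolynomial.smul_eq_C_mul]
  simp only [h1]
  rw [Finset.prod_univ_sum, MvPolynomial.coeff_sum, Finset.sum_eq_single e]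
  · rw [Finset.prod_mul_distrib, ← map_prod, MvPolynomial.coeff_C_mul]
    have h2 : (∏ i, MvPolynomial.X i ^ e i : MvPolynomial (Fin r) R) =
        MvPolynomial.monomial (Finsupp.equivFunOnFinite.symm e) 1 := by
      rw [MvPolynomial.monomial_eq, MvPolynomial.C_1, one_mul, Finsupp.prod_fintype]
      · rfl
      · intro i; simp
    rw [h2, MvPolynomial.coeff_monomial, if_pos rfl, mul_one]
  · intro f _ hf
    rw [Finset.prod_mul_distrib, ← map_prod, MvPolynomial.coeff_C_mul]
    have h2 : (∏ i, MvPolynomial.X i ^ f i : MvPolynomial (Fin r) R) =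
        MvPolynomial.monomial (Finsupp.equivFunOnFinite.symm f) 1 := by
      rw [MvPolynomial.monomial_eq, MvPolynomial.C_1, one_mul, Finsupp.prod_fintype]
      · rfl
      · intro i; simp
    rw [h2, MvPolynomial.coeff_monomial, if_neg, mul_zero]
    intro h
    exact hf (Finsupp.equivFunOnFinite.symm.injective h)
  · intro h
    exfalso
    apply h
    rw [Fintype.mem_piFinset]
    intro i
    rw [Finset.mem_range]
    exact lt_of_le_of_lt (Nat.le_add_left _ _) (hle i)

/-- the univariate polynomial, shifted to `x` -/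
noncomputable def ul2_P (κ N : ℕ) (x : ℤ) : ℤ[X] :=
  ∏ t ∈ Finset.range N, (X + C (x - ((t % κ : ℕ) : ℤ)))

theorem ul2_tay {r : ℕ} (κ N : Fin r → ℕ) (x : Fin r → ℤ) (e : Fin r → ℕ) :
    tay x e (MvPolynomial.map (Int.castRingHom ℤ) (phi κ N)) =
      ∏ i, (ul2_P (κ i) (N i) (x i)).coeff (e i) := by
  rw [← ul2_coeff_prod]
  unfold tay phi ul2_P
  congr 1
  simp only [map_prod, map_sub, map_add, MvPolynomial.map_X, MvPolynomial.map_C,
    MvPolynomial.aeval_X, Polynomial.aeval_X, Polynomial.aeval_C, MvPolynomial.aeval_C]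
  refine Finset.prod_congr rfl fun i _ => Finset.prod_congr rfl fun t _ => ?_
  simp only [MvPolynomial.algebraMap_eq, eq_intCast, map_natCast]
  ring

theorem ul2_split (κ N l : ℕ) : ∃ Q : ℤ[X], Q.coeff 0 ≠ 0 ∧
    ul2_P κ N (l : ℤ) = X ^ ((Finset.range N).filter (fun t => t % κ = l)).card * Q := by
  refine ⟨∏ t ∈ (Finset.range N).filter (fun t => ¬ t % κ = l),
    (X + C ((l : ℤ) - ((t % κ : ℕ) : ℤ))), ?_, ?_⟩
  · rw [Polynomial.coeff_zero_eq_eval_zero, Polynomial.eval_prod]
    refine Finset.prod_ne_zero_iff.2 fun t ht => ?_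
    rw [Finset.mem_filter] at ht
    simp only [eval_add, eval_X, eval_C, zero_add]
    intro h
    apply ht.2
    have : ((t % κ : ℕ) : ℤ) = (l : ℤ) := by omega
    exact_mod_cast this
  · unfold ul2_P
    rw [← Finset.prod_filter_mul_prod_filter_not (Finset.range N) (fun t => t % κ = l)]
    congr 1
    rw [← Finset.prod_const]
    refine Finset.prod_congr rfl fun t ht => ?_
    rw [Finset.mem_filter] at ht
    rw [ht.2, sub_self, C_0, add_zero]

theorem ul2_card_gt {κ N l e : ℕ} (hl : l < κ) (h : κ * e + l < N) :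
    e < ((Finset.range N).filter (fun t => t % κ = l)).card := by
  have h1 : (Finset.range (e + 1)).image (fun a => κ * a + l) ⊆
      (Finset.range N).filter (fun t => t % κ = l) := by
    intro t ht
    rw [Finset.mem_image] at ht
    obtain ⟨a, ha, rfl⟩ := ht
    rw [Finset.mem_range] at ha
    rw [Finset.mem_filter, Finset.mem_range]
    refine ⟨lt_of_le_of_lt ?_ h, ?_⟩
    · have : κ * a ≤ κ * e := Nat.mul_le_mul_left κ (by omega)
      omega
    · rw [Nat.mul_add_mod, Nat.mod_eq_of_lt hl]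
  have h2 := Finset.card_le_card h1
  rw [Finset.card_image_of_injective, Finset.card_range] at h2
  · omega
  · intro a b hab
    simp only at hab
    have : κ * a = κ * b := by omega
    exact Nat.eq_of_mul_eq_mul_left (by omega) this

theorem ul2_card_eq {κ l e : ℕ} (hl : l < κ) :
    ((Finset.range (κ * e + l)).filter (fun t => t % κ = l)).card = e := by
  have h1 : (Finset.range (κ * e + l)).filter (fun t => t % κ = l) =
      (Finset.range e).image (fun a => κ * a + l) := by
    ext t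
    rw [Finset.mem_filter, Finset.mem_range, Finset.mem_image]
    constructor
    · rintro ⟨h1, h2⟩
      refine ⟨t / κ, ?_, ?_⟩
      · rw [Finset.mem_range]
        have h3 := Nat.div_add_mod t κ
        rw [h2] at h3
        have h4 : κ * (t / κ) < κ * e := by omega
        exact Nat.lt_of_mul_lt_mul_left h4
      · have h3 := Nat.div_add_mod t κ
        rw [h2] at h3
        exact h3
    · rintro ⟨a, ha, rfl⟩
      rw [Finset.mem_range] at ha
      refine ⟨?_, ?_⟩
      · have : κ * a < κ * e := Nat.mul_lt_mul_of_pos_left ha (by omega)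
        omega
      · rw [Nat.mul_add_mod, Nat.mod_eq_of_lt hl]
  rw [h1, Finset.card_image_of_injective, Finset.card_range]
  intro a b hab
  simp only at hab
  have : κ * a = κ * b := by omega
  exact Nat.eq_of_mul_eq_mul_left (by omega) this

theorem ul2_coeff_zero {κ N l e : ℕ} (hl : l < κ) (h : κ * e + l < N) :
    (ul2_P κ N (l : ℤ)).coeff e = 0 := by
  obtain ⟨Q, -, hQ⟩ := ul2_split κ N l
  rw [hQ, coeff_X_pow_mul', if_neg]
  have := ul2_card_gt hl h
  omega

theorem ul2_coeff_ne {κ l e : ℕ} (hl : l < κ) :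
    (ul2_P κ (κ * e + l) (l : ℤ)).coeff e ≠ 0 := by
  obtain ⟨Q, hQ0, hQ⟩ := ul2_split κ (κ * e + l) l
  rw [hQ, ul2_card_eq hl, coeff_X_pow_mul', if_pos le_rfl, Nat.sub_self]
  exact hQ0

/-- the jet matrix at the grid points is invertible -/
theorem grid_det {n r : ℕ} (κ : Fin r → ℕ) (Γ : Fin n → Fin r → ℕ) (hΓ : ∀ j i, Γ j i < κ i)
    (hinj : Function.Injective Γ) (s : ℕ) : jd κ Γ s (fun j i => ((Γ j i : ℕ) : ℤ)) ≠ 0 := by
  classical
  intro hdet
  unfold jd at hdet
  rw [← Matrix.exists_mulVec_eq_zero_iff] at hdet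
  obtain ⟨v, hv, hMv⟩ := hdet
  -- the index
  let N : Fin n × Ex r s → Fin r → ℕ := fun ρ i => κ i * (ρ.2.1 i : ℕ) + Γ ρ.1 i
  have hN : ∀ ρ ρ', (∀ i, N ρ i = N ρ' i) → ρ = ρ' := by
    intro ρ ρ' h
    have h1 : ∀ i, (ρ.2.1 i : ℕ) = ρ'.2.1 i ∧ Γ ρ.1 i = Γ ρ'.1 i := by
      intro i
      have hi : κ i * (ρ.2.1 i : ℕ) + Γ ρ.1 i = κ i * (ρ'.2.1 i : ℕ) + Γ ρ'.1 i := h i
      have ha := congrArg (· / κ i) hi
      have hb := congrArg (· % κ i) hi
      have hpos : 0 < κ i := lt_of_le_of_lt (Nat.zero_le _) (hΓ ρ.1 i)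
      simp only [Nat.mul_add_div hpos, Nat.div_eq_of_lt (hΓ ρ.1 i),
        Nat.div_eq_of_lt (hΓ ρ'.1 i), add_zero] at ha
      simp only [Nat.mul_add_mod, Nat.mod_eq_of_lt (hΓ ρ.1 i),
        Nat.mod_eq_of_lt (hΓ ρ'.1 i)] at hb
      exact ⟨ha, hb⟩
    refine Prod.ext (hinj (funext fun i => (h1 i).2)) (Subtype.ext (funext fun i => ?_))
    exact Fin.ext (h1 i).1
  -- the minimal element of the support
  obtain ⟨ρ1, hρ1⟩ : ∃ ρ, v ρ ≠ 0 := by
    by_contra hcon
    push Not at hcon
    exact hv (funext hcon)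
  obtain ⟨ρ0, hρ0, hmin⟩ := Finset.exists_min_image (Finset.univ.filter fun ρ => v ρ ≠ 0)
    (fun ρ => ∑ i, N ρ i) ⟨ρ1, by simpa using hρ1⟩
  have hv0 : v ρ0 ≠ 0 := (Finset.mem_filter.1 hρ0).2
  have hrow := congrFun hMv ρ0
  rw [Matrix.mulVec, dotProduct, Pi.zero_apply, Finset.sum_eq_single ρ0] at hrow
  · refine (mul_ne_zero ?_ hv0) hrow
    show tay _ _ _ ≠ 0
    rw [ul2_tay]
    refine Finset.prod_ne_zero_iff.2 fun i _ => ?_
    exact ul2_coeff_ne (hΓ ρ0.1 i)
  · intro ρ _ hρ
    by_cases hvρ : v ρ = 0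
    · rw [hvρ, mul_zero]
    have hle := hmin ρ (by simpa using hvρ)
    obtain ⟨i, hi⟩ : ∃ i, N ρ0 i < N ρ i := by
      by_contra hcon
      push Not at hcon
      apply hρ
      apply hN
      intro i
      have hsum : ∑ i, N ρ i = ∑ i, N ρ0 i :=
        le_antisymm (Finset.sum_le_sum fun i _ => hcon i) hle
      exact (Finset.sum_eq_sum_iff_of_le (fun i _ => hcon i)).1 hsum i (Finset.mem_univ i)
    have : jetMat κ Γ s (fun j i => ((Γ j i : ℕ) : ℤ)) ρ0 ρ = 0 := by
      show tay _ _ _ = 0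
      rw [ul2_tay]
      refine Finset.prod_eq_zero (Finset.mem_univ i) ?_
      exact ul2_coeff_zero (hΓ ρ0.1 i) hi
    rw [this, zero_mul]
  · intro h; exact absurd (Finset.mem_univ _) h

end Pool.Agent.H52.UL
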