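import Pool.Agent.H52.UL.Defs

/-!
# Project UL (MP_a3214d), row UL-15, first part: labels and positions of the places

`exists_gam`: the points of a grid with `r0` sides `2` (the label of the block) and `r1` sides `4`
(the position in the block).
-/

set_option autoImplicit false

open NumberField Module Polynomial Pool.Agent.H52.UB Pool.Agent.H48.UD

namespace Pool.Agent.H52.UL

theorem ul15_digits (b : ℕ) : ∀ (m x y : ℕ), x < b ^ m → y < b ^ m →
    (∀ i < m, x / b ^ i % b = y / b ^ i % b) → x = y := by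
  intro m
  induction m with
  | zero => intro x y hx hy _; simp at hx hy; omega
  | succ m ih =>
    intro x y hx hy h
    have h0 := h 0 (Nat.succ_pos m)
    simp only [pow_zero, Nat.div_one] at h0
    have h1 : x / b = y / b := by
      refine ih (x / b) (y / b) ?_ ?_ ?_
      · exact Nat.div_lt_of_lt_mul (by rw [← pow_succ']; exact hx)
      · exact Nat.div_lt_of_lt_mul (by rw [← pow_succ']; exact hy)
      · intro i hi
        have h2 := h (i + 1) (by omega)
        rw [pow_succ', ← Nat.div_div_eq_div_mul, ← Nat.div_div_eq_div_mul] at h2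
        exact h2
    rw [← Nat.div_add_mod x b, ← Nat.div_add_mod y b, h0, h1]

/-- the position of `j` in its block -/
noncomputable def ul15_pos {n : ℕ} (blk : Fin n → ℕ) (j : Fin n) : ℕ :=
  Nat.card {l : Fin n // blk l = blk j ∧ l < j}

theorem ul15_pos_lt {n : ℕ} (blk : Fin n → ℕ) (j : Fin n) :
    ul15_pos blk j < Nat.card {l : Fin n // blk l = blk j} := by
  classical
  rw [ul15_pos, Nat.card_eq_fintype_card, Nat.card_eq_fintype_card, Fintype.card_subtype,
    Fintype.card_subtype]
  refine Finset.card_lt_card ⟨fun l hl => ?_, fun hs => ?_⟩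
  · simp only [Finset.mem_filter, Finset.mem_univ, true_and] at hl ⊢
    exact hl.1
  · have hj : j ∈ Finset.univ.filter (fun l : Fin n => blk l = blk j ∧ l < j) :=
      hs (by simp)
    simp at hj

theorem ul15_pos_mono {n : ℕ} (blk : Fin n → ℕ) {j l : Fin n} (hb : blk j = blk l) (h : j < l) :
    ul15_pos blk j < ul15_pos blk l := by
  classical
  rw [ul15_pos, ul15_pos, Nat.card_eq_fintype_card, Nat.card_eq_fintype_card,
    Fintype.card_subtype, Fintype.card_subtype]
  refine Finset.card_lt_card ⟨fun t ht => ?_, fun hs => ?_⟩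
  · simp only [Finset.mem_filter, Finset.mem_univ, true_and] at ht ⊢
    exact ⟨ht.1.trans hb, ht.2.trans h⟩
  · have hj : j ∈ Finset.univ.filter (fun t : Fin n => blk t = blk j ∧ t < j) :=
      hs (by simp [hb, h])
    simp at hj

theorem ul15_pos_inj {n : ℕ} (blk : Fin n → ℕ) {j l : Fin n} (hb : blk j = blk l)
    (h : ul15_pos blk j = ul15_pos blk l) : j = l := by
  rcases lt_trichotomy j l with h1 | h1 | h1
  · have := ul15_pos_mono blk hb h1
    omega
  · exact h1
  · have := ul15_pos_mono blk hb.symm h1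
    omega

theorem ul15_card_le {n s : ℕ} (blk : Fin n → ℕ) (hb : BlockOK n s blk) (t : ℕ) :
    Nat.card {j : Fin n // blk j = t} ≤ s := by
  classical
  rcases Nat.eq_zero_or_pos n with hn | hn
  · subst hn
    have : Nat.card {j : Fin 0 // blk j = t} = 0 := by
      rw [Nat.card_eq_zero]
      left
      exact ⟨fun x => Fin.elim0 x.1⟩
    omega
  · have h1 := hb t
    have h2 : Nat.card {j : Fin n // t ≤ blk j} ≤ n := by
      rw [Nat.card_eq_fintype_card]
      exact (Fintype.card_subtype_le _).trans (by simp)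
    have h3 : s * Nat.card {j : Fin n // t ≤ blk j} ≤ s * n := Nat.mul_le_mul_left s h2
    have h4 : n * Nat.card {j : Fin n // blk j = t} < n * (s + 1) := by
      calc n * Nat.card {j : Fin n // blk j = t}
          < s * Nat.card {j : Fin n // t ≤ blk j} + n := h1
        _ ≤ s * n + n := by omega
        _ = n * (s + 1) := by ring
    have h5 := lt_of_mul_lt_mul_left h4 (Nat.zero_le n)
    omega

theorem exists_gam (n s r0 r1 q : ℕ) (hq : q + 1 = r0 + r1) (blk : Fin n → ℕ)
    (hb : BlockOK n s blk) (h0 : ∀ j, blk j < 2 ^ r0) (h1 : s ≤ 4 ^ r1) :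
    ∃ Γ : Fin n → Fin (q + 1) → ℕ,
      (∀ j (i : Fin (q + 1)), Γ j i < if (i : ℕ) < r0 then 2 else 4) ∧
      Function.Injective Γ ∧
      (∀ j l, blk j = blk l ↔ ∀ i : Fin (q + 1), (i : ℕ) < r0 → Γ j i = Γ l i) := by
  set Γ : Fin n → Fin (q + 1) → ℕ := fun j i =>
    if (i : ℕ) < r0 then blk j / 2 ^ (i : ℕ) % 2 else ul15_pos blk j / 4 ^ ((i : ℕ) - r0) % 4
    with hΓ
  have hlab : ∀ j l, blk j = blk l ↔ ∀ i : Fin (q + 1), (i : ℕ) < r0 → Γ j i = Γ l i := by
    intro j l
    constructor
    · intro h i hi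
      simp only [hΓ, hi, if_true, h]
    · intro h
      refine ul15_digits 2 r0 _ _ (h0 j) (h0 l) fun i hi => ?_
      have h2 := h ⟨i, by omega⟩ hi
      simpa only [hΓ, hi, if_true] using h2
  refine ⟨Γ, ?_, ?_, hlab⟩
  · intro j i
    simp only [hΓ]
    split_ifs
    · exact Nat.mod_lt _ (by norm_num)
    · exact Nat.mod_lt _ (by norm_num)
  · intro j l h
    have hbl : blk j = blk l := (hlab j l).2 fun i _ => congrFun h i
    refine ul15_pos_inj blk hbl ?_
    have hp : ∀ t : Fin n, ul15_pos blk t < 4 ^ r1 := fun t =>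
      lt_of_lt_of_le (ul15_pos_lt blk t) ((ul15_card_le blk hb _).trans h1)
    refine ul15_digits 4 r1 _ _ (hp j) (hp l) fun i hi => ?_
    have h2 := congrFun h ⟨r0 + i, by omega⟩
    have h3 : ¬ (r0 + i < r0) := by omega
    simpa only [hΓ, h3, if_false, Nat.add_sub_cancel_left] using h2

end Pool.Agent.H52.UL
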