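import Pool.Agent.H52.UL.Defs
import Pool.Agent.H52.UB.LinePoly

/-! Project UL, row UL-9: small points outside of a hypersurface. -/

set_option autoImplicit false

open NumberField Module Polynomial Pool.Agent.H52.UB Pool.Agent.H48.UD

namespace Pool.Agent.H52.UL

/-- a polynomial with integer coefficients in affine linear functions is polynomial on lines -/
private theorem ul9_lp {F V ι : Type*} [Field F] [AddCommGroup V] [Module F V]
    (G : MvPolynomial ι ℤ) (L : ι → V → F)
    (hL : ∀ (i : ι) (x y : V), ∃ b : F, ∀ t : F, L i (x + t • y) = L i x + t * b) :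
    LP G.totalDegree (fun v => MvPolynomial.aeval (fun i => L i v) G) := by
  intro x y
  choose b hb using fun i => hL i x y
  refine ⟨MvPolynomial.aeval (fun i => Polynomial.C (L i x) + Polynomial.X * Polynomial.C (b i))
    G, ?_, ?_⟩
  · rw [MvPolynomial.aeval_def, MvPolynomial.eval₂_eq]
    refine natDegree_sum_le_of_forall_le _ _ fun m hm => ?_
    have h1 : (algebraMap ℤ F[X]) (MvPolynomial.coeff m G) =
        Polynomial.C ((MvPolynomial.coeff m G : ℤ) : F) := by
      simp
    rw [h1]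
    refine (natDegree_C_mul_le _ _).trans ?_
    refine (natDegree_prod_le _ _).trans ?_
    have h2 : ∑ i ∈ m.support, m i ≤ G.totalDegree := MvPolynomial.le_totalDegree hm
    refine le_trans (Finset.sum_le_sum fun i _ => ?_) h2
    refine natDegree_pow_le.trans ?_
    have h3 : (Polynomial.C (L i x) + Polynomial.X * Polynomial.C (b i)).natDegree ≤ 1 := by
      refine (natDegree_add_le _ _).trans (max_le (by rw [natDegree_C]; exact zero_le_one) ?_)
      exact (natDegree_mul_C_le _ _).trans natDegree_X_le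
    calc m i * (Polynomial.C (L i x) + Polynomial.X * Polynomial.C (b i)).natDegree ≤ m i * 1 :=
          Nat.mul_le_mul_left _ h3
      _ = m i := mul_one _
  · intro t
    have h1 : (MvPolynomial.aeval (fun i => Polynomial.C (L i x) +
        Polynomial.X * Polynomial.C (b i)) G).eval t =
        ((Polynomial.aeval t : F[X] →ₐ[F] F).restrictScalars ℤ)
          (MvPolynomial.aeval (fun i => Polynomial.C (L i x) +
            Polynomial.X * Polynomial.C (b i)) G) := by
      rw [AlgHom.restrictScalars_apply, Polynomial.coe_aeval_eq_eval]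
    rw [h1, MvPolynomial.comp_aeval_apply]
    refine congrArg (fun f => MvPolynomial.aeval f G) (funext fun i => ?_)
    rw [hb, AlgHom.restrictScalars_apply, Polynomial.coe_aeval_eq_eval, eval_add, eval_mul,
      eval_C, eval_C, eval_X]

theorem point_of_ne {k : Type} [Field k] [NumberField k] {n r : ℕ}
    (G : MvPolynomial (Fin n × Fin r) ℤ) (s : Fin r → ℕ)
    {M : IntermediateField k (AlgebraicClosure k)} [NumberField M]
    (e : (M →ₐ[k] AlgebraicClosure k) ≃ Fin n) (θ : Fin n → 𝓞 M) (lam : Fin n → ℝ)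
    (hm : MinSys k M n θ lam) (v : Fin r → Fin n → AlgebraicClosure k)
    (hv : ∀ (i : Fin r) (l : Fin n), s i ≤ (l : ℕ) → v i l = 0)
    (hG : MvPolynomial.aeval (fun ρ : Fin n × Fin r =>
      ∑ l, v ρ.2 l * e.symm ρ.1 (θ l : M)) G ≠ 0)
    (L : Fin r → ℝ) (hL : ∀ i, 0 ≤ L i)
    (hlam : ∀ (i : Fin r) (l : Fin n), (l : ℕ) < s i → lam l ≤ L i) :
    ∃ x : Fin r → 𝓞 M, (∀ i, house (x i : M) ≤ (n * G.totalDegree : ℝ) * L i) ∧
      MvPolynomial.aeval (fun ρ : Fin n × Fin r => e.symm ρ.1 (x ρ.2 : M)) G ≠ 0 := by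
  classical
  set f : (Fin r × Fin n → AlgebraicClosure k) → AlgebraicClosure k := fun u =>
    MvPolynomial.aeval (fun ρ : Fin n × Fin r => ∑ l, u (ρ.2, l) * e.symm ρ.1 (θ l : M)) G
    with hf
  have hlp : LP G.totalDegree f := by
    refine ul9_lp G (fun (ρ : Fin n × Fin r) (u : Fin r × Fin n → AlgebraicClosure k) =>
      ∑ l, u (ρ.2, l) * e.symm ρ.1 (θ l : M)) ?_
    intro ρ u y
    refine ⟨∑ l, y (ρ.2, l) * e.symm ρ.1 (θ l : M), fun t => ?_⟩
    rw [Finset.mul_sum, ← Finset.sum_add_distrib]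
    refine Finset.sum_congr rfl fun l _ => ?_
    rw [Pi.add_apply, Pi.smul_apply, smul_eq_mul]
    ring
  obtain ⟨c, hc1, hc2, hc3⟩ := lp_grid G.totalDegree f hlp
    (Finset.univ.filter fun p : Fin r × Fin n => (p.2 : ℕ) < s p.1) (fun p => v p.1 p.2)
    (fun p hp => hv p.1 p.2 (by
      by_contra hlt
      exact hp (Finset.mem_filter.2 ⟨Finset.mem_univ _, not_le.1 hlt⟩))) hG
  refine ⟨fun i => ∑ l, (c (i, l) : 𝓞 M) * θ l, ?_, ?_⟩
  · intro i
    have hcoe : ((∑ l, (c (i, l) : 𝓞 M) * θ l : 𝓞 M) : M) =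
        ∑ l, (c (i, l) : M) * (θ l : M) := by
      simp
    rw [hcoe]
    have hterm : ∀ l ∈ (Finset.univ : Finset (Fin n)), house ((c (i, l) : M) * (θ l : M)) ≤
        (G.totalDegree : ℝ) * L i := by
      intro l _
      rw [house_nat_mul]
      by_cases hl : s i ≤ (l : ℕ)
      · rw [hc2 (i, l) (fun h => absurd (Finset.mem_filter.1 h).2 (not_lt.2 hl))]
        simp only [Nat.cast_zero, zero_mul]
        have := hL i
        positivity
      · have h1 : (c (i, l) : ℝ) ≤ G.totalDegree := by exact_mod_cast hc1 (i, l)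
        have h2 : house (θ l : M) ≤ L i := (hm.le l).trans (hlam i l (not_le.1 hl))
        exact mul_le_mul h1 h2 (house_nonneg _) (by positivity)
    calc house (∑ l, (c (i, l) : M) * (θ l : M)) ≤ ∑ l, house ((c (i, l) : M) * (θ l : M)) :=
          house_sum_le_sum_house _ _
      _ ≤ ∑ _l : Fin n, (G.totalDegree : ℝ) * L i := Finset.sum_le_sum hterm
      _ = (n * G.totalDegree : ℝ) * L i := by
          rw [Finset.sum_const, Finset.card_univ, Fintype.card_fin, nsmul_eq_mul]
          ring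
  · have h1 : (fun ρ : Fin n × Fin r =>
        e.symm ρ.1 ((∑ l, (c (ρ.2, l) : 𝓞 M) * θ l : 𝓞 M) : M)) =
        fun ρ => ∑ l, (c (ρ.2, l) : AlgebraicClosure k) * e.symm ρ.1 (θ l : M) := by
      funext ρ
      simp
    rw [h1]
    exact hc3

end Pool.Agent.H52.UL
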