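import Pool.Agent.H52.UB.Blocks
import Pool.Agent.H52.UL.HalfA
import Pool.Agent.H52.UL.Count
import Pool.Agent.H52.UL.Strong

/-!
# Project UL (MP_a3214d), row UL-15: the bound with half the exponent

Assembly of `exists_blocks`, `exists_gam`, `exists_strong` and `count_ul`.
-/

set_option autoImplicit false

open NumberField Module Polynomial Pool.Agent.H52.UB Pool.Agent.H48.UD

namespace Pool.Agent.H52.UL

theorem half (n s r0 r1 : ℕ) (hn : 1 ≤ n) (hs : 1 ≤ s) (hsn : s ≤ n) (hr0 : 1 ≤ r0)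
    (h0 : (n : ℝ) / s * Real.log n + 1 ≤ 2 ^ r0) (h1 : s ≤ 4 ^ r1) (k : Type) [Field k]
    [NumberField k] (ε : ℝ) (hε : 0 < ε) : ∃ C : ℝ, ∀ B : ℝ, 1 ≤ B → Finite (ExtCls k n B) ∧
      (extCount k n B : ℝ) ≤ C * B ^ (2 * (r0 + r1) * (n / (n - s + 1)) + ε : ℝ) := by
  obtain ⟨T, blk, hb, hT, hTn⟩ := exists_blocks n s hs hsn
  have hT2 : T ≤ 2 ^ r0 := by
    have : (T : ℝ) ≤ ((2 ^ r0 : ℕ) : ℝ) := by push_cast; exact hTn.trans h0
    exact_mod_cast this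
  obtain ⟨q, hq⟩ : ∃ q, q + 1 = r0 + r1 := ⟨r0 + r1 - 1, by omega⟩
  obtain ⟨Γ, hΓ, hinj, hlab⟩ := exists_gam n s r0 r1 q hq blk hb
    (fun j => lt_of_lt_of_le (hT j) hT2) h1
  have hnR : (1 : ℝ) ≤ n := by exact_mod_cast hn
  have hsnR : (s : ℝ) ≤ n := by exact_mod_cast hsn
  have hd : (0 : ℝ) < n - s + 1 := by linarith
  have hqR : ((q : ℝ) + 1) = r0 + r1 := by exact_mod_cast hq
  have hq0 : (0 : ℝ) < (q : ℝ) + 1 := by positivity
  set κ : Fin (q + 1) → ℕ := fun i => if (i : ℕ) < r0 then 2 else 4 with hκ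
  set w : Fin (q + 1) → ℕ := fun i => if (i : ℕ) < r0 then 2 else 1 with hw
  have hw1 : ∀ i, 1 ≤ w i := by
    intro i
    simp only [hw]
    split_ifs <;> norm_num
  have hK : ∀ i, w i * κ i ≤ 4 := by
    intro i
    simp only [hw, hκ]
    split_ifs <;> norm_num
  set ε' : ℝ := ε * (2 * (n - s + 1)) / ((q + 1) * n) with hε'
  have hε'0 : 0 < ε' := by
    rw [hε']
    positivity
  obtain ⟨S, hS⟩ := count_ul k (n := n) (q := q) hn w κ 4 (by norm_num) hw1 hK Γ hΓ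
    (4 + ε') (by push_cast; linarith) (1 / (2 * (n - s + 1))) (by positivity) 0
  obtain ⟨C0, hC0, hM⟩ := exists_strong k (n := n) (q := q) (s := s) (r0 := r0) hn hs hsn hr0 κ Γ hΓ
    hinj blk hb hlab S
  obtain ⟨C, hC⟩ := hS ⟨C0, 1, hC0, one_pos, by
    intro M _ hM1 X hX hd'
    obtain ⟨e, x, hx1, hx2, hx3⟩ := hM M hM1 X hX hd'
    refine ⟨e, {x}, by simp, fun y hy => ?_⟩
    rw [Finset.mem_singleton] at hy
    subst hy
    refine ⟨fun i => ?_, hx2, hx3⟩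
    refine (hx1 i).trans (le_of_eq ?_)
    simp only [hw]
    split_ifs <;> norm_num⟩
  refine ⟨C, fun B hB => ?_⟩
  obtain ⟨hf, hle⟩ := hC B hB
  refine ⟨hf, hle.trans (le_of_eq ?_)⟩
  congr 2
  rw [hε', ← hqR]
  field_simp
  ring

end Pool.Agent.H52.UL
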