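import Mathlib
import Pool.Agent.H52.UB.Minima
import Pool.Agent.H52.UB.Dual
import Pool.Agent.H52.UL.Defs

/-!
# Project UL (MP_a3214d), row UL-18: many small points outside of a hypersurface

Every extension `M` of `k` of degree `n` has at least a constant times `X ^ (r / 2)` points with
`r` integral coordinates of the trivial size at which a given polynomial in the conjugates does not
vanish: the box spanned by the minima over the rational numbers and the Schwartz-Zippel lemma.
-/

set_option autoImplicit false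

open NumberField Module Polynomial Pool.Agent.H52.UB Pool.Agent.H48.UD

namespace Pool.Agent.H52.UL

/-- the total degree of a polynomial in linear forms -/
private theorem ul18_deg {σ τ R S : Type*} [CommRing R] [CommRing S] [Algebra R S]
    (G : MvPolynomial σ R) (L : σ → MvPolynomial τ S) (hL : ∀ ρ, (L ρ).totalDegree ≤ 1) :
    (MvPolynomial.aeval L G).totalDegree ≤ G.totalDegree := by
  classical
  rw [MvPolynomial.aeval_def, MvPolynomial.eval₂_eq]
  refine MvPolynomial.totalDegree_finsetSum_le fun d hd => ?_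
  have h1 : (algebraMap R (MvPolynomial τ S) (MvPolynomial.coeff d G)).totalDegree = 0 := by
    rw [IsScalarTower.algebraMap_apply R S (MvPolynomial τ S), MvPolynomial.algebraMap_eq,
      MvPolynomial.totalDegree_C]
  refine (MvPolynomial.totalDegree_mul _ _).trans ?_
  rw [h1, zero_add]
  refine (MvPolynomial.totalDegree_finsetProd _ _).trans ?_
  refine le_trans (Finset.sum_le_sum fun i _ => ?_) (MvPolynomial.le_totalDegree hd)
  refine (MvPolynomial.totalDegree_pow _ _).trans ?_
  exact (Nat.mul_le_mul_left _ (hL i)).trans (mul_one _).le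

/-- Schwartz-Zippel on a box of natural numbers: at least half of the box is good -/
private theorem ul18_box {F : Type*} [Field F] [CharZero F] {t : ℕ} (p : MvPolynomial (Fin t) F)
    (hp : p ≠ 0) (D : ℕ) (hD : ∀ i, p.degreeOf i ≤ D) (N : Fin t → ℕ)
    (hN : ∀ i, 2 * t * D ≤ N i) :
    ∃ B : Finset (Fin t → ℕ), (∀ c ∈ B, (∀ i, c i ≤ N i) ∧
      MvPolynomial.eval (fun i => (c i : F)) p ≠ 0) ∧
      ∏ i, ((N i : ℝ) + 1) ≤ 2 * B.card := by
  classical
  set S : Fin t → Finset F := fun i => (Finset.range (N i + 1)).image (fun c : ℕ => (c : F))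
    with hS
  have hcard : ∀ i, (S i).card = N i + 1 := fun i => by
    rw [hS]
    show ((Finset.range (N i + 1)).image (fun c : ℕ => (c : F))).card = N i + 1
    rw [Finset.card_image_of_injective _ Nat.cast_injective, Finset.card_range]
  set P : Finset (Fin t → ℕ) := Fintype.piFinset fun i => Finset.range (N i + 1) with hP
  have hPcard : P.card = ∏ i, (N i + 1) := by
    rw [hP, Fintype.card_piFinset]
    simp
  have hsz := MvPolynomial.schwartz_zippel_sum_degreeOf hp S
  set bad : Finset (Fin t → F) := (Fintype.piFinset fun i : Fin t => S i).filter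
    (fun x => MvPolynomial.eval x p = 0) with hbad
  have hb1 : (P.filter (fun c => MvPolynomial.eval (fun i => (c i : F)) p = 0)).card ≤
      bad.card := by
    refine Finset.card_le_card_of_injOn (fun c i => (c i : F)) ?_ ?_
    · intro c hc
      rw [Finset.mem_coe, Finset.mem_filter] at hc
      rw [Finset.mem_coe, hbad, Finset.mem_filter]
      refine ⟨?_, hc.2⟩
      rw [Fintype.mem_piFinset]
      intro i
      have h1 := hc.1
      rw [hP, Fintype.mem_piFinset] at h1
      exact Finset.mem_image_of_mem _ (h1 i)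
    · intro c _ c' _ h
      funext i
      exact Nat.cast_injective (R := F) (congrFun h i)
  have hb2 : 2 * bad.card ≤ ∏ i, (N i + 1) := by
    have h1 : (∑ i, (p.degreeOf i / (S i).card : NNRat)) ≤ 1 / 2 := by
      rcases Nat.eq_zero_or_pos t with h0 | h0
      · subst h0
        simp
      · calc (∑ i, (p.degreeOf i / (S i).card : NNRat)) ≤ ∑ _i : Fin t, (1 / (2 * t) : NNRat) := by
              refine Finset.sum_le_sum fun i _ => ?_
              rw [hcard, div_le_div_iff₀ (by positivity) (by positivity), one_mul]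
              have h2 : p.degreeOf i * (2 * t) ≤ N i + 1 := by
                calc p.degreeOf i * (2 * t) ≤ D * (2 * t) := Nat.mul_le_mul_right _ (hD i)
                  _ = 2 * t * D := by ring
                  _ ≤ N i := hN i
                  _ ≤ N i + 1 := Nat.le_succ _
              exact_mod_cast h2
          _ = 1 / 2 := by
              rw [Finset.sum_const, Finset.card_univ, Fintype.card_fin, nsmul_eq_mul]
              field_simp
    have h2 := hsz.trans h1
    have h3 : (∏ i, ((S i).card : NNRat)) = ((∏ i, (N i + 1) : ℕ) : NNRat) := by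
      rw [Nat.cast_prod]
      exact Finset.prod_congr rfl fun i _ => by rw [hcard]
    rw [h3] at h2
    have h4 : (0 : NNRat) < ((∏ i, (N i + 1) : ℕ) : NNRat) := by
      exact_mod_cast Finset.prod_pos fun i _ => Nat.succ_pos _
    rw [div_le_div_iff₀ h4 (by norm_num), one_mul] at h2
    have h5 : bad.card * 2 ≤ ∏ i, (N i + 1) := by exact_mod_cast h2
    omega
  refine ⟨P.filter (fun c => ¬ MvPolynomial.eval (fun i => (c i : F)) p = 0), ?_, ?_⟩
  · intro c hc
    rw [Finset.mem_filter] at hc
    refine ⟨fun i => ?_, hc.2⟩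
    have h1 := hc.1
    rw [hP, Fintype.mem_piFinset] at h1
    have h2 := Finset.mem_range.1 (h1 i)
    omega
  · have h1 := Finset.card_filter_add_card_filter_not (s := P)
      (fun c => MvPolynomial.eval (fun i => (c i : F)) p = 0)
    rw [hPcard] at h1
    have h2 : (∏ i, (N i + 1)) ≤
        2 * (P.filter (fun c => ¬ MvPolynomial.eval (fun i => (c i : F)) p = 0)).card := by
      omega
    have h3 : (((∏ i, (N i + 1) : ℕ)) : ℝ) ≤
        ((2 * (P.filter (fun c => ¬ MvPolynomial.eval (fun i => (c i : F)) p = 0)).card : ℕ) : ℝ) :=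
      Nat.cast_le.2 h2
    push_cast at h3
    exact h3

/-- the vectors of the conjugates of a basis over the rational numbers span everything -/
private theorem ul18_surj {k : Type} [Field k] [NumberField k] {n N : ℕ}
    {M : IntermediateField k (AlgebraicClosure k)} [NumberField M]
    (e : (M →ₐ[k] AlgebraicClosure k) ≃ Fin n) (ω : Fin N → M)
    (hω : ⊤ ≤ Submodule.span ℚ (Set.range ω)) (f : Fin n → AlgebraicClosure k) :
    ∃ c : Fin N → AlgebraicClosure k, ∀ j, ∑ l, c l * e.symm j (ω l) = f j := by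
  classical
  set v : Fin N → Fin n → AlgebraicClosure k := fun l j => e.symm j (ω l) with hv
  have htop : Submodule.span (AlgebraicClosure k) (Set.range v) = ⊤ := by
    by_contra hcon
    obtain ⟨φ, hφ0, hφ⟩ := Submodule.exists_le_ker_of_lt_top _ (lt_top_iff_ne_top.2 hcon)
    apply hφ0
    set a : Fin n → AlgebraicClosure k := fun j => φ (Pi.single j 1) with ha
    have hφa : ∀ y : Fin n → AlgebraicClosure k, φ y = ∑ j, a j * y j := by
      intro y
      rw [φ.pi_apply_eq_sum_univ y]
      refine Finset.sum_congr rfl fun j _ => ?_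
      rw [smul_eq_mul, mul_comm, ha]
      congr 2
      funext i
      rw [Pi.single_apply]
      by_cases hij : i = j
      · subst hij
        simp
      · rw [if_neg hij, if_neg (Ne.symm hij)]
    have h1 : ∀ l, ∑ j, a j * e.symm j (ω l) = 0 := by
      intro l
      have h2 : v l ∈ LinearMap.ker φ := hφ (Submodule.subset_span ⟨l, rfl⟩)
      rw [LinearMap.mem_ker, hφa] at h2
      exact h2
    have h2 : ∀ x : M, ∑ j, a j * e.symm j x = 0 := by
      intro x
      have hx : x ∈ Submodule.span ℚ (Set.range ω) := hω Submodule.mem_top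
      induction hx using Submodule.span_induction with
      | mem m hm =>
        obtain ⟨l, rfl⟩ := hm
        exact h1 l
      | zero => simp
      | add x y _ _ hx hy =>
        simp only [map_add, mul_add, Finset.sum_add_distrib]
        rw [hx, hy, add_zero]
      | smul c x _ hx =>
        have h3 : ∀ j, e.symm j (c • x) = (c : AlgebraicClosure k) * e.symm j x := by
          intro j
          rw [Rat.smul_def, map_mul, map_ratCast]
        simp only [h3]
        calc ∑ j, a j * ((c : AlgebraicClosure k) * e.symm j x) =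
            (c : AlgebraicClosure k) * ∑ j, a j * e.symm j x := by
              rw [Finset.mul_sum]
              exact Finset.sum_congr rfl fun j _ => by ring
          _ = 0 := by rw [hx, mul_zero]
    have hli := linearIndependent_monoidHom M (AlgebraicClosure k)
    have hinj : Function.Injective fun j : Fin n =>
        ((e.symm j : M →ₐ[k] AlgebraicClosure k) : M →* AlgebraicClosure k) := by
      intro j j' h
      apply e.symm.injective
      ext x
      exact congrArg (fun g : M →* AlgebraicClosure k => g x) h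
    have hli2 := hli.comp _ hinj
    rw [Fintype.linearIndependent_iff] at hli2
    have h4 := hli2 a (by
      funext x
      simpa [Finset.sum_apply] using h2 x)
    ext j
    simpa using h4 j
  have hf : f ∈ Submodule.span (AlgebraicClosure k) (Set.range v) := by
    rw [htop]
    exact Submodule.mem_top
  rw [Submodule.mem_span_range_iff_exists_fun] at hf
  obtain ⟨c, hc⟩ := hf
  refine ⟨c, fun j => ?_⟩
  rw [← hc]
  simp [hv]

/-- from a bound of a natural power to a bound with a real exponent -/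
private theorem ul18_rpow {L C0 X : ℝ} {N : ℕ} (hN : 1 ≤ N) (hL : 0 ≤ L)
    (hX : 1 ≤ X) (h : L ^ N ≤ (C0 * √X) ^ 2) :
    L ≤ (1 + C0 ^ 2) * X ^ (1 / (N : ℝ)) := by
  have hN0 : (N : ℝ) ≠ 0 := by positivity
  have hX0 : 0 ≤ X := by linarith
  have h1 : (C0 * √X) ^ 2 = C0 ^ 2 * X := by
    rw [mul_pow, Real.sq_sqrt hX0]
  rw [h1] at h
  have h2 : L = (L ^ N) ^ (1 / (N : ℝ)) := by
    rw [← Real.rpow_natCast, ← Real.rpow_mul hL, mul_one_div_cancel hN0, Real.rpow_one]
  have h3 : (L ^ N) ^ (1 / (N : ℝ)) ≤ ((1 + C0 ^ 2) * X) ^ (1 / (N : ℝ)) := by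
    refine Real.rpow_le_rpow (by positivity) (h.trans ?_) (by positivity)
    nlinarith [sq_nonneg C0]
  have h4 : (1 + C0 ^ 2) ^ (1 / (N : ℝ)) ≤ (1 + C0 ^ 2) ^ (1 : ℝ) := by
    refine Real.rpow_le_rpow_of_exponent_le (by nlinarith [sq_nonneg C0]) ?_
    rw [div_le_one (by positivity)]
    exact_mod_cast hN
  rw [Real.rpow_one] at h4
  calc L = (L ^ N) ^ (1 / (N : ℝ)) := h2
    _ ≤ ((1 + C0 ^ 2) * X) ^ (1 / (N : ℝ)) := h3
    _ = (1 + C0 ^ 2) ^ (1 / (N : ℝ)) * X ^ (1 / (N : ℝ)) :=
        Real.mul_rpow (by positivity) hX0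
    _ ≤ _ := mul_le_mul_of_nonneg_right h4 (by positivity)

/-- the minima over the rational numbers -/
private theorem ul18_minima (N : ℕ) (hN : 1 ≤ N) : ∃ C0 C1 : ℝ, 0 < C0 ∧ 1 ≤ C1 ∧
    ∀ (K : Type) [Field K] [NumberField K], finrank ℚ K = N → ∀ X : ℝ, 1 ≤ X →
      |(discr K : ℝ)| ≤ X → ∃ (ω : Fin N → 𝓞 K) (mu : Fin N → ℝ), MinSys ℚ K N ω mu ∧
        ∏ i, mu i ≤ C0 * √X ∧ ∀ i, mu i ≤ C1 * X ^ (1 / (N : ℝ)) := by
  obtain ⟨C0, hC0, hmink⟩ := minkowski_second N
  refine ⟨C0, 1 + C0 ^ 2, hC0, by nlinarith [sq_nonneg C0], ?_⟩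
  intro K _ _ hK X hX hdisc
  obtain ⟨ω, mu, hmin⟩ := exists_minSys ℚ K N hK
  have hsqrt : √|(discr K : ℝ)| ≤ √X := Real.sqrt_le_sqrt hdisc
  have hprod : ∏ i, mu i ≤ C0 * √X :=
    (hmink K hK ω mu hmin).trans (mul_le_mul_of_nonneg_left hsqrt hC0.le)
  refine ⟨ω, mu, hmin, hprod, fun i => ?_⟩
  set l : Fin N := ⟨N - 1, by omega⟩ with hl
  have hl1 : (l : ℕ) + 1 = N := by
    rw [hl]
    show N - 1 + 1 = N
    omega
  have h1 := lam_top (m := 1) mu hmin.one_le l hl1
    (fun i j hij => dual_submul hK hmin i j l hij hl1) (C0 * √X) (by rw [pow_one]; exact hprod)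
  rw [one_mul] at h1
  have h2 := ul18_rpow hN (zero_le_one.trans (hmin.one_le l)) hX h1
  refine (hmin.mono ?_).trans h2
  rw [Fin.le_def]
  omega

theorem exists_pointsG (k : Type) [Field k] [NumberField k] {n r : ℕ} (hn : 1 ≤ n)
    (G : MvPolynomial (Fin n × Fin r) ℤ) (hG : G ≠ 0) :
    ∃ C c1 : ℝ, 1 ≤ C ∧ 0 < c1 ∧
      ∀ (M : IntermediateField k (AlgebraicClosure k)) [NumberField M], finrank k M = n →
      ∀ X : ℝ, 1 ≤ X → |(discr M : ℝ)| ≤ X → ∀ e : (M →ₐ[k] AlgebraicClosure k) ≃ Fin n,
      ∃ T : Finset (Fin r → 𝓞 M), c1 * X ^ ((r : ℝ) / 2) ≤ T.card ∧ ∀ x ∈ T,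
        (∀ i, house (x i : M) ≤ C * X ^ (1 / (n * finrank ℚ k : ℝ))) ∧
        MvPolynomial.aeval (fun ρ : Fin n × Fin r => e.symm ρ.1 (x ρ.2 : M)) G ≠ 0 := by
  classical
  have hm : 1 ≤ finrank ℚ k := finrank_pos
  obtain ⟨N, hNdef⟩ : ∃ N : ℕ, N = n * finrank ℚ k := ⟨_, rfl⟩
  have hN : 1 ≤ N := by
    rw [hNdef]
    exact Nat.mul_pos hn hm
  have hNR : (n * finrank ℚ k : ℝ) = (N : ℝ) := by
    rw [hNdef]
    push_cast
    rfl
  obtain ⟨C0, C1, hC0, hC1, hmain⟩ := ul18_minima N hN
  obtain ⟨A, hAdef⟩ : ∃ A : ℕ, A = 2 * (r * N) * G.totalDegree + 1 := ⟨_, rfl⟩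
  have hA1 : (1 : ℝ) ≤ A := by
    rw [hAdef]
    push_cast
    have : (0 : ℝ) ≤ 2 * (r * N) * G.totalDegree := by positivity
    linarith
  have hN1 : (1 : ℝ) ≤ N := by exact_mod_cast hN
  refine ⟨N * (C1 * A), 1 / 2 * (1 / C0) ^ r, ?_, by positivity, ?_⟩
  · have h1 : (1 : ℝ) ≤ C1 * A := by nlinarith
    nlinarith
  intro M _ hd X hX hdisc e
  have hX0 : (0 : ℝ) < X := by linarith
  have hdQ : finrank ℚ M = N := by
    rw [← finrank_mul_finrank ℚ k M, hd, mul_comm, hNdef]
  obtain ⟨ω, mu, hmin, hprod, hmu⟩ := hmain M hdQ X hX hdisc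
  have hmu0 : ∀ i, 0 < mu i := fun i => lt_of_lt_of_le one_pos (hmin.one_le i)
  rw [hNR]
  set E : ℝ := X ^ (1 / (N : ℝ)) with hE
  have hE0 : 0 < E := Real.rpow_pos_of_pos hX0 _
  set H : ℝ := C1 * A * E with hH
  have hH0 : 0 < H := by positivity
  -- the sides of the box
  set s : Fin N → ℕ := fun l => ⌊H / mu l⌋₊ with hs
  have hsA : ∀ l, A ≤ s l := by
    intro l
    refine Nat.le_floor ?_
    rw [le_div_iff₀ (hmu0 l)]
    calc (A : ℝ) * mu l ≤ A * (C1 * E) := mul_le_mul_of_nonneg_left (hmu l) (by positivity)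
      _ = H := by rw [hH]; ring
  have hsH : ∀ l, (s l : ℝ) * mu l ≤ H := by
    intro l
    have h1 : (s l : ℝ) ≤ H / mu l := Nat.floor_le (by have := hmu0 l; positivity)
    rwa [le_div_iff₀ (hmu0 l)] at h1
  have hsprod : √X / C0 ≤ ∏ l, ((s l : ℝ) + 1) := by
    have h1 : ∏ l, (H / mu l) ≤ ∏ l, ((s l : ℝ) + 1) := by
      refine Finset.prod_le_prod (fun l _ => by have := hmu0 l; positivity) fun l _ => ?_
      exact (Nat.lt_floor_add_one _).le
    refine le_trans ?_ h1
    rw [Finset.prod_div_distrib, Finset.prod_const, Finset.card_univ, Fintype.card_fin]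
    have h2 : X ≤ H ^ N := by
      have h3 : E ^ N = X := by
        rw [hE, ← Real.rpow_natCast, ← Real.rpow_mul hX0.le, one_div_mul_cancel (by positivity),
          Real.rpow_one]
      calc X = 1 ^ N * E ^ N := by rw [one_pow, one_mul, h3]
        _ ≤ (C1 * A) ^ N * E ^ N := by
            refine mul_le_mul_of_nonneg_right ?_ (by positivity)
            exact pow_le_pow_left₀ zero_le_one (by nlinarith) _
        _ = H ^ N := by rw [hH, ← mul_pow]
    have h4 : 0 < ∏ i, mu i := Finset.prod_pos fun i _ => hmu0 i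
    rw [div_le_div_iff₀ hC0 h4]
    calc √X * ∏ i, mu i ≤ √X * (C0 * √X) :=
          mul_le_mul_of_nonneg_left hprod (Real.sqrt_nonneg _)
      _ = X * C0 := by
          have := Real.mul_self_sqrt hX0.le
          nlinarith
      _ ≤ H ^ N * C0 := mul_le_mul_of_nonneg_right h2 hC0.le
  -- the polynomial in the coordinates
  have hspan : ⊤ ≤ Submodule.span ℚ (Set.range fun l => (ω l : M)) := by
    have h1 := hmin.indep.span_eq_top_of_card_eq_finrank' (by rw [Fintype.card_fin, hdQ])
    exact h1.ge
  set F : MvPolynomial (Fin (r * N)) (AlgebraicClosure k) :=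
    MvPolynomial.aeval (fun ρ : Fin n × Fin r => ∑ l : Fin N,
      MvPolynomial.C (e.symm ρ.1 (ω l : M)) * MvPolynomial.X (finProdFinEquiv (ρ.2, l))) G with hF
  have hFeval : ∀ c : Fin (r * N) → AlgebraicClosure k, MvPolynomial.eval c F =
      MvPolynomial.aeval (fun ρ : Fin n × Fin r =>
        ∑ l : Fin N, c (finProdFinEquiv (ρ.2, l)) * e.symm ρ.1 (ω l : M)) G := by
    intro c
    have h1 := MvPolynomial.comp_aeval_apply
      (f := fun ρ : Fin n × Fin r => ∑ l : Fin N, MvPolynomial.C (e.symm ρ.1 (ω l : M)) *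
        (MvPolynomial.X (finProdFinEquiv (ρ.2, l)) :
          MvPolynomial (Fin (r * N)) (AlgebraicClosure k)))
      ((MvPolynomial.aeval c : MvPolynomial (Fin (r * N)) (AlgebraicClosure k) →ₐ[
        AlgebraicClosure k] AlgebraicClosure k).restrictScalars ℤ) G
    have h2 : MvPolynomial.eval c F = ((MvPolynomial.aeval c :
        MvPolynomial (Fin (r * N)) (AlgebraicClosure k) →ₐ[AlgebraicClosure k]
          AlgebraicClosure k).restrictScalars ℤ) F := by
      rw [AlgHom.restrictScalars_apply]
      exact (congrFun (MvPolynomial.aeval_eq_eval c) F).symm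
    rw [h2, hF, h1]
    congr 2
    funext ρ
    simp [mul_comm]
  have hFne : F ≠ 0 := by
    intro h0
    apply hG
    have hinjZ : Function.Injective (Int.castRingHom (AlgebraicClosure k)) := Int.cast_injective
    have h1 : MvPolynomial.map (Int.castRingHom (AlgebraicClosure k)) G = 0 := by
      have : Infinite (AlgebraicClosure k) := CharZero.infinite _
      refine MvPolynomial.funext fun y => ?_
      rw [map_zero, MvPolynomial.eval_map]
      -- the values `y` are attained
      have h2 : ∀ i : Fin r, ∃ c : Fin N → AlgebraicClosure k, ∀ j : Fin n,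
          ∑ l, c l * e.symm j (ω l : M) = y (j, i) := fun i =>
        ul18_surj e (fun l => (ω l : M)) hspan (fun j => y (j, i))
      choose c hc using h2
      have h3 := hFeval (fun t => c (finProdFinEquiv.symm t).1 (finProdFinEquiv.symm t).2)
      rw [h0, map_zero] at h3
      have h4 : (fun ρ : Fin n × Fin r => ∑ l : Fin N,
          c (finProdFinEquiv.symm (finProdFinEquiv (ρ.2, l))).1
            (finProdFinEquiv.symm (finProdFinEquiv (ρ.2, l))).2 * e.symm ρ.1 (ω l : M)) = y := by
        funext ρ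
        simp only [Equiv.symm_apply_apply]
        exact hc ρ.2 ρ.1
      rw [h4, MvPolynomial.aeval_def] at h3
      exact h3.symm
    exact MvPolynomial.map_injective _ hinjZ (by rw [h1, map_zero])
  have hFdeg : ∀ t, F.degreeOf t ≤ G.totalDegree := by
    intro t
    refine (MvPolynomial.degreeOf_le_totalDegree _ _).trans ?_
    rw [hF]
    refine ul18_deg G _ fun ρ => ?_
    refine MvPolynomial.totalDegree_finsetSum_le fun l _ => ?_
    refine (MvPolynomial.totalDegree_mul _ _).trans ?_
    rw [MvPolynomial.totalDegree_C, MvPolynomial.totalDegree_X]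
  obtain ⟨B, hB1, hB2⟩ := ul18_box F hFne G.totalDegree hFdeg
    (fun t => s (finProdFinEquiv.symm t).2) (fun t => by
      have h1 := hsA (finProdFinEquiv.symm t).2
      show 2 * (r * N) * G.totalDegree ≤ s (finProdFinEquiv.symm t).2
      omega)
  set x : (Fin (r * N) → ℕ) → Fin r → 𝓞 M := fun c i =>
    ∑ l : Fin N, (c (finProdFinEquiv (i, l)) : 𝓞 M) * ω l with hx
  have hxc : ∀ c i, ((x c i : 𝓞 M) : M) =
      ∑ l : Fin N, (c (finProdFinEquiv (i, l)) : M) * (ω l : M) := by
    intro c i
    rw [hx]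
    simp
  have hxinj : Function.Injective x := by
    intro c c' h
    funext t
    obtain ⟨⟨i, l⟩, rfl⟩ := finProdFinEquiv.surjective t
    have h1 : ((x c i : 𝓞 M) : M) = ((x c' i : 𝓞 M) : M) := by rw [h]
    rw [hxc, hxc] at h1
    have h2 := (Fintype.linearIndependent_iff.1 hmin.indep)
      (fun l => (c (finProdFinEquiv (i, l)) : ℚ) - (c' (finProdFinEquiv (i, l)) : ℚ)) (by
        have h3 : ∀ l, ((c (finProdFinEquiv (i, l)) : ℚ) - (c' (finProdFinEquiv (i, l)) : ℚ)) •
            (ω l : M) = (c (finProdFinEquiv (i, l)) : M) * (ω l : M) -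
              (c' (finProdFinEquiv (i, l)) : M) * (ω l : M) := by
          intro l
          rw [Rat.smul_def]
          push_cast
          ring
        simp only [h3]
        rw [Finset.sum_sub_distrib, h1, sub_self]) l
    have h4 : (c (finProdFinEquiv (i, l)) : ℚ) = c' (finProdFinEquiv (i, l)) := sub_eq_zero.1 h2
    exact_mod_cast h4
  refine ⟨B.image x, ?_, ?_⟩
  · rw [Finset.card_image_of_injective _ hxinj]
    have h1 : ∏ t : Fin (r * N), ((s (finProdFinEquiv.symm t).2 : ℝ) + 1) =
        (∏ l, ((s l : ℝ) + 1)) ^ r := by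
      rw [← finProdFinEquiv.prod_comp, Fintype.prod_prod_type]
      simp
    rw [h1] at hB2
    have h2 : (√X / C0) ^ r ≤ (∏ l, ((s l : ℝ) + 1)) ^ r :=
      pow_le_pow_left₀ (by positivity) hsprod _
    have h3 : X ^ ((r : ℝ) / 2) = √X ^ r := by
      rw [Real.sqrt_eq_rpow, ← Real.rpow_natCast, ← Real.rpow_mul hX0.le]
      congr 1
      ring
    have h4 : (1 / C0) ^ r * X ^ ((r : ℝ) / 2) = (√X / C0) ^ r := by
      rw [h3, ← mul_pow]
      congr 1
      ring
    calc 1 / 2 * (1 / C0) ^ r * X ^ ((r : ℝ) / 2) = 1 / 2 * (√X / C0) ^ r := by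
          rw [mul_assoc, h4]
      _ ≤ B.card := by linarith
  · intro y hy
    obtain ⟨c, hc, rfl⟩ := Finset.mem_image.1 hy
    obtain ⟨hc1, hc2⟩ := hB1 c hc
    refine ⟨fun i => ?_, ?_⟩
    · rw [hxc]
      have hterm : ∀ l ∈ (Finset.univ : Finset (Fin N)),
          house ((c (finProdFinEquiv (i, l)) : M) * (ω l : M)) ≤ H := by
        intro l _
        rw [house_nat_mul]
        have h1 : (c (finProdFinEquiv (i, l)) : ℝ) ≤ s l := by
          have h2 := hc1 (finProdFinEquiv (i, l))
          rw [Equiv.symm_apply_apply] at h2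
          exact_mod_cast h2
        calc (c (finProdFinEquiv (i, l)) : ℝ) * house (ω l : M) ≤ s l * mu l :=
              mul_le_mul h1 (hmin.le l) (house_nonneg _) (by positivity)
          _ ≤ H := hsH l
      calc house (∑ l, (c (finProdFinEquiv (i, l)) : M) * (ω l : M)) ≤
            ∑ l, house ((c (finProdFinEquiv (i, l)) : M) * (ω l : M)) :=
            house_sum_le_sum_house _ _
        _ ≤ ∑ _l : Fin N, H := Finset.sum_le_sum hterm
        _ = N * (C1 * A) * E := by
            rw [Finset.sum_const, Finset.card_univ, Fintype.card_fin, nsmul_eq_mul, hH]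
            ring
    · rw [hFeval] at hc2
      convert hc2 using 3
      funext ρ
      rw [hxc, map_sum]
      exact Finset.sum_congr rfl fun l _ => by rw [map_mul, map_natCast]

end Pool.Agent.H52.UL
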