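import Pool.Agent.H52.UB.Ext
import Pool.Agent.H8.UW.Plain
import Pool.Agent.H8.UW.Half
import Pool.Agent.H8.UW.Asym

/-!
# Projects UL, UW (MP_a3214d): the final theorem with an exponent function

The exponent `E n` is the infimum of the explicit exponents of `plain` and `half`.
-/

set_option autoImplicit false

open NumberField Module Polynomial Filter Pool.Agent.H52.UB

namespace Pool.Agent.H52.UL

/-- the explicit exponents -/
def expSet (n : ℕ) : Set ℝ :=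
  {e | (∃ (q : ℕ) (κ : Fin (q + 1) → ℕ), n ≤ ∏ i, κ i ∧ e = ∑ i, ((κ i : ℝ) - 1 / 2)) ∨
    ∃ s r0 r1 : ℕ, 1 ≤ s ∧ s ≤ n ∧ 1 ≤ r0 ∧ (n : ℝ) / s * Real.log n + 1 ≤ 2 ^ r0 ∧
      s ≤ 3 ^ r1 ∧ e = (4 * (r0 : ℝ) + 3 * r1) / 2 * (n / (n - s + 1))}

theorem expSet_nonneg {n : ℕ} (hn : 1 ≤ n) {e : ℝ} (he : e ∈ expSet n) : 0 ≤ e := by
  rcases he with ⟨q, κ, hκ, rfl⟩ | ⟨s, r0, r1, hs, hsn, -, -, -, rfl⟩
  · refine Finset.sum_nonneg fun i _ => ?_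
    have h0 : κ i ≠ 0 := fun h => by
      have : ∏ i, κ i = 0 := Finset.prod_eq_zero (Finset.mem_univ i) h
      omega
    have h1 : (1 : ℝ) ≤ κ i := by exact_mod_cast Nat.one_le_iff_ne_zero.mpr h0
    linarith
  · have h1 : (s : ℝ) ≤ n := by exact_mod_cast hsn
    have h2 : (0 : ℝ) ≤ (n : ℝ) / (n - s + 1) := div_nonneg (Nat.cast_nonneg n) (by linarith)
    positivity

theorem expSet_bddBelow {n : ℕ} (hn : 1 ≤ n) : BddBelow (expSet n) :=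
  ⟨0, fun _ he => expSet_nonneg hn he⟩

theorem expSet_nonempty (n : ℕ) : (expSet n).Nonempty :=
  ⟨_, Or.inl ⟨0, fun _ => n, by simp, rfl⟩⟩

theorem expSet_bound {n : ℕ} (hn : 1 ≤ n) {e : ℝ} (he : e ∈ expSet n) (k : Type) [Field k]
    [NumberField k] (ε : ℝ) (hε : 0 < ε) : ∃ C : ℝ, ∀ B : ℝ, 1 ≤ B → Finite (ExtCls k n B) ∧
      (extCount k n B : ℝ) ≤ C * B ^ (e + ε) := by
  rcases he with ⟨q, κ, hκ, rfl⟩ | ⟨s, r0, r1, hs, hsn, hr0, h0, h1, rfl⟩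
  · exact Pool.Agent.H8.UW.plain n q κ hn hκ k ε hε
  · exact Pool.Agent.H8.UW.half n s r0 r1 hn hs hsn hr0 h0 h1 k ε hε

theorem main2x :
      (∀ (n q : ℕ) (κ : Fin (q + 1) → ℕ), 1 ≤ n → n ≤ ∏ i, κ i →
        sInf (expSet n) ≤ ∑ i, ((κ i : ℝ) - 1 / 2)) ∧
      (∀ c : ℝ, 3 / (2 * Real.log 3) < c → ∀ᶠ n : ℕ in atTop,
        sInf (expSet n) ≤ c * Real.log n) ∧
      ∀ n : ℕ, 1 ≤ n → ∀ (k : Type) [Field k] [NumberField k] (ε : ℝ), 0 < ε →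
        ∃ C : ℝ, ∀ B : ℝ, 1 ≤ B →
          Finite (ExtCls k n B) ∧ (extCount k n B : ℝ) ≤ C * B ^ (sInf (expSet n) + ε) ∧
          ∀ G : Subgroup (Equiv.Perm (Fin n)),
            (Pool.Agent.H67.MU.malleCount k n G B : ℝ) ≤ C * B ^ (sInf (expSet n) + ε) := by
  refine ⟨?_, ?_, ?_⟩
  · intro n q κ hn hκ
    exact csInf_le (expSet_bddBelow hn) (Or.inl ⟨q, κ, hκ, rfl⟩)
  · intro c hc
    obtain ⟨n0, h0⟩ := Pool.Agent.H8.UW.asym c hc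
    filter_upwards [eventually_ge_atTop (max n0 1)] with n hn
    obtain ⟨s, r0, r1, hs, hsn, hr0, ha, hb, hlt⟩ := h0 n (le_trans (le_max_left _ _) hn)
    exact le_trans (csInf_le (expSet_bddBelow (le_trans (le_max_right _ _) hn))
      (Or.inr ⟨s, r0, r1, hs, hsn, hr0, ha, hb, rfl⟩)) hlt.le
  · intro n hn k _ _ ε hε
    obtain ⟨e, he, hlt⟩ := exists_lt_of_csInf_lt (expSet_nonempty n)
      (show sInf (expSet n) < sInf (expSet n) + ε / 2 by linarith)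
    obtain ⟨C, hC⟩ := expSet_bound hn he k (ε / 2) (by linarith)
    refine ⟨C, fun B hB => ?_⟩
    obtain ⟨hf, hb⟩ := hC B hB
    have hC0 : 0 ≤ C := by
      have h1 : (0 : ℝ) ≤ C * B ^ (e + ε / 2) := le_trans (Nat.cast_nonneg _) hb
      have h2 : (0 : ℝ) < B ^ (e + ε / 2) := Real.rpow_pos_of_pos (by linarith) _
      exact nonneg_of_mul_nonneg_left h1 h2
    have hb' : (extCount k n B : ℝ) ≤ C * B ^ (sInf (expSet n) + ε) :=
      le_trans hb (mul_le_mul_of_nonneg_left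
        (Real.rpow_le_rpow_of_exponent_le hB (by linarith)) hC0)
    refine ⟨hf, hb', fun G => le_trans ?_ hb'⟩
    exact_mod_cast malle_le_ext k n G B hf

theorem main2 :
    ∃ E : ℕ → ℝ,
      (∀ (n q : ℕ) (κ : Fin (q + 1) → ℕ), 1 ≤ n → n ≤ ∏ i, κ i →
        E n ≤ ∑ i, ((κ i : ℝ) - 1 / 2)) ∧
      (∀ c : ℝ, 3 / (2 * Real.log 3) < c → ∀ᶠ n : ℕ in atTop, E n ≤ c * Real.log n) ∧
      ∀ n : ℕ, 1 ≤ n → ∀ (k : Type) [Field k] [NumberField k] (ε : ℝ), 0 < ε →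
        ∃ C : ℝ, ∀ B : ℝ, 1 ≤ B →
          Finite (ExtCls k n B) ∧ (extCount k n B : ℝ) ≤ C * B ^ (E n + ε) ∧
          ∀ G : Subgroup (Equiv.Perm (Fin n)),
            (Pool.Agent.H67.MU.malleCount k n G B : ℝ) ≤ C * B ^ (E n + ε) :=
  ⟨fun n => sInf (expSet n), main2x⟩

theorem cls_le_ext (k : Type) [Field k] [NumberField k] (n : ℕ)
    (Q : IntermediateField k (AlgebraicClosure k) → Prop) (B : ℝ) (hf : Finite (ExtCls k n B)) :
    Finite (Cls k n Q B) ∧ Nat.card (Cls k n Q B) ≤ extCount k n B := by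
  have hinj : Function.Injective (Quot.map (fun L => ⟨L.1, L.2.1, L.2.2.2⟩) fun _ _ h => h :
      Cls k n Q B → ExtCls k n B) := by
    intro x y
    induction x using Quot.ind with | _ x => ?_
    induction y using Quot.ind with | _ y => ?_
    intro h
    exact Quot.sound (ub34_exact h)
  exact ⟨Finite.of_injective _ hinj, Nat.card_le_card_of_injective _ hinj⟩

theorem main3 :
    ∃ E : ℕ → ℝ,
      (∀ (n q : ℕ) (κ : Fin (q + 1) → ℕ), 1 ≤ n → n ≤ ∏ i, κ i →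
        E n ≤ ∑ i, ((κ i : ℝ) - 1 / 2)) ∧
      (∀ c : ℝ, 3 / (2 * Real.log 3) < c → ∀ᶠ n : ℕ in atTop, E n ≤ c * Real.log n) ∧
      ∀ n : ℕ, 1 ≤ n → ∀ (k : Type) [Field k] [NumberField k] (ε : ℝ), 0 < ε →
        ∃ C : ℝ, ∀ B : ℝ, 1 ≤ B → ∀ Q : IntermediateField k (AlgebraicClosure k) → Prop,
          ∃ N : ℕ, Nonempty (Cls k n Q B ≃ Fin N) ∧ (N : ℝ) ≤ C * B ^ (E n + ε) := by
  obtain ⟨E, h1, h2, h3⟩ := main2
  refine ⟨E, h1, h2, fun n hn k _ _ ε hε => ?_⟩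
  obtain ⟨C, hC⟩ := h3 n hn k ε hε
  refine ⟨C, fun B hB Q => ?_⟩
  obtain ⟨hf, hb, -⟩ := hC B hB
  obtain ⟨hf', hb'⟩ := cls_le_ext k n Q B hf
  exact ⟨Nat.card (Cls k n Q B), ⟨Finite.equivFin _⟩,
    le_trans (by exact_mod_cast hb') hb⟩

end Pool.Agent.H52.UL
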