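import Pool.Agent.H52.UL.Tay
import Pool.Agent.H52.UL.Grid
import Pool.Agent.H52.UL.PointBox
import Pool.Agent.H52.UL.Count

/-!
# Project UL (MP_a3214d), row UL-12: the explicit theorem

All weights are `1`, all `κ i` are the same `κ`, and the points `Γ j` are any `n` distinct points
of the grid `{0, …, κ - 1}^(q + 1)`.
-/

set_option autoImplicit false

open NumberField Module Polynomial Pool.Agent.H52.UB Pool.Agent.H48.UD

namespace Pool.Agent.H52.UL

/-- `n` distinct points of the grid -/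
private theorem ul12_grid (n κ q : ℕ) (hnκ : n ≤ κ ^ (q + 1)) :
    ∃ Γ : Fin n → Fin (q + 1) → ℕ, (∀ j i, Γ j i < κ) ∧ Function.Injective Γ := by
  have hcard : Fintype.card (Fin n) ≤ Fintype.card (Fin (q + 1) → Fin κ) := by
    simpa using hnκ
  obtain ⟨f⟩ := Function.Embedding.nonempty_of_card_le hcard
  refine ⟨fun j i => (f j i : ℕ), fun j i => (f j i).2, fun j l h => f.injective ?_⟩
  funext i
  exact Fin.ext (congrFun h i)

/-- the polynomial in the conjugates which must not vanish -/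
private noncomputable def ul12_G {n q : ℕ} (κ : Fin (q + 1) → ℕ) (Γ : Fin n → Fin (q + 1) → ℕ)
    (S : ℕ) : MvPolynomial (Fin n × Fin (q + 1)) ℤ :=
  (∏ j, ∏ l ∈ Finset.univ.erase j, (MvPolynomial.X (j, 0) - MvPolynomial.X (l, 0))) *
    ∏ s ∈ Finset.range (S + 1), jd κ Γ s (fun j i => MvPolynomial.X (j, i))

private theorem ul12_G_ne {n q : ℕ} (κ : Fin (q + 1) → ℕ) (Γ : Fin n → Fin (q + 1) → ℕ)
    (hΓ : ∀ j i, Γ j i < κ i) (hinj : Function.Injective Γ) (S : ℕ) : ul12_G κ Γ S ≠ 0 := by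
  refine mul_ne_zero ?_ ?_
  · refine Finset.prod_ne_zero_iff.2 fun j _ => Finset.prod_ne_zero_iff.2 fun l hl => ?_
    have hlj : l ≠ j := (Finset.mem_erase.1 hl).1
    rw [sub_ne_zero]
    intro h
    have := MvPolynomial.X_injective h
    exact hlj (congrArg Prod.fst this).symm
  · refine Finset.prod_ne_zero_iff.2 fun s _ h => ?_
    have h2 := map_jd (MvPolynomial.eval (fun ρ : Fin n × Fin (q + 1) => ((Γ ρ.1 ρ.2 : ℕ) : ℤ)))
      κ Γ s (fun j i => (MvPolynomial.X (j, i) : MvPolynomial (Fin n × Fin (q + 1)) ℤ))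
    rw [h, map_zero] at h2
    simp only [MvPolynomial.eval_X] at h2
    exact grid_det κ Γ hΓ hinj s h2.symm

private theorem ul12_G_spec {F : Type*} [Field F] {n q : ℕ} (κ : Fin (q + 1) → ℕ)
    (Γ : Fin n → Fin (q + 1) → ℕ) (S : ℕ) (y : Fin n → Fin (q + 1) → F)
    (h : MvPolynomial.aeval (fun ρ : Fin n × Fin (q + 1) => y ρ.1 ρ.2) (ul12_G κ Γ S) ≠ 0) :
    (Function.Injective fun j => y j 0) ∧ ∀ s ≤ S, jd κ Γ s y ≠ 0 := by
  rw [ul12_G, map_mul] at h
  have h1 := left_ne_zero_of_mul h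
  have h2 := right_ne_zero_of_mul h
  constructor
  · intro j l hjl
    by_contra hne
    rw [map_prod] at h1
    have h3 := Finset.prod_ne_zero_iff.1 h1 j (Finset.mem_univ j)
    rw [map_prod] at h3
    have h4 := Finset.prod_ne_zero_iff.1 h3 l
      (Finset.mem_erase.2 ⟨fun h => hne h.symm, Finset.mem_univ l⟩)
    apply h4
    simp only [map_sub, MvPolynomial.aeval_X]
    exact sub_eq_zero.2 hjl
  · intro s hs h0
    rw [map_prod] at h2
    have h3 := Finset.prod_ne_zero_iff.1 h2 s (Finset.mem_range.2 (Nat.lt_succ_of_le hs))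
    apply h3
    have h4 := map_jd ((MvPolynomial.aeval (fun ρ : Fin n × Fin (q + 1) => y ρ.1 ρ.2) :
        MvPolynomial (Fin n × Fin (q + 1)) ℤ →ₐ[ℤ] F) : MvPolynomial (Fin n × Fin (q + 1)) ℤ →+* F)
      κ Γ s (fun j i => (MvPolynomial.X (j, i) : MvPolynomial (Fin n × Fin (q + 1)) ℤ))
    simp only [RingHom.coe_coe, MvPolynomial.aeval_X] at h4
    rw [h4]
    exact h0

private theorem ul12_equiv (k : Type) [Field k] [NumberField k] {n : ℕ}
    (M : IntermediateField k (AlgebraicClosure k)) [NumberField M] (hM : finrank k M = n) :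
    Nonempty ((M →ₐ[k] AlgebraicClosure k) ≃ Fin n) := by
  have : FiniteDimensional k M := by
    have : FiniteDimensional ℚ M := inferInstance
    exact Module.Finite.of_restrictScalars_finite ℚ k M
  have h1 : Fintype.card (M →ₐ[k] AlgebraicClosure k) = finrank k M :=
    AlgHom.card k M (AlgebraicClosure k)
  exact ⟨Fintype.equivFinOfCardEq (h1.trans hM)⟩

theorem plain (n κ q : ℕ) (hn : 1 ≤ n) (hκ : 2 ≤ κ) (hnκ : n ≤ κ ^ (q + 1)) (k : Type) [Field k]
    [NumberField k] (ε : ℝ) (hε : 0 < ε) : ∃ C : ℝ, ∀ B : ℝ, 1 ≤ B → Finite (ExtCls k n B) ∧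
      (extCount k n B : ℝ) ≤ C * B ^ ((κ - 1 / 2) * (q + 1) + ε : ℝ) := by
  obtain ⟨Γ, hΓ, hinj⟩ := ul12_grid n κ q hnκ
  have hq : (0 : ℝ) < (q : ℝ) + 1 := by positivity
  have hn0 : (0 : ℝ) < n := by exact_mod_cast hn
  have hc : (κ : ℝ) < κ + ε / (q + 1) := by
    have := div_pos hε hq
    linarith
  obtain ⟨S, hS⟩ := count_ul k hn (fun _ : Fin (q + 1) => 1) (fun _ => κ) κ (by omega)
    (fun _ => le_refl 1) (fun _ => (one_mul κ).le) Γ hΓ (κ + ε / (q + 1)) hc (1 / (n : ℝ))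
    (by positivity) (((q + 1 : ℕ) : ℝ) / 2)
  obtain ⟨C0, c1, hC0, hc1, hpts⟩ := exists_pointsG k hn (ul12_G (fun _ => κ) Γ S)
    (ul12_G_ne (fun _ => κ) Γ hΓ hinj S)
  obtain ⟨C, hC⟩ := hS ⟨C0, c1, hC0, hc1, fun M _ hM X hX hdX => by
    obtain ⟨e⟩ := ul12_equiv k M hM
    obtain ⟨T, hT, hT2⟩ := hpts M hM X hX hdX e
    refine ⟨e, T, hT, fun x hx => ?_⟩
    obtain ⟨h1, h2⟩ := hT2 x hx
    obtain ⟨h3, h4⟩ := ul12_G_spec (fun _ => κ) Γ S (fun j i => e.symm j (x i : M)) h2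
    refine ⟨fun i => ?_, h3, h4⟩
    have h5 := h1 i
    have h6 : ((1 : ℕ) : ℝ) * (1 / (n : ℝ)) / finrank ℚ k = 1 / (n * finrank ℚ k : ℝ) := by
      rw [Nat.cast_one, one_mul, div_div]
    rw [h6]
    exact h5⟩
  refine ⟨C, fun B hB => ?_⟩
  obtain ⟨hf, hb⟩ := hC B hB
  refine ⟨hf, ?_⟩
  have h7 : ((κ : ℝ) + ε / (q + 1)) * (q + 1) * n * (1 / n) - ((q + 1 : ℕ) : ℝ) / 2 =
      (κ - 1 / 2) * (q + 1) + ε := by
    push_cast
    field_simp
    ring
  rw [h7] at hb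
  exact hb

end Pool.Agent.H52.UL
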